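import Pool.Agent.H.MP_7783b9_co.B.Ram
import Pool.Agent.H.MP_7783b9_co.B.Rules
import Pool.Agent.H.MP_7783b9_co.B.NiceX

/-!
# Gadgets: a nice set and many vertices which are red to it
-/

set_option autoImplicit false

open Finset

namespace Pool.MP7783b9

open Classical in
/-- the indices of the sets `X i` that contain a `t`-set which is red to `v` -/
noncomputable def seen {α : Type} [DecidableEq α] (R : Finset α → Prop) (t : ℕ)
    (X : Fin 16 → Finset α) (v : α) : Finset (Fin 16) :=
  Finset.univ.filter fun i => ∃ Y ⊆ X i, Y.card = t ∧ RedTo R v Y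

/-- the vertices that see fewer than four of the sets form a red clique -/
theorem seen_clique (t : ℕ) :
    ∃ r : ℕ, ∀ {α : Type} [DecidableEq α] (R : Finset α → Prop) (U : Finset α)
      (_ : ¬ BlueFano R U) (X : Fin 16 → Finset α) (_ : ∀ i, X i ⊆ U) (_ : ∀ i, (X i).card = r)
      (_ : ∀ i j, i ≠ j → Disjoint (X i) (X j)) (D : Finset α) (_ : D ⊆ U)
      (_ : ∀ v ∈ D, (seen R t X v).card < 4), RedClique R D := by
  classical
  obtain ⟨r, hr⟩ := ram2 (Bool × Bool × Bool) (max t 4)
  refine ⟨r, ?_⟩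
  intro α _ R U hF X hXU hXc hXd D hDU hD f hf hcard
  obtain ⟨u, v, w, huv, huw, hvw, rfl⟩ := Finset.card_eq_three.mp hcard
  have hu : u ∈ D := hf (by simp)
  have hv : v ∈ D := hf (by simp)
  have hw : w ∈ D := hf (by simp)
  by_contra hR
  obtain ⟨i, hiu, hiv, hiw⟩ : ∃ i : Fin 16, (i ∉ seen R t X u ∧ u ∉ X i) ∧
      (i ∉ seen R t X v ∧ v ∉ X i) ∧ (i ∉ seen R t X w ∧ w ∉ X i) := by
    by_contra hcon
    push Not at hcon
    have hone : ∀ z : α, (Finset.univ.filter fun i : Fin 16 => z ∈ X i).card ≤ 1 := by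
      intro z
      rw [Finset.card_le_one]
      intro i hi j hj
      by_contra hij
      exact Finset.disjoint_left.mp (hXd i j hij) (Finset.mem_filter.1 hi).2
        (Finset.mem_filter.1 hj).2
    have hcov : (Finset.univ : Finset (Fin 16)) ⊆
        ((seen R t X u ∪ Finset.univ.filter fun i : Fin 16 => u ∈ X i) ∪
        (seen R t X v ∪ Finset.univ.filter fun i : Fin 16 => v ∈ X i)) ∪
        (seen R t X w ∪ Finset.univ.filter fun i : Fin 16 => w ∈ X i) := by
      intro i _
      by_contra hi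
      simp only [Finset.mem_union, Finset.mem_filter, Finset.mem_univ, true_and, not_or] at hi
      obtain ⟨⟨⟨h1, h2⟩, h3, h4⟩, h5, h6⟩ := hi
      exact h6 (hcon i ⟨h1, h2⟩ ⟨h3, h4⟩ h5)
    have hc := Finset.card_le_card hcov
    rw [Finset.card_univ, Fintype.card_fin] at hc
    have c1 := Finset.card_union_le ((seen R t X u ∪ Finset.univ.filter fun i : Fin 16 => u ∈ X i) ∪
        (seen R t X v ∪ Finset.univ.filter fun i : Fin 16 => v ∈ X i))
        (seen R t X w ∪ Finset.univ.filter fun i : Fin 16 => w ∈ X i)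
    have c2 := Finset.card_union_le (seen R t X u ∪ Finset.univ.filter fun i : Fin 16 => u ∈ X i)
        (seen R t X v ∪ Finset.univ.filter fun i : Fin 16 => v ∈ X i)
    have c3 := Finset.card_union_le (seen R t X u) (Finset.univ.filter fun i : Fin 16 => u ∈ X i)
    have c4 := Finset.card_union_le (seen R t X v) (Finset.univ.filter fun i : Fin 16 => v ∈ X i)
    have c5 := Finset.card_union_le (seen R t X w) (Finset.univ.filter fun i : Fin 16 => w ∈ X i)
    have d1 := hD u hu
    have d2 := hD v hv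
    have d3 := hD w hw
    have e1 := hone u
    have e2 := hone v
    have e3 := hone w
    omega
  obtain ⟨Y, hYX, hYc, c, hYcol⟩ := hr (X i)
    (fun p q => (decide (R {u, p, q}), decide (R {v, p, q}), decide (R {w, p, q})))
    (by intro x y; simp only [Finset.pair_comm x y]) (hXc i).ge
  have htY : t ≤ Y.card := by rw [hYc]; exact le_max_left _ _
  have h4Y : 4 ≤ Y.card := by rw [hYc]; exact le_max_right _ _
  obtain ⟨c1, c2, c3⟩ := c
  have hcol : ∀ p ∈ Y, ∀ q ∈ Y, p ≠ q → decide (R {u, p, q}) = c1 ∧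
      decide (R {v, p, q}) = c2 ∧ decide (R {w, p, q}) = c3 := by
    intro p hp q hq hpq
    have := hYcol p hp q hq hpq
    simp only [Prod.mk.injEq] at this
    exact this
  have hkill : ∀ z : α, (i ∉ seen R t X z ∧ z ∉ X i) →
      ¬ ∀ p ∈ Y, ∀ q ∈ Y, p ≠ q → R {z, p, q} := by
    rintro z ⟨hz1, hz2⟩ hred
    obtain ⟨Z, hZY, hZ⟩ := Finset.exists_subset_card_eq htY
    apply hz1
    unfold seen
    rw [Finset.mem_filter]
    exact ⟨Finset.mem_univ _, Z, hZY.trans hYX, hZ, fun h => hz2 (hYX (hZY h)),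
      fun p hp q hq hpq => hred p (hZY hp) q (hZY hq) hpq⟩
  have hc1 : c1 = false := by
    by_contra h
    have h' : c1 = true := by simpa using h
    refine hkill u hiu fun p hp q hq hpq => ?_
    have := (hcol p hp q hq hpq).1
    rw [h'] at this
    exact of_decide_eq_true this
  have hc2 : c2 = false := by
    by_contra h
    have h' : c2 = true := by simpa using h
    refine hkill v hiv fun p hp q hq hpq => ?_
    have := (hcol p hp q hq hpq).2.1
    rw [h'] at this
    exact of_decide_eq_true this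
  have hc3 : c3 = false := by
    by_contra h
    have h' : c3 = true := by simpa using h
    refine hkill w hiw fun p hp q hq hpq => ?_
    have := (hcol p hp q hq hpq).2.2
    rw [h'] at this
    exact of_decide_eq_true this
  have hne : ∀ z : α, z ∉ X i → ∀ y ∈ Y, z ≠ y := by
    rintro z hz y hy rfl
    exact hz (hYX hy)
  have hbu : ∀ p ∈ Y, ∀ q ∈ Y, p ≠ q → Blue3 R u p q := by
    intro p hp q hq hpq
    refine ⟨hne u hiu.2 p hp, hne u hiu.2 q hq, hpq, ?_⟩
    have := (hcol p hp q hq hpq).1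
    rw [hc1] at this
    exact of_decide_eq_false this
  have hbv : ∀ p ∈ Y, ∀ q ∈ Y, p ≠ q → Blue3 R v p q := by
    intro p hp q hq hpq
    refine ⟨hne v hiv.2 p hp, hne v hiv.2 q hq, hpq, ?_⟩
    have := (hcol p hp q hq hpq).2.1
    rw [hc2] at this
    exact of_decide_eq_false this
  have hbw : ∀ p ∈ Y, ∀ q ∈ Y, p ≠ q → Blue3 R w p q := by
    intro p hp q hq hpq
    refine ⟨hne w hiw.2 p hp, hne w hiw.2 q hq, hpq, ?_⟩
    have := (hcol p hp q hq hpq).2.2
    rw [hc3] at this
    exact of_decide_eq_false this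
  obtain ⟨Z, hZY, hZ4⟩ := Finset.exists_subset_card_eq h4Y
  obtain ⟨p, q, r', w', hpq, hpr, hpw, hqr, hqw, hrw, rfl⟩ := Finset.card_eq_four.mp hZ4
  have hp : p ∈ Y := hZY (by simp)
  have hq : q ∈ Y := hZY (by simp)
  have hr' : r' ∈ Y := hZY (by simp)
  have hw' : w' ∈ Y := hZY (by simp)
  have hYU : ∀ z ∈ Y, z ∈ U := fun z hz => hXU i (hYX hz)
  exact hF (fano_pairs R U (hDU hu) (hDU hv) (hDU hw) (hYU p hp)
    (hYU q hq) (hYU r' hr') (hYU w' hw') ⟨huv, huw, hvw, hR⟩ (hbu p hp q hq hpq)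
    (hbu r' hr' w' hw' hrw) (hbv p hp r' hr' hpr) (hbv q hq w' hw' hqw) (hbw p hp w' hw' hpw)
    (hbw q hq r' hr' hqr))

/-- many vertices which see at least four of the sets: some are red to the same `t`-set -/
theorem seen_pick {α : Type} [DecidableEq α] (R : Finset α → Prop) (t r J : ℕ) (hJ : 0 < J)
    (X : Fin 16 → Finset α) (hX : ∀ i, (X i).card = r) (G : Finset α)
    (hG : ∀ v ∈ G, 4 ≤ (seen R t X v).card) (hc : 4 * 2 ^ r * J ≤ G.card) :
    ∃ i, ∃ Y ⊆ X i, Y.card = t ∧ ∃ V ⊆ G, V.card = J ∧ ∀ v ∈ V, RedTo R v Y := by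
  classical
  -- double counting
  have hdc : ∑ v ∈ G, (seen R t X v).card =
      ∑ i : Fin 16, (G.filter fun v => i ∈ seen R t X v).card := by
    simp only [Finset.card_filter]
    rw [Finset.sum_comm]
    refine Finset.sum_congr rfl fun v _ => ?_
    rw [← Finset.card_filter]
    congr 1
    ext i
    simp
  have h4 : 4 * G.card ≤ ∑ i : Fin 16, (G.filter fun v => i ∈ seen R t X v).card := by
    rw [← hdc, mul_comm, ← smul_eq_mul, ← Finset.sum_const]
    exact Finset.sum_le_sum hG
  obtain ⟨i, hi⟩ : ∃ i : Fin 16, G.card ≤ 4 * (G.filter fun v => i ∈ seen R t X v).card := by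
    by_contra hcon
    push Not at hcon
    have h5 : ∑ i : Fin 16, (G.filter fun v => i ∈ seen R t X v).card * 4 <
        ∑ _i : Fin 16, G.card := by
      refine Finset.sum_lt_sum_of_nonempty ⟨0, Finset.mem_univ _⟩ fun i _ => ?_
      rw [mul_comm]
      exact hcon i
    rw [← Finset.sum_mul, Finset.sum_const, Finset.card_univ, Fintype.card_fin, smul_eq_mul] at h5
    omega
  have hch : ∀ v : α, ∃ Y : Finset α, v ∈ G.filter (fun v => i ∈ seen R t X v) →
      Y ⊆ X i ∧ Y.card = t ∧ RedTo R v Y := by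
    intro v
    by_cases hv : v ∈ G.filter (fun v => i ∈ seen R t X v)
    · have h6 := (Finset.mem_filter.1 hv).2
      unfold seen at h6
      obtain ⟨Y, h7, h8, h9⟩ := (Finset.mem_filter.1 h6).2
      exact ⟨Y, fun _ => ⟨h7, h8, h9⟩⟩
    · exact ⟨∅, fun h => absurd h hv⟩
  choose Yf hYf using hch
  obtain ⟨Y, -, hY⟩ := Finset.exists_le_card_fiber_of_mul_le_card_of_maps_to
    (s := G.filter fun v => i ∈ seen R t X v) (t := (X i).powerset) (f := Yf) (n := J)
    (fun v hv => Finset.mem_powerset.2 (hYf v hv).1) ⟨∅, Finset.empty_mem_powerset _⟩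
    (by
      rw [Finset.card_powerset, hX i]
      have : 4 * (2 ^ r * J) ≤ 4 * (G.filter fun v => i ∈ seen R t X v).card := by
        rw [← mul_assoc]
        exact hc.trans hi
      omega)
  obtain ⟨V, hV, hVc⟩ := Finset.exists_subset_card_eq hY
  have hVne : V.Nonempty := by
    rw [← Finset.card_pos, hVc]
    exact hJ
  have hVp : ∀ v ∈ V, v ∈ G ∧ Y ⊆ X i ∧ Y.card = t ∧ RedTo R v Y := by
    intro v hv
    obtain ⟨h1, h2⟩ := Finset.mem_filter.1 (hV hv)
    obtain ⟨h3, h4, h5⟩ := hYf v h1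
    rw [h2] at h3 h4 h5
    exact ⟨(Finset.mem_filter.1 h1).1, h3, h4, h5⟩
  obtain ⟨v₀, hv₀⟩ := hVne
  exact ⟨i, Y, (hVp v₀ hv₀).2.1, (hVp v₀ hv₀).2.2.1, V, fun v hv => (hVp v hv).1, hVc,
    fun v hv => (hVp v hv).2.2.2⟩

/-- many disjoint nice sets -/
theorem nice_many {α : Type} [DecidableEq α] (R : Finset α → Prop) (C : Finset α) (ε η : ℝ)
    (hε : 0 < ε) (hη : 0 < η) (hC : dense R C ε = ∅) (r k : ℕ) (A : Finset α) (hA : A ⊆ C)
    (h : r * (ε / η) * (C.card : ℝ) + (r : ℝ) ^ 2 * η * (C.card : ℝ) + r + k * r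
      < (A.card : ℝ)) :
    ∃ X : Fin k → Finset α, (∀ i, X i ⊆ A ∧ Nice R C ε η (X i) ∧ (X i).card = r) ∧
      ∀ i j, i ≠ j → Disjoint (X i) (X j) := by
  classical
  induction k with
  | zero =>
    exact ⟨fun i => i.elim0, fun i => i.elim0, fun i => i.elim0⟩
  | succ k ih =>
    have hr0 : (0 : ℝ) ≤ r := Nat.cast_nonneg r
    obtain ⟨X, hX1, hX2⟩ := ih (by
      push_cast at h ⊢
      linarith)
    have hU : ((Finset.univ.biUnion X).card : ℝ) ≤ k * r := by
      have h1 : (Finset.univ.biUnion X).card ≤ ∑ i : Fin k, (X i).card := Finset.card_biUnion_le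
      have h2 : ∑ i : Fin k, (X i).card = k * r := by
        rw [Finset.sum_congr rfl fun i _ => (hX1 i).2.2, Finset.sum_const, Finset.card_univ,
          Fintype.card_fin, smul_eq_mul]
      rw [h2] at h1
      exact_mod_cast h1
    have hA' : (A.card : ℝ) ≤ ((A \ Finset.univ.biUnion X).card : ℝ) +
        ((Finset.univ.biUnion X).card : ℝ) := by
      have h1 : A.card ≤ (A \ Finset.univ.biUnion X).card + (Finset.univ.biUnion X).card := by
        have := Finset.card_sdiff_add_card A (Finset.univ.biUnion X)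
        have h2 := Finset.card_le_card (Finset.subset_union_left (s₁ := A)
          (s₂ := Finset.univ.biUnion X))
        omega
      exact_mod_cast h1
    obtain ⟨Y, hY1, hY2, hY3⟩ := exists_nice R C ε η 0 hε hη r (A \ Finset.univ.biUnion X)
      (Finset.sdiff_subset.trans hA) (by rw [hC]; simp) (by
        push_cast at h
        linarith)
    have hYd : ∀ i, Disjoint Y (X i) := by
      intro i
      refine Finset.disjoint_left.2 fun z hz hzi => ?_
      exact (Finset.mem_sdiff.1 (hY1 hz)).2 (Finset.mem_biUnion.2 ⟨i, Finset.mem_univ _, hzi⟩)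
    refine ⟨Fin.cons Y X, ?_, ?_⟩
    · intro i
      refine Fin.cases ?_ ?_ i
      · rw [Fin.cons_zero]
        exact ⟨hY1.trans Finset.sdiff_subset, hY2, hY3⟩
      · intro j
        rw [Fin.cons_succ]
        exact hX1 j
    · intro i j
      refine Fin.cases ?_ ?_ i
      · refine Fin.cases ?_ ?_ j
        · intro h0
          exact absurd rfl h0
        · intro j' _
          rw [Fin.cons_zero, Fin.cons_succ]
          exact hYd j'
      · intro i'
        refine Fin.cases ?_ ?_ j
        · intro _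
          rw [Fin.cons_zero, Fin.cons_succ]
          exact (hYd i').symm
        · intro j' hij
          rw [Fin.cons_succ, Fin.cons_succ]
          exact hX2 i' j' fun h0 => hij (by rw [h0])

/-- the gadget step: `F` is the free part of the cluster `C`, `G` the set of available vertices,
`D₀` bounds the size of red cliques -/
theorem gadget_step (t : ℕ) :
    ∃ r : ℕ, ∀ {α : Type} [DecidableEq α] (R : Finset α → Prop) (U : Finset α)
      (_ : ¬ BlueFano R U) (C : Finset α) (_ : C ⊆ U) (ε η : ℝ) (_ : 0 < ε) (_ : 0 < η)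
      (_ : dense R C ε = ∅) (F : Finset α) (_ : F ⊆ C)
      (_ : r * (ε / η) * (C.card : ℝ) + (r : ℝ) ^ 2 * η * (C.card : ℝ) + 17 * r
        < (F.card : ℝ)) (D₀ : ℝ) (_ : ∀ D ⊆ U, RedClique R D → (D.card : ℝ) < D₀)
      (G : Finset α) (_ : G ⊆ U) (_ : D₀ + 4 * 2 ^ r * t ≤ (G.card : ℝ)),
      ∃ Y ⊆ F, Nice R C ε η Y ∧ Y.card = t ∧ ∃ V ⊆ G, V.card = t ∧
        ∀ v ∈ V, RedTo R v Y := by
  classical
  obtain ⟨r, hr⟩ := seen_clique t
  refine ⟨r, ?_⟩
  intro α _ R U hBF C hCU ε η hε hη hC F hFC hFc D₀ hD₀ G hGU hG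
  rcases Nat.eq_zero_or_pos t with h0 | h0
  · refine ⟨∅, Finset.empty_subset _, ⟨Finset.empty_subset _, ?_, ?_, ?_⟩, ?_, ∅,
      Finset.empty_subset _, ?_, ?_⟩
    · intro x hx
      exact absurd hx (Finset.notMem_empty x)
    · intro x hx
      exact absurd hx (Finset.notMem_empty x)
    · intro f hf hc
      have : f = ∅ := Finset.subset_empty.1 hf
      rw [this] at hc
      simp at hc
    · rw [h0]
      rfl
    · rw [h0]
      rfl
    · intro v hv
      exact absurd hv (Finset.notMem_empty v)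
  obtain ⟨X, hX1, hX2⟩ := nice_many R C ε η hε hη hC r 16 F hFC (by
    push_cast
    linarith)
  have hXU : ∀ i, X i ⊆ U := fun i => ((hX1 i).1.trans hFC).trans hCU
  have hcl := hr R U hBF X hXU (fun i => (hX1 i).2.2) hX2
    (G.filter fun v => (seen R t X v).card < 4) ((Finset.filter_subset _ _).trans hGU)
    (fun v hv => (Finset.mem_filter.1 hv).2)
  have hDc := hD₀ _ ((Finset.filter_subset _ _).trans hGU) hcl
  have hsplit : (G.card : ℝ) = ((G.filter fun v => (seen R t X v).card < 4).card : ℝ) +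
      ((G.filter fun v => ¬ (seen R t X v).card < 4).card : ℝ) := by
    exact_mod_cast (Finset.card_filter_add_card_filter_not
      (s := G) (fun v => (seen R t X v).card < 4)).symm
  have hG' : 4 * 2 ^ r * t ≤ (G.filter fun v => ¬ (seen R t X v).card < 4).card := by
    have : (4 * 2 ^ r * t : ℝ) ≤ ((G.filter fun v => ¬ (seen R t X v).card < 4).card : ℝ) := by
      linarith
    exact_mod_cast this
  obtain ⟨i, Y, hYX, hYc, V, hVG, hVc, hV⟩ := seen_pick R t r t h0 X (fun i => (hX1 i).2.2)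
    (G.filter fun v => ¬ (seen R t X v).card < 4)
    (fun v hv => not_lt.1 (Finset.mem_filter.1 hv).2) hG'
  exact ⟨Y, hYX.trans (hX1 i).1, (hX1 i).2.1.subset hYX, hYc, V,
    hVG.trans (Finset.filter_subset _ _), hVc, hV⟩

end Pool.MP7783b9
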