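import Pool.Agent.H.MP_7783b9_co.B.Basic

/-!
# Embedding the pieces
-/

set_option autoImplicit false

open Finset

namespace Pool.MP7783b9

private theorem Phi0_map {V α : Type*} [DecidableEq V] [Nonempty α] (A : Finset V) (B : Finset α)
    (h : B.card = A.card) :
    ∃ f : V → α, (∀ x ∈ A, f x ∈ B) ∧ ∀ x ∈ A, ∀ y ∈ A, f x = f y → x = y := by
  have e := Finset.equivOfCardEq h.symm
  refine ⟨fun x => if hx : x ∈ A then (e ⟨x, hx⟩ : α) else Classical.arbitrary α, ?_, ?_⟩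
  · intro x hx
    simp only [dif_pos hx]
    exact (e ⟨x, hx⟩).2
  · intro x hx y hy hxy
    simp only [dif_pos hx, dif_pos hy] at hxy
    have := e.injective (Subtype.ext hxy)
    exact congrArg Subtype.val this

theorem phi_pieces {V : Type*} {κ α : Type} [Fintype V] [DecidableEq V] [DecidableEq κ] [DecidableEq α]
    [Nonempty α] (E : Finset (Finset V)) (h3 : ∀ f ∈ E, f.card = 3) (S I : Finset V)
    (pc : V → κ) (hpc : ∀ f ∈ E, ∀ x ∈ f, ∀ y ∈ f, x ∉ S → y ∉ S → pc x = pc y)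
    (hI : ∀ f ∈ E, (f ∩ I).card ≤ 1) (R : Finset α → Prop) (Y Vs : κ → Finset α)
    (hY : ∀ x ∉ S, RedClique R (Y (pc x)) ∧
      (Y (pc x)).card = (Finset.univ.filter fun y => y ∉ S ∧ y ∉ I ∧ pc y = pc x).card)
    (hV : ∀ x ∉ S, (Vs (pc x)).card = (Finset.univ.filter fun y => y ∉ S ∧ y ∈ I ∧
      pc y = pc x).card ∧ ∀ v ∈ Vs (pc x), RedTo R v (Y (pc x)))
    (hd : ∀ x ∉ S, ∀ y ∉ S, pc x ≠ pc y → Disjoint (Y (pc x)) (Y (pc y)) ∧
      Disjoint (Vs (pc x)) (Vs (pc y)))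
    (hYV : ∀ x ∉ S, ∀ y ∉ S, Disjoint (Y (pc x)) (Vs (pc y))) :
    ∃ φ : V → α, Set.InjOn φ {x | x ∉ S} ∧ (∀ x ∉ S, x ∉ I → φ x ∈ Y (pc x)) ∧
      (∀ x ∉ S, x ∈ I → φ x ∈ Vs (pc x)) ∧ ∀ f ∈ E, Disjoint f S → R (f.image φ) := by
  have hF : ∀ k : κ, ∃ f : V → α, (∃ x, x ∉ S ∧ pc x = k) →
      (∀ y, y ∉ S → y ∉ I → pc y = k → f y ∈ Y k) ∧
      ∀ y z, y ∉ S → y ∉ I → pc y = k → z ∉ S → z ∉ I → pc z = k → f y = f z → y = z := by
    intro k
    by_cases hk : ∃ x, x ∉ S ∧ pc x = k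
    · obtain ⟨x, hx, rfl⟩ := hk
      obtain ⟨f, hf1, hf2⟩ := Phi0_map _ _ (hY x hx).2
      refine ⟨f, fun _ => ⟨fun y h1 h2 h4 => hf1 y ?_, fun y z h1 h2 h4 g1 g2 g3 he => hf2 y ?_ z ?_ he⟩⟩
      · exact Finset.mem_filter.2 ⟨Finset.mem_univ _, h1, h2, h4⟩
      · exact Finset.mem_filter.2 ⟨Finset.mem_univ _, h1, h2, h4⟩
      · exact Finset.mem_filter.2 ⟨Finset.mem_univ _, g1, g2, g3⟩
    · exact ⟨fun _ => Classical.arbitrary α, fun h => absurd h hk⟩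
  have hG : ∀ k : κ, ∃ f : V → α, (∃ x, x ∉ S ∧ pc x = k) →
      (∀ y, y ∉ S → y ∈ I → pc y = k → f y ∈ Vs k) ∧
      ∀ y z, y ∉ S → y ∈ I → pc y = k → z ∉ S → z ∈ I → pc z = k → f y = f z → y = z := by
    intro k
    by_cases hk : ∃ x, x ∉ S ∧ pc x = k
    · obtain ⟨x, hx, rfl⟩ := hk
      obtain ⟨f, hf1, hf2⟩ := Phi0_map _ _ (hV x hx).1
      refine ⟨f, fun _ => ⟨fun y h1 h2 h4 => hf1 y ?_, fun y z h1 h2 h4 g1 g2 g3 he => hf2 y ?_ z ?_ he⟩⟩
      · exact Finset.mem_filter.2 ⟨Finset.mem_univ _, h1, h2, h4⟩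
      · exact Finset.mem_filter.2 ⟨Finset.mem_univ _, h1, h2, h4⟩
      · exact Finset.mem_filter.2 ⟨Finset.mem_univ _, g1, g2, g3⟩
    · exact ⟨fun _ => Classical.arbitrary α, fun h => absurd h hk⟩
  choose F hF using hF
  choose G' hG using hG
  obtain ⟨φ, hφ⟩ : ∃ φ : V → α, ∀ x, φ x = if x ∈ I then G' (pc x) x else F (pc x) x :=
    ⟨_, fun _ => rfl⟩
  have hφ1 : ∀ x ∉ S, x ∉ I → φ x ∈ Y (pc x) := by
    intro x hx hxI
    rw [hφ, if_neg hxI]
    exact (hF (pc x) ⟨x, hx, rfl⟩).1 x hx hxI rfl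
  have hφ2 : ∀ x ∉ S, x ∈ I → φ x ∈ Vs (pc x) := by
    intro x hx hxI
    rw [hφ, if_pos hxI]
    exact (hG (pc x) ⟨x, hx, rfl⟩).1 x hx hxI rfl
  have hinj : Set.InjOn φ {x | x ∉ S} := by
    intro x hx y hy hxy
    have hx' : x ∉ S := hx
    have hy' : y ∉ S := hy
    by_cases hxI : x ∈ I
    · by_cases hyI : y ∈ I
      · have h1 := hφ2 x hx' hxI
        have h2 := hφ2 y hy' hyI
        by_cases hk : pc x = pc y
        · rw [hφ, hφ y, if_pos hxI, if_pos hyI, hk] at hxy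
          exact (hG (pc y) ⟨y, hy', rfl⟩).2 x y hx' hxI hk hy' hyI rfl hxy
        · rw [hxy] at h1
          exact absurd h2 (Finset.disjoint_left.1 (hd x hx' y hy' hk).2 h1)
      · have h1 := hφ2 x hx' hxI
        have h2 := hφ1 y hy' hyI
        rw [hxy] at h1
        exact absurd h1 (Finset.disjoint_left.1 (hYV y hy' x hx') h2)
    · by_cases hyI : y ∈ I
      · have h1 := hφ1 x hx' hxI
        have h2 := hφ2 y hy' hyI
        rw [hxy] at h1
        exact absurd h2 (Finset.disjoint_left.1 (hYV x hx' y hy') h1)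
      · have h1 := hφ1 x hx' hxI
        have h2 := hφ1 y hy' hyI
        by_cases hk : pc x = pc y
        · rw [hφ, hφ y, if_neg hxI, if_neg hyI, hk] at hxy
          exact (hF (pc y) ⟨y, hy', rfl⟩).2 x y hx' hxI hk hy' hyI rfl hxy
        · rw [hxy] at h1
          exact absurd h2 (Finset.disjoint_left.1 (hd x hx' y hy' hk).1 h1)
  refine ⟨φ, hinj, hφ1, hφ2, ?_⟩
  intro f hf hfS
  have hS : ∀ x ∈ f, x ∉ S := fun x hx => Finset.disjoint_left.1 hfS hx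
  by_cases hfI : ∃ x ∈ f, x ∈ I
  · obtain ⟨x, hxf, hxI⟩ := hfI
    have hoth : ∀ y ∈ f, y ≠ x → y ∉ I := by
      intro y hy hyx hyI
      have h1 := Finset.card_le_one.1 (hI f hf) y (Finset.mem_inter.2 ⟨hy, hyI⟩) x
        (Finset.mem_inter.2 ⟨hxf, hxI⟩)
      exact hyx h1
    have hc2 : (f.erase x).card = 2 := by
      rw [Finset.card_erase_of_mem hxf, h3 f hf]
    obtain ⟨b, c, hbc, hbce⟩ := Finset.card_eq_two.1 hc2
    have hb : b ∈ f ∧ b ≠ x := by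
      have : b ∈ f.erase x := by rw [hbce]; exact Finset.mem_insert_self _ _
      exact ⟨(Finset.mem_erase.1 this).2, (Finset.mem_erase.1 this).1⟩
    have hc : c ∈ f ∧ c ≠ x := by
      have : c ∈ f.erase x := by
        rw [hbce]
        exact Finset.mem_insert_of_mem (Finset.mem_singleton_self _)
      exact ⟨(Finset.mem_erase.1 this).2, (Finset.mem_erase.1 this).1⟩
    have hfe : f = {x, b, c} := by
      rw [← Finset.insert_erase hxf, hbce]
    have hkb : pc b = pc x := hpc f hf b hb.1 x hxf (hS b hb.1) (hS x hxf)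
    have hkc : pc c = pc x := hpc f hf c hc.1 x hxf (hS c hc.1) (hS x hxf)
    have hbY : φ b ∈ Y (pc x) := by
      rw [← hkb]
      exact hφ1 b (hS b hb.1) (hoth b hb.1 hb.2)
    have hcY : φ c ∈ Y (pc x) := by
      rw [← hkc]
      exact hφ1 c (hS c hc.1) (hoth c hc.1 hc.2)
    have hne : φ b ≠ φ c := fun h => hbc (hinj (hS b hb.1) (hS c hc.1) h)
    have himg : f.image φ = {φ x, φ b, φ c} := by
      rw [hfe, Finset.image_insert, Finset.image_insert, Finset.image_singleton]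
    rw [himg]
    exact ((hV x (hS x hxf)).2 _ (hφ2 x (hS x hxf) hxI)).2 _ hbY _ hcY hne
  · push Not at hfI
    have hne : f.Nonempty := by
      rw [← Finset.card_pos, h3 f hf]
      norm_num
    obtain ⟨x, hxf⟩ := hne
    refine (hY x (hS x hxf)).1 _ ?_ ?_
    · intro z hz
      obtain ⟨y, hy, rfl⟩ := Finset.mem_image.1 hz
      rw [hpc f hf x hxf y hy (hS x hxf) (hS y hy)]
      exact hφ1 y (hS y hy) (hfI y hy)
    · rw [Finset.card_image_of_injOn, h3 f hf]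
      intro a ha b hb hab
      exact hinj (hS a ha) (hS b hb) hab

end Pool.MP7783b9
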