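import Pool.Agent.H.MP_7783b9_co.B.Basic

/-!
# Gadgets for all pieces, one after the other
-/

set_option autoImplicit false

open Finset

namespace Pool.MP7783b9

/-- `P` is the set of pieces, `cl k` the cluster of the piece `k`, `a k` and `j k` are the numbers
of its base vertices and of its inserted vertices, `Xs` is the region for the base vertices and
`O` the region for the inserted vertices. -/
theorem pieces_seq {α κ : Type} [DecidableEq α] [DecidableEq κ] (R : Finset α → Prop)
    (Xs O : Finset α) (ε η : ℝ) (P : Finset κ) (cl : κ → Finset α) (a j : κ → ℕ) (t z g : ℕ)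
    (ha : ∀ k ∈ P, a k ≤ t) (hj : ∀ k ∈ P, j k ≤ t)
    (step : ∀ k ∈ P, ∀ F ⊆ cl k ∩ Xs, z ≤ F.card → ∀ G ⊆ O, g ≤ G.card →
      ∃ Y ⊆ F, Nice R (cl k) ε η Y ∧ Y.card = t ∧ ∃ V ⊆ G, V.card = t ∧
        ∀ v ∈ V, RedTo R v Y)
    (hload : ∀ k ∈ P, ∑ k' ∈ P with cl k' = cl k, a k' + z ≤ (cl k ∩ Xs).card)
    (hdis : ∀ k ∈ P, ∀ k' ∈ P, cl k ≠ cl k' → Disjoint (cl k) (cl k'))
    (hO : ∑ k ∈ P, j k + g ≤ O.card) :
    ∃ Y V : κ → Finset α,
      (∀ k ∈ P, Y k ⊆ cl k ∩ Xs ∧ Nice R (cl k) ε η (Y k) ∧ (Y k).card = a k ∧ V k ⊆ O ∧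
        (V k).card = j k ∧ ∀ v ∈ V k, RedTo R v (Y k)) ∧
      ∀ k ∈ P, ∀ k' ∈ P, k ≠ k' → Disjoint (Y k) (Y k') ∧ Disjoint (V k) (V k') := by
  classical
  have main : ∀ P' : Finset κ, P' ⊆ P → ∃ Y V : κ → Finset α,
      (∀ k ∈ P', Y k ⊆ cl k ∩ Xs ∧ Nice R (cl k) ε η (Y k) ∧ (Y k).card = a k ∧ V k ⊆ O ∧
        (V k).card = j k ∧ ∀ v ∈ V k, RedTo R v (Y k)) ∧
      ∀ k ∈ P', ∀ k' ∈ P', k ≠ k' → Disjoint (Y k) (Y k') ∧ Disjoint (V k) (V k') := by
    intro P'
    refine Finset.induction_on P' ?_ ?_
    · intro _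
      refine ⟨fun _ => ∅, fun _ => ∅, ?_, ?_⟩
      · intro k hk
        simp at hk
      · intro k hk
        simp at hk
    · intro k₀ Q hk₀ ih hsub
      have hQ : Q ⊆ P := fun x hx => hsub (Finset.mem_insert_of_mem hx)
      have hk₀P : k₀ ∈ P := hsub (Finset.mem_insert_self _ _)
      obtain ⟨Y, V, h1, h2⟩ := ih hQ
      set F : Finset α := (cl k₀ ∩ Xs) \ Q.biUnion Y with hF
      set G : Finset α := O \ Q.biUnion V with hG
      have hFz : z ≤ F.card := by
        have e1 : F = (cl k₀ ∩ Xs) \ (Q.filter fun k' => cl k' = cl k₀).biUnion Y := by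
          ext x
          simp only [hF, Finset.mem_sdiff, Finset.mem_biUnion, Finset.mem_filter, not_exists,
            not_and]
          constructor
          · rintro ⟨hx, h⟩
            exact ⟨hx, fun k hk => h k hk.1⟩
          · rintro ⟨hx, h⟩
            refine ⟨hx, fun k hk hxk => ?_⟩
            by_cases hc : cl k = cl k₀
            · exact h k ⟨hk, hc⟩ hxk
            · have hd := hdis k (hQ hk) k₀ hk₀P hc
              exact Finset.disjoint_left.1 hd (Finset.mem_inter.1 ((h1 k hk).1 hxk)).1
                (Finset.mem_inter.1 hx).1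
        have e2 : ((Q.filter fun k' => cl k' = cl k₀).biUnion Y).card ≤
            ∑ k' ∈ P with cl k' = cl k₀, a k' := by
          refine Finset.card_biUnion_le.trans ?_
          have e3 : ∑ k' ∈ Q with cl k' = cl k₀, (Y k').card =
              ∑ k' ∈ Q with cl k' = cl k₀, a k' := by
            refine Finset.sum_congr rfl fun k' hk' => ?_
            exact (h1 k' (Finset.mem_filter.1 hk').1).2.2.1
          rw [e3]
          exact Finset.sum_le_sum_of_subset (Finset.filter_subset_filter _ hQ)
        have e4 := Finset.le_card_sdiff ((Q.filter fun k' => cl k' = cl k₀).biUnion Y)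
          (cl k₀ ∩ Xs)
        rw [e1]
        have e5 := hload k₀ hk₀P
        omega
      have hGg : g ≤ G.card := by
        have e2 : (Q.biUnion V).card ≤ ∑ k ∈ P, j k := by
          refine Finset.card_biUnion_le.trans ?_
          have e3 : ∑ k' ∈ Q, (V k').card = ∑ k' ∈ Q, j k' := by
            refine Finset.sum_congr rfl fun k' hk' => ?_
            exact (h1 k' hk').2.2.2.2.1
          rw [e3]
          exact Finset.sum_le_sum_of_subset hQ
        have e4 := Finset.le_card_sdiff (Q.biUnion V) O
        rw [hG]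
        omega
      obtain ⟨Y0, hY0, hN, hY0c, V0, hV0, hV0c, hred⟩ := step k₀ hk₀P F Finset.sdiff_subset hFz G
        Finset.sdiff_subset hGg
      obtain ⟨Y1, hY1, hY1c⟩ := Finset.exists_subset_card_eq (s := Y0) (n := a k₀)
        (by rw [hY0c]; exact ha k₀ hk₀P)
      obtain ⟨V1, hV1, hV1c⟩ := Finset.exists_subset_card_eq (s := V0) (n := j k₀)
        (by rw [hV0c]; exact hj k₀ hk₀P)
      have hne : ∀ k ∈ Q, k ≠ k₀ := fun k hk h => hk₀ (h ▸ hk)
      have hYd : ∀ k ∈ Q, Disjoint (Y k) Y1 := by
        intro k hk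
        rw [Finset.disjoint_left]
        intro x hx hx1
        have := hY0 (hY1 hx1)
        rw [hF, Finset.mem_sdiff] at this
        exact this.2 (Finset.mem_biUnion.2 ⟨k, hk, hx⟩)
      have hVd : ∀ k ∈ Q, Disjoint (V k) V1 := by
        intro k hk
        rw [Finset.disjoint_left]
        intro x hx hx1
        have := hV0 (hV1 hx1)
        rw [hG, Finset.mem_sdiff] at this
        exact this.2 (Finset.mem_biUnion.2 ⟨k, hk, hx⟩)
      refine ⟨Function.update Y k₀ Y1, Function.update V k₀ V1, ?_, ?_⟩
      · intro k hk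
        rcases Finset.mem_insert.1 hk with rfl | hk
        · simp only [Function.update_self]
          refine ⟨(hY1.trans hY0).trans Finset.sdiff_subset, hN.subset hY1, hY1c,
            (hV1.trans hV0).trans Finset.sdiff_subset, hV1c, ?_⟩
          intro v hv
          obtain ⟨r1, r2⟩ := hred v (hV1 hv)
          exact ⟨fun h => r1 (hY1 h), fun p hp q hq => r2 p (hY1 hp) q (hY1 hq)⟩
        · rw [Function.update_of_ne (hne k hk), Function.update_of_ne (hne k hk)]
          exact h1 k hk
      · intro k hkI k' hkI' hkk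
        rcases Finset.mem_insert.1 hkI with rfl | hk
        · rcases Finset.mem_insert.1 hkI' with rfl | hk'
          · exact absurd rfl hkk
          · rw [Function.update_self, Function.update_self, Function.update_of_ne (hne k' hk'),
              Function.update_of_ne (hne k' hk')]
            exact ⟨(hYd k' hk').symm, (hVd k' hk').symm⟩
        · rcases Finset.mem_insert.1 hkI' with h' | hk'
          · subst h'
            rw [Function.update_self, Function.update_self, Function.update_of_ne (hne k hk),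
              Function.update_of_ne (hne k hk)]
            exact ⟨hYd k hk, hVd k hk⟩
          · rw [Function.update_of_ne (hne k hk), Function.update_of_ne (hne k hk),
              Function.update_of_ne (hne k' hk'), Function.update_of_ne (hne k' hk')]
            exact h2 k hk k' hk' hkk
  exact main P (Finset.Subset.refl P)

end Pool.MP7783b9
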