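import Pool.Agent.H.MP_7783b9_co.W.Join
import Pool.Agent.H.MP_7783b9_co.W.Gadg
import Pool.Agent.H.MP_7783b9_co.W.Seq
import Pool.Agent.H.MP_7783b9_co.W.Phi0
import Pool.Agent.H.MP_7783b9_co.G.Pattern

/-!
# The red copy when the structure of the colouring and the cut of the hypergraph are given
-/

set_option autoImplicit false

open Finset

namespace Pool.MP7783b9

/-- sums over fibres -/
theorem Assem_fib {V κ : Type*} [DecidableEq V] [DecidableEq κ] (X : Finset V) (pc : V → κ)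
    (P : Finset κ) (hP : ∀ x ∈ X, pc x ∈ P) (Q : κ → Prop) [DecidablePred Q] :
    ∑ k ∈ P with Q k, (X.filter fun x => pc x = k).card =
      (X.filter fun x => Q (pc x)).card := by
  have h1 := card_eq_sum_card_fiberwise (s := X.filter fun x => Q (pc x)) (t := P.filter Q)
    (f := pc) (fun x hx => by
      obtain ⟨h1, h2⟩ := mem_filter.1 (mem_coe.1 hx)
      exact mem_coe.2 (mem_filter.2 ⟨hP x h1, h2⟩))
  rw [h1]
  refine sum_congr rfl fun k hk => ?_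
  congr 1
  ext x
  simp only [mem_filter]
  constructor
  · rintro ⟨h2, h3⟩
    exact ⟨⟨h2, by rw [h3]; exact (mem_filter.1 hk).2⟩, h3⟩
  · rintro ⟨⟨h2, -⟩, h3⟩
    exact ⟨h2, h3⟩

/-- assigning the second pieces to clusters -/
theorem Assem_pack {V β : Type*} [DecidableEq V] [DecidableEq β] (X : Finset V) (c : V → ℕ)
    (J : Finset β) (hJ : J.Nonempty) (cap : β → ℕ) (K : ℕ)
    (hK : ∀ k, (X.filter fun x => c x = k).card ≤ K) (h : X.card + J.card * K ≤ ∑ b ∈ J, cap b) :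
    ∃ l : ℕ → β, (∀ k, l k ∈ J) ∧ ∀ b ∈ J, (X.filter fun x => l (c x) = b).card ≤ cap b := by
  obtain ⟨l, hl, hcap⟩ := bin_pack (X.image c) (fun k => (X.filter fun x => c x = k).card) J hJ
    cap K (fun k _ => hK k) (by
      have h1 := Assem_fib X c (X.image c) (fun x hx => mem_image_of_mem c hx) (fun _ => True)
      rw [filter_true_of_mem (fun _ _ => trivial), filter_true_of_mem (fun _ _ => trivial)] at h1
      rw [h1]
      exact h)
  obtain ⟨b₀, hb₀⟩ := hJ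
  refine ⟨fun k => if k ∈ X.image c then l k else b₀, ?_, ?_⟩
  · intro k
    beta_reduce
    split_ifs with hk
    · exact hl k hk
    · exact hb₀
  · intro b hb
    refine le_trans (le_of_eq ?_) (hcap b hb)
    rw [Assem_fib X c (X.image c) (fun x hx => mem_image_of_mem c hx) (fun k => l k = b)]
    congr 1
    refine filter_congr fun x hx => ?_
    beta_reduce
    rw [if_pos (mem_image_of_mem c hx)]

theorem assemble (t : ℕ) :
    ∃ r : ℕ, ∀ {V : Type*} {α : Type} [Fintype V] [Nonempty V] [DecidableEq V] [DecidableEq α]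
    (E : Finset (Finset V)) (Δ : ℕ) (_ : Hyp Finset.univ E Δ) (R : Finset α → Prop)
    (U : Finset α) (_ : ¬ BlueFano R U) (D₀ : ℝ)
    (_ : ∀ D ⊆ U, RedClique R D → (D.card : ℝ) < D₀)
    -- the cut of the hypergraph
    (p : ℕ) (d c₁ c₂ : V → ℕ) (S₁ : Finset V) (_ : ∀ x, d x ≤ 3 * p + 3)
    (_ : ∀ f ∈ E, ∀ x ∈ f, ∀ y ∈ f, d y ≤ d x + 1)
    (_ : ∀ f ∈ E, ∀ x ∈ f, ∀ y ∈ f, x ∉ S₁ → y ∉ S₁ → c₁ x = c₁ y)
    (_ : ∀ i, (Finset.univ.filter fun x => x ∉ S₁ ∧ c₁ x = i).card ≤ t)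
    (_ : ∀ f ∈ E, ∀ x ∈ f, ∀ y ∈ f, 0 < d x → 0 < d y → c₂ x = c₂ y) (K₂ : ℕ)
    (_ : ∀ i, (Finset.univ.filter fun x => 0 < d x ∧ c₂ x = i).card ≤ K₂)
    (I : Finset V) (_ : ∀ f ∈ E, (f ∩ I).card ≤ 1)
    (_ : ∀ x ∈ I, x ∉ S₁ ∧ d x = 3 * p + 3 ∧ ∀ f ∈ E, x ∈ f → ∀ y ∈ f, y ∉ S₁ ∧
      d y = 3 * p + 3)
    -- the clusters
    (N : ℕ) (ε η : ℝ) (_ : 0 < ε) (_ : 0 < η) (J : Finset (Finset α)) (_ : J.Nonempty)
    (C₀ : Finset α) (q : Finset α → ℕ → Finset α)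
    (_ : ∀ C ∈ J, q C 0 = C₀ ∧ (∀ i, p ≤ i → q C i = C) ∧
      ∀ i, q C i ⊆ U ∧ (q C i).card = N ∧ dense R (q C i) ε = ∅)
    (_ : ∀ C ∈ J, ∀ C' ∈ J, C ≠ C' → Disjoint C C')
    (LA LA' : Finset α → Finset α → Finset α) (εl ηl m : ℝ) (_ : 0 < εl) (_ : 0 < ηl)
    (_ : m ≤ (N : ℝ))
    (_ : ∀ C ∈ J, ∀ i, q C i ≠ q C (i + 1) → LA (q C i) (q C (i + 1)) ⊆ q C i ∧
      LA' (q C i) (q C (i + 1)) ⊆ q C (i + 1) ∧
      (LA (q C i) (q C (i + 1))).card = (LA' (q C i) (q C (i + 1))).card ∧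
      m ≤ ((LA (q C i) (q C (i + 1))).card : ℝ) ∧
      dense R (LA (q C i) (q C (i + 1)) ∪ LA' (q C i) (q C (i + 1))) εl = ∅)
    -- the reserved set
    (Z : Finset α) (ζ : ℝ) (_ : 0 < ζ)
    (_ : ∀ C ∈ J, ∀ i, ζ * (N : ℝ) / 2 ≤ ((Z ∩ q C i).card : ℝ))
    (_ : ∀ C ∈ J, ∀ i, q C i ≠ q C (i + 1) →
      ζ * ((LA (q C i) (q C (i + 1))).card : ℝ) / 2 ≤
        ((Z ∩ LA (q C i) (q C (i + 1))).card : ℝ) ∧
      ζ * ((LA' (q C i) (q C (i + 1))).card : ℝ) / 2 ≤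
        ((Z ∩ LA' (q C i) (q C (i + 1))).card : ℝ))
    (β βl : ℝ) (_ : ε / η * (N : ℝ) ≤ β) (_ : η * (N : ℝ) ≤ β)
    (_ : εl / ηl ≤ βl) (_ : ηl ≤ βl) (_ : 24 * (Δ : ℝ) * βl ≤ ζ)
    (_ : ((Finset.univ.filter fun x => d x < 3 * p + 3).card : ℝ) + 3 * Δ * β < ζ * m / 4)
    -- the regions for the base vertices and for the inserted vertices
    (Xs O : Finset α) (_ : Disjoint Xs Z) (_ : O ⊆ U) (_ : Disjoint O Xs) (_ : Disjoint O Z)
    (z : ℕ) (_ : 3 * Δ * β < (z : ℝ))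
    (_ : r * (ε / η) * (N : ℝ) + (r : ℝ) ^ 2 * η * (N : ℝ) + 17 * r < (z : ℝ))
    (_ : ∀ C ∈ J, 2 * z ≤ (C ∩ Xs).card)
    (_ : (Finset.univ.filter fun x => x ∉ I).card + J.card * K₂ + J.card * z ≤
      ∑ C ∈ J, (C ∩ Xs).card)
    (_ : (I.card : ℝ) + (D₀ + 4 * 2 ^ r * t) + 1 ≤ (O.card : ℝ)),
    HasRed R Finset.univ E U := by
  classical
  obtain ⟨r, hr⟩ := gadget_step t
  refine ⟨r, ?_⟩
  intro V α _ _ _ _ E Δ hH R U hBF D₀ hD₀ p d c₁ c₂ S₁ hdD hd hc1 hc1t hc2 K₂ hc2K I hI hIS N ε η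
    hε hη J hJ C₀ q hq hJd LA LA' εl ηl m hεl hηl hmN hL Z ζ hζ hZ1 hZ2 β βl hβ1 hβ2 hβl hβl2 hβl3
    hnum Xs O hXZ hOU hOX hOZ z hz1 hz2 hJz hsum hO
  -- elementary facts
  have hβ0 : 0 ≤ β := le_trans (mul_nonneg (div_nonneg hε.le hη.le) (Nat.cast_nonneg N)) hβ1
  have hz0 : 0 < z := by
    have h1 : (0 : ℝ) < z := lt_of_le_of_lt
      (mul_nonneg (mul_nonneg (by norm_num) (Nat.cast_nonneg Δ)) hβ0) hz1
    exact_mod_cast h1
  have hqJ : ∀ C ∈ J, C ⊆ U ∧ C.card = N ∧ dense R C ε = ∅ := by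
    intro C hC
    obtain ⟨-, h1, h2⟩ := hq C hC
    have := h2 p
    rwa [h1 p le_rfl] at this
  have _ : Nonempty α := by
    obtain ⟨C, hC⟩ := hJ
    have h1 := hJz C hC
    have h2 : (C ∩ Xs).Nonempty := by
      rw [← card_pos]
      omega
    obtain ⟨x, -⟩ := h2
    exact ⟨x⟩
  have hD₀0 : 0 < D₀ := by
    have h1 := hD₀ ∅ (empty_subset _) (by
      intro f hf hc
      rw [subset_empty.1 hf] at hc
      simp at hc)
    simpa using h1
  -- assignment of the labels of the second cut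
  obtain ⟨X0, hX0⟩ : ∃ X0 : Finset V, X0 = univ.filter fun x => d x = 3 * p + 3 ∧ x ∉ I :=
    ⟨_, rfl⟩
  have mX0 : ∀ x, x ∈ X0 ↔ d x = 3 * p + 3 ∧ x ∉ I := by
    intro x
    rw [hX0, mem_filter]
    simp only [mem_univ, true_and]
  obtain ⟨l, hlJ, hlc⟩ := Assem_pack X0 c₂ J hJ (fun C => (C ∩ Xs).card - z) K₂ (by
    intro k
    refine le_trans (card_le_card ?_) (hc2K k)
    intro x hx
    obtain ⟨h1, h2⟩ := mem_filter.1 hx
    have h3 := ((mX0 x).1 h1).1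
    exact mem_filter.2 ⟨mem_univ _, by omega, h2⟩) (by
    have h1 : X0.card ≤ (univ.filter fun x => x ∉ I).card := by
      refine card_le_card fun x hx => mem_filter.2 ⟨mem_univ _, ((mX0 x).1 hx).2⟩
    have h2 : ∑ C ∈ J, (C ∩ Xs).card = ∑ C ∈ J, ((C ∩ Xs).card - z) + J.card * z := by
      rw [← smul_eq_mul, ← sum_const, ← sum_add_distrib]
      refine sum_congr rfl fun C hC => ?_
      have := hJz C hC
      omega
    omega)
  have hqp : ∀ k, q (l k) p = l k := fun k => (hq (l k) (hlJ k)).2.1 p le_rfl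
  -- the pieces
  obtain ⟨pc, hpc⟩ : ∃ pc : V → ℕ × ℕ, ∀ x, pc x = (c₁ x, c₂ x) := ⟨fun x => (c₁ x, c₂ x), fun _ => rfl⟩
  obtain ⟨X1, hX1⟩ : ∃ X1 : Finset V, X1 = univ.filter fun x => x ∉ S₁ ∧ d x = 3 * p + 3 :=
    ⟨_, rfl⟩
  have mX1 : ∀ x, x ∈ X1 ↔ x ∉ S₁ ∧ d x = 3 * p + 3 := by
    intro x
    rw [hX1, mem_filter]
    simp only [mem_univ, true_and]
  obtain ⟨P, hP⟩ : ∃ P : Finset (ℕ × ℕ), P = X1.image pc := ⟨_, rfl⟩
  have hPm : ∀ x ∈ X1, pc x ∈ P := fun x hx => hP ▸ mem_image_of_mem pc hx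
  obtain ⟨a, ha⟩ : ∃ a : ℕ × ℕ → ℕ, ∀ k, a k =
      ((X1.filter fun x => x ∉ I).filter fun x => pc x = k).card := ⟨_, fun _ => rfl⟩
  obtain ⟨j, hj⟩ : ∃ j : ℕ × ℕ → ℕ, ∀ k, j k =
      ((X1.filter fun x => x ∈ I).filter fun x => pc x = k).card := ⟨_, fun _ => rfl⟩
  have hsubt : ∀ (k : ℕ × ℕ) (X : Finset V), X ⊆ X1 → (X.filter fun x => pc x = k).card ≤ t := by
    intro k X hX
    refine le_trans (card_le_card ?_) (hc1t k.1)
    intro x hx
    obtain ⟨h1, h2⟩ := mem_filter.1 hx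
    refine mem_filter.2 ⟨mem_univ _, ((mX1 x).1 (hX h1)).1, ?_⟩
    rw [hpc] at h2
    rw [← h2]
  have hat : ∀ k ∈ P, a k ≤ t := fun k _ => by
    rw [ha]
    exact hsubt k _ (filter_subset _ _)
  have hjt : ∀ k ∈ P, j k ≤ t := fun k _ => by
    rw [hj]
    exact hsubt k _ (filter_subset _ _)
  obtain ⟨g, hg⟩ : ∃ g : ℕ, g = ⌈D₀ + 4 * 2 ^ r * t⌉₊ := ⟨_, rfl⟩
  have hg1 : D₀ + 4 * 2 ^ r * t ≤ g := hg ▸ Nat.le_ceil _
  have hg2 : (g : ℝ) < D₀ + 4 * 2 ^ r * t + 1 := by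
    rw [hg]
    exact Nat.ceil_lt_add_one (by positivity)
  have hasum : ∀ C, ∑ k ∈ P with l k.2 = C, a k =
      ((X1.filter fun x => x ∉ I).filter fun x => l (c₂ x) = C).card := by
    intro C
    have h1 := Assem_fib (X1.filter fun x => x ∉ I) pc P
      (fun x hx => hPm x (mem_filter.1 hx).1) (fun k => l k.2 = C)
    simp only [hpc] at h1
    rw [← h1]
    refine sum_congr rfl fun k _ => ?_
    rw [ha]
    simp only [hpc]
  have hload2 : ∀ C ∈ J, ((X1.filter fun x => x ∉ I).filter fun x => l (c₂ x) = C).card +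
      (S₁.filter fun x => d x = 3 * p + 3 ∧ l (c₂ x) = C).card + z ≤ (C ∩ Xs).card := by
    intro C hC
    have h1 := hlc C hC
    have h2 := hJz C hC
    have h3 : Disjoint ((X1.filter fun x => x ∉ I).filter fun x => l (c₂ x) = C)
        (S₁.filter fun x => d x = 3 * p + 3 ∧ l (c₂ x) = C) := by
      rw [disjoint_left]
      intro x hx hx'
      exact ((mX1 x).1 (mem_filter.1 (mem_filter.1 hx).1).1).1 (mem_filter.1 hx').1
    have h4 : ((X1.filter fun x => x ∉ I).filter fun x => l (c₂ x) = C) ∪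
        (S₁.filter fun x => d x = 3 * p + 3 ∧ l (c₂ x) = C) ⊆
        X0.filter fun x => l (c₂ x) = C := by
      intro x hx
      rcases mem_union.1 hx with hx | hx
      · obtain ⟨h5, h6⟩ := mem_filter.1 hx
        obtain ⟨h7, h8⟩ := mem_filter.1 h5
        exact mem_filter.2 ⟨(mX0 x).2 ⟨((mX1 x).1 h7).2, h8⟩, h6⟩
      · obtain ⟨h5, h6, h7⟩ := mem_filter.1 hx
        exact mem_filter.2 ⟨(mX0 x).2 ⟨h6, fun h8 => (hIS x h8).1 h5⟩, h7⟩
    have h5 := card_le_card h4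
    rw [card_union_of_disjoint h3] at h5
    omega
  obtain ⟨Y, Vs, hYV, hYVd⟩ := pieces_seq R Xs O ε η P (fun k => l k.2) a j t z g hat hjt (by
    intro k hk F hF hzF G hG hgG
    have hC := hqJ (l k.2) (hlJ k.2)
    have hzF' : (z : ℝ) ≤ F.card := by exact_mod_cast hzF
    have hgG' : (g : ℝ) ≤ G.card := by exact_mod_cast hgG
    refine hr R U hBF (l k.2) hC.1 ε η hε hη hC.2.2 F (hF.trans inter_subset_left) ?_ D₀ hD₀ G
      (hG.trans hOU) (hg1.trans hgG')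
    rw [hC.2.1]
    exact lt_of_lt_of_le hz2 hzF') (by
    intro k hk
    have h1 := hasum (l k.2)
    have h2 := hload2 (l k.2) (hlJ k.2)
    change ∑ k' ∈ P with l k'.2 = l k.2, a k' + z ≤ (l k.2 ∩ Xs).card
    rw [h1]
    omega) (fun k _ k' _ hne => hJd _ (hlJ _) _ (hlJ _) hne) (by
    have h1 := Assem_fib (X1.filter fun x => x ∈ I) pc P
      (fun x hx => hPm x (mem_filter.1 hx).1) (fun _ => True)
    rw [filter_true_of_mem (fun _ _ => trivial), filter_true_of_mem (fun _ _ => trivial)] at h1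
    have h2 : ∑ k ∈ P, j k = (X1.filter fun x => x ∈ I).card := by
      rw [← h1]
      exact sum_congr rfl fun k _ => hj k
    have h3 : (X1.filter fun x => x ∈ I).card ≤ I.card :=
      card_le_card fun x hx => (mem_filter.1 hx).2
    have h4 : ((X1.filter fun x => x ∈ I).card : ℝ) ≤ I.card := by exact_mod_cast h3
    have h5 : ((∑ k ∈ P, j k + g : ℕ) : ℝ) ≤ O.card := by
      rw [h2]
      push_cast
      linarith only [h4, hg2, hO]
    exact_mod_cast h5)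
  -- the embedding of the vertices of the pieces
  obtain ⟨S, hS⟩ : ∃ S : Finset V, S = univ.filter fun x => x ∈ S₁ ∨ d x < 3 * p + 3 := ⟨_, rfl⟩
  have mS : ∀ x, x ∈ S ↔ (x ∈ S₁ ∨ d x < 3 * p + 3) := by
    intro x
    rw [hS, mem_filter]
    simp only [mem_univ, true_and]
  have mS' : ∀ x, x ∉ S ↔ x ∈ X1 := by
    intro x
    rw [mS, mX1]
    have := hdD x
    constructor
    · intro h
      push Not at h
      exact ⟨h.1, by omega⟩
    · rintro ⟨h1, h2⟩ (h | h)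
      · exact h1 h
      · omega
  have hPS : ∀ x ∉ S, pc x ∈ P := fun x hx => hPm x ((mS' x).1 hx)
  obtain ⟨φ₀, hφi, hφY, hφV, hφR⟩ := phi_pieces E hH.three S I pc (by
    intro f hf x hx y hy hxS hyS
    have h1 := (mX1 x).1 ((mS' x).1 hxS)
    have h2 := (mX1 y).1 ((mS' y).1 hyS)
    rw [hpc, hpc, hc1 f hf x hx y hy h1.1 h2.1,
      hc2 f hf x hx y hy (by omega) (by omega)]) hI R Y Vs (by
    intro x hx
    have h1 := hYV (pc x) (hPS x hx)
    refine ⟨h1.2.1.red, ?_⟩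
    rw [h1.2.2.1, ha]
    congr 1
    ext y
    simp only [mem_filter, mem_univ, true_and, mS', and_assoc]) (by
    intro x hx
    have h1 := hYV (pc x) (hPS x hx)
    refine ⟨?_, h1.2.2.2.2.2⟩
    rw [h1.2.2.2.2.1, hj]
    congr 1
    ext y
    simp only [mem_filter, mem_univ, true_and, mS', and_assoc])
    (fun x hx y hy hne => hYVd _ (hPS x hx) _ (hPS y hy) hne) (by
    intro x hx y hy
    have h1 := (hYV (pc x) (hPS x hx)).1
    have h2 := (hYV (pc y) (hPS y hy)).2.2.2.1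
    exact disjoint_of_subset_left (h1.trans inter_subset_right)
      (disjoint_of_subset_right h2 hOX.symm))
  -- an edge which meets `S` does not meet `I`
  have hSI : ∀ f ∈ E, (∃ x ∈ f, x ∈ S₁ ∨ d x < 3 * p + 3) → ∀ y ∈ f, y ∉ I := by
    rintro f hf ⟨x, hx, h1⟩ y hy hyI
    have h2 := (hIS y hyI).2.2 f hf hy x hx
    rcases h1 with h1 | h1
    · exact h2.1 h1
    · omega
  obtain ⟨Fr, hFr⟩ : ∃ Fr : Finset α → Finset α, ∀ C, Fr C = (C ∩ Xs) \ P.biUnion Y :=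
    ⟨_, fun _ => rfl⟩
  have hFrX : ∀ C, Fr C ⊆ C ∩ Xs := fun C => by
    rw [hFr]
    exact sdiff_subset
  have hFrc : ∀ C ∈ J, (S₁.filter fun x => d x = 3 * p + 3 ∧ l (c₂ x) = C).card + z ≤
      (Fr C).card := by
    intro C hC
    have h1 := hload2 C hC
    have h2 : (C ∩ Xs) ⊆ Fr C ∪ (P.filter fun k => l k.2 = C).biUnion Y := by
      intro x hx
      by_cases hxY : x ∈ P.biUnion Y
      · obtain ⟨k, hk, hxk⟩ := mem_biUnion.1 hxY
        refine mem_union_right _ (mem_biUnion.2 ⟨k, mem_filter.2 ⟨hk, ?_⟩, hxk⟩)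
        by_contra hne
        have h3 := hJd _ (hlJ k.2) _ hC hne
        exact disjoint_left.1 h3 (mem_inter.1 ((hYV k hk).1 hxk)).1 (mem_inter.1 hx).1
      · refine mem_union_left _ ?_
        rw [hFr]
        exact mem_sdiff.2 ⟨hx, hxY⟩
    have h3 := card_le_card h2
    have h4 := card_union_le (Fr C) ((P.filter fun k => l k.2 = C).biUnion Y)
    have h5 : ((P.filter fun k => l k.2 = C).biUnion Y).card ≤
        ((X1.filter fun x => x ∉ I).filter fun x => l (c₂ x) = C).card := by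
      rw [← hasum]
      refine card_biUnion_le.trans (sum_le_sum fun k hk => ?_)
      exact (hYV k (mem_filter.1 hk).1).2.2.1.le
    omega
  have hyY : ∀ y, y ∉ S₁ → d y = 3 * p + 3 → y ∉ I → φ₀ y ∈ Y (pc y) ∧ pc y ∈ P := by
    intro y h1 h2 h3
    have h4 : y ∉ S := (mS' y).2 ((mX1 y).2 ⟨h1, h2⟩)
    exact ⟨hφY y h4 h3, hPS y h4⟩
  have hyV : ∀ y, y ∉ S₁ → d y = 3 * p + 3 → y ∈ I → φ₀ y ∈ O := by
    intro y h1 h2 h3
    have h4 : y ∉ S := (mS' y).2 ((mX1 y).2 ⟨h1, h2⟩)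
    exact (hYV _ (hPS y h4)).2.2.2.1 (hφV y h4 h3)
  have hlpc : ∀ y, (pc y).2 = c₂ y := fun y => by rw [hpc]
  obtain ⟨φ, hφinj, hφeq, hφU, hφE⟩ := join_hf E Δ hH R U p d c₂ S₁ hdD hd hc2
    (fun k i => q (l k) i) C₀ (fun k => (hq (l k) (hlJ k)).1)
    (fun k i hi => by
      have h1 := (hq (l k) (hlJ k)).2.1
      change q (l k) i = q (l k) p
      rw [h1 i hi, h1 p le_rfl]) N ε η hε hη (fun k i => (hq (l k) (hlJ k)).2.2 i)
    (fun k k' hne => by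
      have e1 := hqp k
      have e2 := hqp k'
      change q (l k) p ≠ q (l k') p at hne
      change Disjoint (q (l k) p) (q (l k') p)
      rw [e1, e2] at hne ⊢
      exact hJd _ (hlJ k) _ (hlJ k') hne)
    LA LA' εl ηl m hεl hηl hmN (fun k i hne => hL (l k) (hlJ k) i hne) Z ζ hζ
    (fun k i => hZ1 (l k) (hlJ k) i) (fun k i hne => hZ2 (l k) (hlJ k) i hne) β βl hβ0 hβ1 hβ2
    hβl hβl2 hβl3 hnum Fr
    (fun k => (hFrX _).trans inter_subset_left)
    (fun k => disjoint_of_subset_left ((hFrX _).trans inter_subset_right) hXZ)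
    (fun k => by
      simp only [hqp]
      have h1 := hFrc (l k) (hlJ k)
      have h2 : ((S₁.filter fun x => d x = 3 * p + 3 ∧ l (c₂ x) = l k).card : ℝ) + z ≤
          ((Fr (l k)).card : ℝ) := by exact_mod_cast h1
      linarith only [h2, hz1]) φ₀
    (by
      intro x hx y hy hxy
      exact hφi ((mS' x).2 ((mX1 x).2 hx)) ((mS' y).2 ((mX1 y).2 hy)) hxy)
    (by
      intro f hf hex y hy h1 h2
      have h3 := hSI f hf hex y hy
      obtain ⟨h4, h5⟩ := hyY y h1 h2 h3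
      have h6 := (hYV _ h5).1 h4
      rw [mem_inter, hlpc] at h6
      change φ₀ y ∈ q (l (c₂ y)) p
      rw [hqp]
      exact h6.1)
    (by
      intro f hf hex y hy h1 h2 y' hy' h1' h2' hne
      obtain ⟨h4, h5⟩ := hyY y h1 h2 (hSI f hf hex y hy)
      obtain ⟨h4', h5'⟩ := hyY y' h1' h2' (hSI f hf hex y' hy')
      have h6 : pc y' = pc y := by
        rw [hpc, hpc, hc1 f hf y' hy' y hy h1' h1, hc2 f hf y' hy' y hy (by omega) (by omega)]
      rw [h6] at h4'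
      have h7 := (hYV _ h5).2.1.cod _ h4 _ h4' (fun h8 => hne (hφi
        ((mS' y).2 ((mX1 y).2 ⟨h1, h2⟩)) ((mS' y').2 ((mX1 y').2 ⟨h1', h2'⟩)) h8))
      simp only [hlpc] at h7
      rw [(hqJ _ (hlJ (c₂ y))).2.1] at h7
      change ((cod R (q (l (c₂ y)) p) (φ₀ y) (φ₀ y')).card : ℝ) < η * (N : ℝ)
      rw [hqp]
      exact h7)
    (by
      intro y h1 h2
      by_cases h3 : y ∈ I
      · have h4 := hyV y h1 h2 h3
        refine ⟨disjoint_left.1 hOZ h4, fun k h5 => ?_⟩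
        exact disjoint_left.1 hOX h4 (mem_inter.1 (hFrX _ h5)).2
      · obtain ⟨h4, h5⟩ := hyY y h1 h2 h3
        refine ⟨disjoint_left.1 hXZ (mem_inter.1 ((hYV _ h5).1 h4)).2, fun k h6 => ?_⟩
        rw [hFr] at h6
        exact (mem_sdiff.1 h6).2 (mem_biUnion.2 ⟨_, h5, h4⟩))
  refine ⟨φ, hφinj.injOn, fun x _ => ?_, fun f hf => ?_⟩
  · by_cases hx : x ∈ S
    · exact hφU x ((mS x).1 hx)
    · obtain ⟨h1, h2⟩ := (mX1 x).1 ((mS' x).1 hx)
      rw [hφeq x h1 h2]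
      by_cases h3 : x ∈ I
      · exact hOU (hyV x h1 h2 h3)
      · obtain ⟨h4, h5⟩ := hyY x h1 h2 h3
        exact (hqJ _ (hlJ _)).1 (mem_inter.1 ((hYV _ h5).1 h4)).1
  · by_cases hex : ∃ x ∈ f, x ∈ S₁ ∨ d x < 3 * p + 3
    · exact hφE f hf hex
    · push Not at hex
      have h1 : f.image φ = f.image φ₀ := by
        refine image_congr fun x hx => ?_
        obtain ⟨h2, h3⟩ := hex x hx
        exact hφeq x h2 (by have := hdD x; omega)
      rw [h1]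
      refine hφR f hf ?_
      rw [disjoint_left]
      intro x hx hxS
      obtain ⟨h2, h3⟩ := hex x hx
      rcases (mS x).1 hxS with h4 | h4
      · exact h2 h4
      · omega

end Pool.MP7783b9
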