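import Pool.Agent.H.MP_7783b9_co.R.Box

/-!
# Sparse subsets of a given size; few vertices of large degree
-/

set_option autoImplicit false

open Finset

namespace Pool.MP7783b9

variable {α : Type} [DecidableEq α]

/-- the degrees sum up to the number of blue triples -/
theorem e3_eq_sum (R : Finset α → Prop) (X W : Finset α) :
    e3 R X W W = ∑ x ∈ X, (bpairs R W x).card := by
  classical
  unfold e3 bpairs
  rw [Finset.card_filter, Finset.sum_product]
  refine Finset.sum_congr rfl fun x _ => ?_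
  rw [Finset.card_filter]

theorem bpairs_mono (R : Finset α → Prop) {W W' : Finset α} (h : W' ⊆ W) (x : α) :
    (bpairs R W' x).card ≤ (bpairs R W x).card := by
  refine Finset.card_le_card ?_
  rintro ⟨p, q⟩ hp
  rw [mem_bpairs] at hp ⊢
  exact ⟨h hp.1, h hp.2.1, hp.2.2⟩

private theorem SubSp_erase (R : Finset α → Prop) (x : α) (Y Z : Finset α) :
    e3 R {x} Y (Z.erase x) = e3 R {x} Y Z := by
  classical
  unfold e3
  congr 1
  ext ⟨a, b, c⟩
  simp only [Finset.mem_filter, Finset.mem_product, Finset.mem_singleton, Finset.mem_erase]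
  constructor
  · rintro ⟨⟨ha, hb, -, hc⟩, h⟩
    exact ⟨⟨ha, hb, hc⟩, h⟩
  · rintro ⟨⟨ha, hb, hc⟩, h⟩
    refine ⟨⟨ha, hb, ?_, hc⟩, h⟩
    rw [← ha]
    exact h.2.1.symm

private theorem SubSp_del (R : Finset α → Prop) (A : Finset α) {x : α} (hx : x ∈ A) :
    e3 R A A A = e3 R (A.erase x) (A.erase x) (A.erase x) + 3 * (bpairs R A x).card := by
  have hsub : ({x} : Finset α) ⊆ A := Finset.singleton_subset_iff.2 hx
  have hsd : A \ {x} = A.erase x := Finset.sdiff_singleton_eq_erase x A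
  have hd : e3 R {x} A A = (bpairs R A x).card := by
    rw [e3_eq_sum, Finset.sum_singleton]
  have h1 : e3 R A A A = e3 R {x} A A + e3 R (A.erase x) A A := by
    rw [e3_split R A A A {x} hsub, hsd]
  have h2 : e3 R (A.erase x) A A = e3 R {x} A A + e3 R (A.erase x) A (A.erase x) := by
    rw [e3_rot R (A.erase x) A A, e3_split R A A (A.erase x) {x} hsub, hsd, SubSp_erase]
  have h3 : e3 R (A.erase x) A (A.erase x) =
      e3 R {x} A A + e3 R (A.erase x) (A.erase x) (A.erase x) := by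
    rw [e3_rot R (A.erase x) A (A.erase x), e3_split R A (A.erase x) (A.erase x) {x} hsub, hsd,
      SubSp_erase, e3_swap R {x} (A.erase x) A, SubSp_erase]
  rw [h1, h2, h3, hd]
  omega

private theorem SubSp_small (R : Finset α → Prop) (A : Finset α) (h : A.card ≤ 2) :
    e3 R A A A = 0 := by
  classical
  unfold e3
  rw [Finset.card_eq_zero, Finset.filter_eq_empty_iff]
  rintro ⟨a, b, c⟩ hp hb
  rw [Finset.mem_product, Finset.mem_product] at hp
  have : 2 < A.card :=
    Finset.two_lt_card.2 ⟨a, hp.1, b, hp.2.1, c, hp.2.2, hb.1, hb.2.1, hb.2.2.1⟩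
  omega

/-- deleting vertices of largest degree does not increase the density -/
theorem sub_sparse (R : Finset α → Prop) (A : Finset α) (m : ℕ) (hm : m ≤ A.card) :
    ∃ A' ⊆ A, A'.card = m ∧
      e3 R A' A' A' * (A.card * (A.card - 1) * (A.card - 2)) ≤
        e3 R A A A * (m * (m - 1) * (m - 2)) := by
  obtain ⟨k, hk⟩ : ∃ k, A.card = m + k := ⟨A.card - m, by omega⟩
  clear hm
  induction k generalizing A with
  | zero =>
    rw [Nat.add_zero] at hk
    exact ⟨A, Finset.Subset.refl A, hk, by rw [hk]⟩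
  | succ k ih =>
    have hne : A.Nonempty := Finset.card_pos.1 (by omega)
    obtain ⟨x, hx, hmax⟩ := Finset.exists_max_image A (fun y => (bpairs R A y).card) hne
    have hc : (A.erase x).card = m + k := by
      rw [Finset.card_erase_of_mem hx, hk]
      rfl
    obtain ⟨A', hA', hcard, hle⟩ := ih (A.erase x) hc
    refine ⟨A', hA'.trans (Finset.erase_subset _ _), hcard, ?_⟩
    by_cases h3 : A.card ≤ 3
    · rw [SubSp_small R A' (by omega), Nat.zero_mul]
      exact Nat.zero_le _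
    · have hsum : e3 R A A A ≤ A.card * (bpairs R A x).card := by
        rw [e3_eq_sum, ← smul_eq_mul, ← Finset.sum_const]
        exact Finset.sum_le_sum fun y hy => hmax y hy
      have hdel := SubSp_del R A hx
      obtain ⟨c, hc3⟩ : ∃ c, A.card = c + 4 := ⟨A.card - 4, by omega⟩
      have hc1 : (A.erase x).card = c + 3 := by omega
      rw [hc1] at hle
      rw [hc3] at hsum ⊢
      have e1 : c + 4 - 1 = c + 3 := by omega
      have e2 : c + 4 - 2 = c + 2 := by omega
      have e3' : c + 3 - 1 = c + 2 := by omega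
      have e4 : c + 3 - 2 = c + 1 := by omega
      rw [e3', e4] at hle
      rw [e1, e2]
      generalize e3 R A A A = E at *
      generalize e3 R (A.erase x) (A.erase x) (A.erase x) = E1 at *
      generalize e3 R A' A' A' = E' at *
      generalize (bpairs R A x).card = d at *
      generalize m * (m - 1) * (m - 2) = M at *
      have h5 : (c + 4) * E1 ≤ (c + 1) * E := by
        have h6 : (c + 4) * E1 + 3 * ((c + 4) * d) = (c + 4) * E := by rw [hdel]; ring
        have h7 : (c + 4) * E = (c + 1) * E + 3 * E := by ring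
        omega
      refine Nat.le_of_mul_le_mul_right ?_ (Nat.succ_pos c)
      calc E' * ((c + 4) * (c + 3) * (c + 2)) * (c + 1)
          = (c + 4) * (E' * ((c + 3) * (c + 2) * (c + 1))) := by ring
        _ ≤ (c + 4) * (E1 * M) := Nat.mul_le_mul_left _ hle
        _ = (c + 4) * E1 * M := by ring
        _ ≤ (c + 1) * E * M := Nat.mul_le_mul_right _ h5
        _ = E * M * (c + 1) := by ring

/-- a simpler form for real densities: the density at most doubles -/
theorem sub_sparse_real (R : Finset α → Prop) (A : Finset α) (m : ℕ) (hm : m ≤ A.card)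
    (h6 : 6 ≤ A.card) (ε : ℝ) (h : (e3 R A A A : ℝ) ≤ ε * (A.card : ℝ) ^ 3) :
    ∃ A' ⊆ A, A'.card = m ∧ (e3 R A' A' A' : ℝ) ≤ 2 * ε * (m : ℝ) ^ 3 := by
  obtain ⟨A', hA', hcard, hle⟩ := sub_sparse R A m hm
  refine ⟨A', hA', hcard, ?_⟩
  obtain ⟨c, hc⟩ : ∃ c, A.card = c + 6 := ⟨A.card - 6, by omega⟩
  rw [hc] at hle h
  have e1 : c + 6 - 1 = c + 5 := by omega
  have e2 : c + 6 - 2 = c + 4 := by omega
  rw [e1, e2] at hle
  have hM : m * (m - 1) * (m - 2) ≤ m ^ 3 := by
    calc m * (m - 1) * (m - 2) ≤ m * m * m :=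
          Nat.mul_le_mul (Nat.mul_le_mul_left _ (Nat.sub_le _ _)) (Nat.sub_le _ _)
      _ = m ^ 3 := by ring
  have hle2 : e3 R A' A' A' * ((c + 6) * (c + 5) * (c + 4)) ≤ e3 R A A A * m ^ 3 :=
    hle.trans (Nat.mul_le_mul_left _ hM)
  generalize e3 R A A A = E at *
  generalize e3 R A' A' A' = E' at *
  have hle3 : (E' : ℝ) * (((c : ℝ) + 6) * ((c : ℝ) + 5) * ((c : ℝ) + 4)) ≤
      (E : ℝ) * (m : ℝ) ^ 3 := by
    exact_mod_cast hle2
  push_cast at h
  have hc0 : (0 : ℝ) ≤ (c : ℝ) := Nat.cast_nonneg c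
  have hE' : (0 : ℝ) ≤ (E' : ℝ) := Nat.cast_nonneg E'
  have hm3 : (0 : ℝ) ≤ (m : ℝ) ^ 3 := pow_nonneg (Nat.cast_nonneg m) 3
  have hpos : (0 : ℝ) < ((c : ℝ) + 6) ^ 3 := pow_pos (by linarith only [hc0]) 3
  have h1 : (E : ℝ) * (m : ℝ) ^ 3 ≤ ε * ((c : ℝ) + 6) ^ 3 * (m : ℝ) ^ 3 :=
    mul_le_mul_of_nonneg_right h hm3
  have h2 : ((c : ℝ) + 6) ^ 3 ≤ 2 * (((c : ℝ) + 6) * ((c : ℝ) + 5) * ((c : ℝ) + 4)) := by
    nlinarith only [hc0, mul_nonneg hc0 hc0, mul_nonneg (mul_nonneg hc0 hc0) hc0]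
  have h3 : (E' : ℝ) * ((c : ℝ) + 6) ^ 3 ≤
      (E' : ℝ) * (2 * (((c : ℝ) + 6) * ((c : ℝ) + 5) * ((c : ℝ) + 4))) :=
    mul_le_mul_of_nonneg_left h2 hE'
  refine le_of_mul_le_mul_right ?_ hpos
  linarith only [h1, h3, hle3]

/-- few vertices have large degree -/
theorem dense_card (R : Finset α → Prop) (W : Finset α) (θ τ : ℝ) (hτ : 0 < τ)
    (h : (e3 R W W W : ℝ) ≤ θ * (W.card : ℝ) ^ 3) :
    τ * ((dense R W τ).card : ℝ) ≤ θ * (W.card : ℝ) := by
  have hsub : dense R W τ ⊆ W := fun x hx => (mem_dense.1 hx).1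
  rcases Nat.eq_zero_or_pos W.card with h0 | h0
  · have h1 : (dense R W τ).card = 0 :=
      Nat.le_zero.1 (h0 ▸ Finset.card_le_card hsub)
    rw [h1, h0]
    simp
  · have hW : (0 : ℝ) < (W.card : ℝ) := Nat.cast_pos.2 h0
    have h1 : ((dense R W τ).card : ℝ) * (τ * (W.card : ℝ) ^ 2) ≤ (e3 R W W W : ℝ) := by
      rw [e3_eq_sum, Nat.cast_sum, ← nsmul_eq_mul, ← Finset.sum_const]
      calc ∑ x ∈ dense R W τ, τ * (W.card : ℝ) ^ 2
          ≤ ∑ x ∈ dense R W τ, ((bpairs R W x).card : ℝ) :=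
            Finset.sum_le_sum fun x hx => (mem_dense.1 hx).2
        _ ≤ ∑ x ∈ W, ((bpairs R W x).card : ℝ) :=
            Finset.sum_le_sum_of_subset_of_nonneg hsub fun x _ _ => Nat.cast_nonneg _
    have h2 : (0 : ℝ) < (W.card : ℝ) ^ 2 := pow_pos hW 2
    refine le_of_mul_le_mul_right ?_ h2
    have e1 : τ * ((dense R W τ).card : ℝ) * (W.card : ℝ) ^ 2 =
        ((dense R W τ).card : ℝ) * (τ * (W.card : ℝ) ^ 2) := by ring
    have e2 : θ * (W.card : ℝ) * (W.card : ℝ) ^ 2 = θ * (W.card : ℝ) ^ 3 := by ring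
    rw [e1, e2]
    exact h1.trans h

end Pool.MP7783b9
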