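import Pool.Agent.H.MP_7783b9_co.R.SparseSet
import Pool.Agent.H.MP_7783b9_co.W.SubSp

/-!
# Almost everything is covered by disjoint sparse sets of the same linear size
-/

set_option autoImplicit false

open Finset

namespace Pool.MP7783b9

private theorem ClusEq_fano_mono {α : Type} [DecidableEq α] {R : Finset α → Prop} {A B : Finset α}
    (h : A ⊆ B) (hA : BlueFano R A) : BlueFano R B := by
  obtain ⟨ψ, h1, h2, h3⟩ := hA
  exact ⟨ψ, h1, fun i => h (h2 i), h3⟩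

/-- a sparse set of `N` vertices in a large set without blue Fano plane -/
private theorem ClusEq_one {α : Type} [DecidableEq α] (R : Finset α → Prop) (A : Finset α)
    (ε : ℝ) (hε : 0 < ε) (N : ℕ) (hN3 : 3 ≤ N) (hNA : 2 * N ≤ A.card)
    (hA : (e3 R A A A : ℝ) ≤ ε / 16 * (A.card : ℝ) ^ 3) :
    ∃ C ⊆ A, C.card = N ∧ dense R C ε = ∅ := by
  obtain ⟨A2, hA2, hc, he⟩ := sub_sparse_real R A (2 * N) hNA (by omega) (ε / 16) hA
  have hNR : (0 : ℝ) < N := by
    have : 0 < N := by omega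
    exact_mod_cast this
  have he' : (e3 R A2 A2 A2 : ℝ) ≤ ε / 8 * (A2.card : ℝ) ^ 3 := by
    rw [hc]
    refine he.trans (le_of_eq ?_)
    ring
  have hd := dense_card R A2 (ε / 8) (ε / 4) (by linarith) he'
  rw [hc] at hd
  push_cast at hd
  have hdN : (dense R A2 (ε / 4)).card ≤ N := by
    have h1 : ε / 4 * ((dense R A2 (ε / 4)).card : ℝ) ≤ ε / 4 * (N : ℝ) := by
      refine hd.trans (le_of_eq ?_)
      ring
    have h2 := le_of_mul_le_mul_left h1 (by linarith)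
    exact_mod_cast h2
  have hsd : N ≤ (A2 \ dense R A2 (ε / 4)).card := by
    have h1 : A2.card ≤ (A2 \ dense R A2 (ε / 4)).card + (dense R A2 (ε / 4)).card := by
      have := Finset.card_le_card_sdiff_add_card (s := A2) (t := dense R A2 (ε / 4))
      omega
    omega
  obtain ⟨C, hC, hCN⟩ := Finset.exists_subset_card_eq hsd
  have hCA2 : C ⊆ A2 := hC.trans Finset.sdiff_subset
  refine ⟨C, hCA2.trans hA2, hCN, ?_⟩
  rw [Finset.eq_empty_iff_forall_notMem]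
  intro x hx
  rw [mem_dense] at hx
  obtain ⟨hxC, hx2⟩ := hx
  have hx3 : x ∉ dense R A2 (ε / 4) := (Finset.mem_sdiff.1 (hC hxC)).2
  rw [mem_dense] at hx3
  push Not at hx3
  have hx4 := hx3 (hCA2 hxC)
  have hx5 : ((bpairs R C x).card : ℝ) ≤ ((bpairs R A2 x).card : ℝ) := by
    exact_mod_cast bpairs_mono R hCA2 x
  rw [hc] at hx4
  rw [hCN] at hx2
  push_cast at hx4
  have e : ε / 4 * (2 * (N : ℝ)) ^ 2 = ε * (N : ℝ) ^ 2 := by ring
  rw [e] at hx4
  linarith only [hx2, hx4, hx5]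

theorem clusters_eq (ε lam : ℝ) (hε : 0 < ε) (hlam : 0 < lam) (hlam1 : lam ≤ 1) :
    ∃ σ : ℝ, 0 < σ ∧ σ ≤ 1 ∧ ∃ n₀ : ℕ, ∀ {α : Type} [DecidableEq α] (R : Finset α → Prop)
      (U : Finset α), n₀ ≤ U.card → ¬ BlueFano R U →
      ∃ N : ℕ, σ * (U.card : ℝ) ≤ (N : ℝ) ∧ ∃ 𝒞 : Finset (Finset α),
        (∀ C ∈ 𝒞, C ⊆ U ∧ C.card = N ∧ dense R C ε = ∅) ∧
        (∀ C ∈ 𝒞, ∀ C' ∈ 𝒞, C ≠ C' → Disjoint C C') ∧
        ((U \ 𝒞.biUnion id).card : ℝ) ≤ lam * (U.card : ℝ) := by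
  classical
  obtain ⟨γ, hγ, m₀, hsp⟩ := sparse_set (ε / 16) (by linarith)
  obtain ⟨g, hg⟩ : ∃ g : ℝ, g = min γ 1 := ⟨_, rfl⟩
  have hg0 : 0 < g := by rw [hg]; exact lt_min hγ one_pos
  have hg1 : g ≤ 1 := by rw [hg]; exact min_le_right _ _
  have hgγ : g ≤ γ := by rw [hg]; exact min_le_left _ _
  have hgl : 0 < g * lam := mul_pos hg0 hlam
  have hgl1 : g * lam ≤ 1 := mul_le_one₀ hg1 hlam.le hlam1
  obtain ⟨n₁, hn₁⟩ := exists_nat_ge (6 / (g * lam))
  obtain ⟨n₂, hn₂⟩ := exists_nat_ge ((m₀ : ℝ) / lam)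
  refine ⟨g * lam / 4, by linarith, by linarith, max n₁ n₂, ?_⟩
  intro α _ R U hU hno
  have hU1 : (n₁ : ℝ) ≤ U.card := by exact_mod_cast (le_max_left _ _).trans hU
  have hU2 : (n₂ : ℝ) ≤ U.card := by exact_mod_cast (le_max_right _ _).trans hU
  have h6 : 6 ≤ g * lam * (U.card : ℝ) := by
    have h1 := hn₁.trans hU1
    rw [div_le_iff₀ hgl] at h1
    linarith only [h1]
  have hm : (m₀ : ℝ) ≤ lam * (U.card : ℝ) := by
    have h1 := hn₂.trans hU2
    rw [div_le_iff₀ hlam] at h1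
    linarith only [h1]
  obtain ⟨N, hN⟩ : ∃ N : ℕ, N = ⌊g * lam * (U.card : ℝ) / 2⌋₊ := ⟨_, rfl⟩
  have hx0 : 0 ≤ g * lam * (U.card : ℝ) / 2 := by linarith only [h6]
  have hNle : (N : ℝ) ≤ g * lam * (U.card : ℝ) / 2 := by
    rw [hN]
    exact Nat.floor_le hx0
  have hNge : g * lam * (U.card : ℝ) / 2 < (N : ℝ) + 1 := by
    rw [hN]
    exact Nat.lt_floor_add_one _
  have hN3 : 3 ≤ N := by
    rw [hN]
    apply Nat.le_floor
    push_cast
    linarith only [h6]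
  refine ⟨N, ?_, ?_⟩
  · linarith only [hNge, h6]
  obtain ⟨P, hP⟩ : ∃ P : Finset (Finset α) → Prop, ∀ 𝒞, P 𝒞 ↔
      ((∀ C ∈ 𝒞, C ⊆ U ∧ C.card = N ∧ dense R C ε = ∅) ∧
        (∀ C ∈ 𝒞, ∀ C' ∈ 𝒞, C ≠ C' → Disjoint C C')) := ⟨_, fun _ => Iff.rfl⟩
  obtain ⟨𝒞, h𝒞, hmax⟩ := Finset.exists_max_image (U.powerset.powerset.filter P) Finset.card
    ⟨∅, by
      rw [Finset.mem_filter]
      refine ⟨by simp, ?_⟩
      rw [hP]
      exact ⟨fun C hC => absurd hC (Finset.notMem_empty C),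
        fun C hC => absurd hC (Finset.notMem_empty C)⟩⟩
  rw [Finset.mem_filter, hP] at h𝒞
  obtain ⟨hpow, hC1, hC2⟩ := h𝒞
  refine ⟨𝒞, hC1, hC2, ?_⟩
  by_contra hcon
  push Not at hcon
  obtain ⟨L, hL⟩ : ∃ L : Finset α, L = U \ 𝒞.biUnion id := ⟨_, rfl⟩
  rw [← hL] at hcon
  have hLU : L ⊆ U := by rw [hL]; exact Finset.sdiff_subset
  have hLm : m₀ ≤ L.card := by
    have h1 : (m₀ : ℝ) ≤ L.card := by linarith only [hm, hcon]
    exact_mod_cast h1
  obtain ⟨A, hAL, hA1, hA2⟩ := hsp R L hLm (fun h => hno (ClusEq_fano_mono hLU h))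
  have hNA : 2 * N ≤ A.card := by
    have h1 : (2 : ℝ) * N ≤ A.card := by
      have e1 : g * (lam * (U.card : ℝ)) ≤ g * (L.card : ℝ) :=
        mul_le_mul_of_nonneg_left hcon.le hg0.le
      have e2 : g * (L.card : ℝ) ≤ γ * (L.card : ℝ) :=
        mul_le_mul_of_nonneg_right hgγ (Nat.cast_nonneg _)
      have e3' : g * (lam * (U.card : ℝ)) = g * lam * (U.card : ℝ) := by ring
      linarith only [hNle, e1, e2, e3', hA1]
    exact_mod_cast h1
  obtain ⟨C, hCA, hCN, hCd⟩ := ClusEq_one R A ε hε N hN3 hNA hA2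
  have hCL : C ⊆ L := hCA.trans hAL
  have hdis : ∀ D ∈ 𝒞, Disjoint C D := by
    intro D hD
    rw [Finset.disjoint_left]
    intro x hxC hxD
    have h1 := hCL hxC
    rw [hL, Finset.mem_sdiff] at h1
    exact h1.2 (Finset.mem_biUnion.2 ⟨D, hD, hxD⟩)
  have hCne : C.Nonempty := by
    rw [← Finset.card_pos, hCN]
    omega
  have hCnot : C ∉ 𝒞 := by
    intro hC
    have h1 := hdis C hC
    rw [disjoint_self] at h1
    rw [Finset.bot_eq_empty] at h1
    exact hCne.ne_empty h1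
  have hnew : insert C 𝒞 ∈ U.powerset.powerset.filter P := by
    rw [Finset.mem_filter, hP]
    refine ⟨?_, ?_, ?_⟩
    · rw [Finset.mem_powerset] at hpow ⊢
      exact Finset.insert_subset (Finset.mem_powerset.2 (hCL.trans hLU)) hpow
    · intro D hD
      rcases Finset.mem_insert.1 hD with rfl | hD
      · exact ⟨hCL.trans hLU, hCN, hCd⟩
      · exact hC1 D hD
    · intro D hD D' hD' hne
      rcases Finset.mem_insert.1 hD with h1 | h1
      · rcases Finset.mem_insert.1 hD' with h2 | h2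
        · exact absurd (h1.trans h2.symm) hne
        · rw [h1]
          exact hdis D' h2
      · rcases Finset.mem_insert.1 hD' with h2 | h2
        · rw [h2]
          exact (hdis D h1).symm
        · exact hC2 D h1 D' h2 hne
  have h1 := hmax _ hnew
  rw [Finset.card_insert_of_notMem hCnot] at h1
  omega

end Pool.MP7783b9
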