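import Mathlib

/-!
# Graphs without four independent vertices; paths as functions
-/

set_option autoImplicit false

open Finset

namespace Pool.MP7783b9

/-- if among any four vertices two are adjacent, some component has a third of the weight -/
theorem comp_third {V : Type*} [Fintype V] [DecidableEq V] [Nonempty V] (G : SimpleGraph V)
    (h : ∀ f : Fin 4 → V, Function.Injective f → ∃ i j, G.Adj (f i) (f j)) (wt : V → ℝ)
    (hw : ∀ v, 0 ≤ wt v) :
    ∃ (v₀ : V) (K : Finset V), (∀ v ∈ K, G.Reachable v₀ v) ∧ ∑ v, wt v ≤ 3 * ∑ v ∈ K, wt v := by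
  classical
  have : Fintype G.ConnectedComponent := Fintype.ofFinite _
  have hrep : ∀ c : G.ConnectedComponent, ∃ v, G.connectedComponentMk v = c := fun c =>
    c.exists_rep
  choose rep hrep using hrep
  have hcard : Fintype.card G.ConnectedComponent ≤ 3 := by
    by_contra hcon
    have h4 : Fintype.card (Fin 4) ≤ Fintype.card G.ConnectedComponent := by
      rw [Fintype.card_fin]
      omega
    obtain ⟨e⟩ := Function.Embedding.nonempty_of_card_le h4
    have hinj : Function.Injective fun i => rep (e i) := by
      intro i j hij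
      have h1 : G.connectedComponentMk (rep (e i)) = G.connectedComponentMk (rep (e j)) :=
        congrArg _ hij
      rw [hrep, hrep] at h1
      exact e.injective h1
    obtain ⟨i, j, hij⟩ := h _ hinj
    have h1 : G.connectedComponentMk (rep (e i)) = G.connectedComponentMk (rep (e j)) :=
      SimpleGraph.ConnectedComponent.sound hij.reachable
    rw [hrep, hrep] at h1
    have h2 := e.injective h1
    subst h2
    exact G.loopless.irrefl _ hij
  obtain ⟨v⟩ := ‹Nonempty V›
  obtain ⟨c, -, hc⟩ := Finset.exists_max_image (univ : Finset G.ConnectedComponent)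
    (fun c => ∑ v ∈ univ.filter (fun v => G.connectedComponentMk v = c), wt v)
    ⟨G.connectedComponentMk v, mem_univ _⟩
  refine ⟨rep c, univ.filter (fun v => G.connectedComponentMk v = c), ?_, ?_⟩
  · intro v hv
    rw [mem_filter] at hv
    apply SimpleGraph.ConnectedComponent.exact
    rw [hrep, hv.2]
  · have h0 : 0 ≤ ∑ v ∈ univ.filter (fun v => G.connectedComponentMk v = c), wt v :=
      Finset.sum_nonneg fun v _ => hw v
    have h1 : ∑ v, wt v = ∑ c' : G.ConnectedComponent,
        ∑ v ∈ univ.filter (fun v => G.connectedComponentMk v = c'), wt v :=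
      (Finset.sum_fiberwise _ _ _).symm
    have h2 : ∑ c' : G.ConnectedComponent,
        ∑ v ∈ univ.filter (fun v => G.connectedComponentMk v = c'), wt v ≤
        (Fintype.card G.ConnectedComponent : ℝ) *
          ∑ v ∈ univ.filter (fun v => G.connectedComponentMk v = c), wt v := by
      have h3 := Finset.sum_le_card_nsmul (univ : Finset G.ConnectedComponent) _ _
        (fun c' _ => hc c' (mem_univ _))
      rwa [nsmul_eq_mul, Finset.card_univ] at h3
    have h3 : (Fintype.card G.ConnectedComponent : ℝ) ≤ 3 := by exact_mod_cast hcard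
    rw [h1]
    exact h2.trans (mul_le_mul_of_nonneg_right h3 h0)

theorem path_fun {V : Type*} [Fintype V] [DecidableEq V] (G : SimpleGraph V) {u v : V}
    (h : G.Reachable u v) :
    ∃ q : ℕ → V, q 0 = u ∧ (∀ i, Fintype.card V ≤ i → q i = v) ∧
      ∀ i, q i = q (i + 1) ∨ G.Adj (q i) (q (i + 1)) := by
  obtain ⟨p, hp⟩ := h.exists_isPath
  refine ⟨p.getVert, p.getVert_zero, ?_, ?_⟩
  · intro i hi
    exact p.getVert_of_length_le (hp.length_lt.le.trans hi)
  · intro i
    by_cases hi : i < p.length
    · exact Or.inr (p.adj_getVert_succ hi)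
    · left
      rw [p.getVert_of_length_le (by omega), p.getVert_of_length_le (by omega)]

end Pool.MP7783b9
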