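import Pool.Agent.H.MP_7783b9_co.B.Ram

/-!
# Ramsey's theorem for products (pairs in one side, one point in another side)
-/

set_option autoImplicit false

open Finset

namespace Pool.MP7783b9

/-- one pair of sides -/
theorem prod_step (s : ℕ) :
    ∃ N : ℕ, ∀ {α β : Type} [DecidableEq α] [DecidableEq β] (X : Finset α) (Y : Finset β)
      (P : α → α → β → Prop) (_ : ∀ a b c, P a b c → P b a c), N ≤ X.card → N ≤ Y.card →
      ∃ X' ⊆ X, ∃ Y' ⊆ Y, X'.card = s ∧ Y'.card = s ∧
        ((∀ a ∈ X', ∀ b ∈ X', ∀ c ∈ Y', a ≠ b → P a b c) ∨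
          (∀ a ∈ X', ∀ b ∈ X', ∀ c ∈ Y', a ≠ b → ¬ P a b c)) := by
  obtain ⟨r, hr⟩ := ram2 (Fin (2 * s) → Bool) s
  refine ⟨max (2 * s) r, ?_⟩
  intro α β _ _ X Y P hP hX hY
  classical
  obtain ⟨Y0, hY0, hY0c⟩ := exists_subset_card_eq ((le_max_left (2 * s) r).trans hY)
  let e : Fin (2 * s) ≃ Y0 := (Y0.equivFinOfCardEq hY0c).symm
  obtain ⟨X', hX', hX'c, c, hc⟩ := hr X (fun a b i => decide (P a b (e i)))
    (fun a b => by
      funext i
      exact decide_eq_decide.2 ⟨hP a b _, hP b a _⟩)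
    ((le_max_right (2 * s) r).trans hX)
  obtain ⟨v, -, hv⟩ := Finset.exists_le_card_fiber_of_mul_le_card_of_maps_to
    (s := (Finset.univ : Finset (Fin (2 * s)))) (t := (Finset.univ : Finset Bool))
    (f := c) (n := s)
    (fun _ _ => Finset.mem_univ _) Finset.univ_nonempty (by simp)
  obtain ⟨T, hT, hTc⟩ := exists_subset_card_eq hv
  have hTv : ∀ i ∈ T, c i = v := fun i hi => (mem_filter.1 (hT hi)).2
  have hinj : Function.Injective fun i => (e i : β) := fun i j h => e.injective (Subtype.ext h)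
  refine ⟨X', hX', T.image fun i => (e i : β), ?_, hX'c, ?_, ?_⟩
  · intro y hy
    obtain ⟨i, -, rfl⟩ := mem_image.1 hy
    exact hY0 (e i).2
  · rw [card_image_of_injective _ hinj, hTc]
  · have key : ∀ a ∈ X', ∀ b ∈ X', ∀ y ∈ T.image (fun i => (e i : β)), a ≠ b →
        decide (P a b y) = v := by
      intro a ha b hb y hy hab
      obtain ⟨i, hi, rfl⟩ := mem_image.1 hy
      have h1 := congrFun (hc a ha b hb hab) i
      rw [hTv i hi] at h1
      exact h1
    cases v with
    | true =>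
      left
      intro a ha b hb y hy hab
      exact of_decide_eq_true (key a ha b hb y hy hab)
    | false =>
      right
      intro a ha b hb y hy hab
      exact of_decide_eq_false (key a ha b hb y hy hab)

/-- all pairs in `A` together with a point of `B` have the same colour -/
def ProdR_hom {r : ℕ} (P : Fin r → Fin r → Fin r → Prop) (A B : Finset (Fin r)) : Prop :=
  (∀ a ∈ A, ∀ b ∈ A, ∀ c ∈ B, a ≠ b → P a b c) ∨
    (∀ a ∈ A, ∀ b ∈ A, ∀ c ∈ B, a ≠ b → ¬ P a b c)

theorem ProdR_hom_mono {r : ℕ} {P : Fin r → Fin r → Fin r → Prop} {A B A' B' : Finset (Fin r)}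
    (h : ProdR_hom P A B) (hA : A' ⊆ A) (hB : B' ⊆ B) : ProdR_hom P A' B' := by
  rcases h with h | h
  · exact Or.inl fun a ha b hb c hc => h a (hA ha) b (hA hb) c (hB hc)
  · exact Or.inr fun a ha b hb c hc => h a (hA ha) b (hA hb) c (hB hc)

/-- the pairs of a list -/
theorem ProdR_list (l : List (Fin 4 × Fin 4)) : ∀ s : ℕ, ∃ r0 : ℕ, ∀ (r : ℕ)
    (P : Fin 4 → Fin 4 → Fin r → Fin r → Fin r → Prop)
    (_ : ∀ i j a b c, P i j a b c → P i j b a c) (X : Fin 4 → Finset (Fin r)),
    (∀ i, r0 ≤ (X i).card) → ∃ X' : Fin 4 → Finset (Fin r), (∀ i, X' i ⊆ X i) ∧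
      (∀ i, (X' i).card = s) ∧ ∀ p ∈ l, p.1 ≠ p.2 → ProdR_hom (P p.1 p.2) (X' p.1) (X' p.2) := by
  induction l with
  | nil =>
    intro s
    refine ⟨s, fun r P _ X hX => ?_⟩
    choose X' hX' hX'c using fun i => exists_subset_card_eq (hX i)
    exact ⟨X', hX', hX'c, fun p hp => absurd hp List.not_mem_nil⟩
  | cons p l ih =>
    intro s
    obtain ⟨N', hN'⟩ := ih s
    by_cases hp : p.1 = p.2
    · refine ⟨N', fun r P hP X hX => ?_⟩
      obtain ⟨X', h1, h2, h3⟩ := hN' r P hP X hX
      refine ⟨X', h1, h2, fun p' hp' hne => ?_⟩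
      rcases List.mem_cons.1 hp' with h | h
      · rw [h] at hne
        exact absurd hp hne
      · exact h3 p' h hne
    · obtain ⟨N, hN⟩ := prod_step N'
      refine ⟨max N N', fun r P hP X hX => ?_⟩
      obtain ⟨A, hA, B, hB, hAc, hBc, hAB⟩ := hN (X p.1) (X p.2) (P p.1 p.2) (hP p.1 p.2)
        ((le_max_left _ _).trans (hX p.1)) ((le_max_left _ _).trans (hX p.2))
      have hX1 : ∀ i, N' ≤ (Function.update (Function.update X p.1 A) p.2 B i).card := by
        intro i
        by_cases h2 : i = p.2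
        · rw [h2, Function.update_self, hBc]
        · rw [Function.update_of_ne h2]
          by_cases h1 : i = p.1
          · rw [h1, Function.update_self, hAc]
          · rw [Function.update_of_ne h1]
            exact (le_max_right _ _).trans (hX i)
      obtain ⟨X', h1, h2, h3⟩ := hN' r P hP _ hX1
      have e1 : X' p.1 ⊆ A := by
        have := h1 p.1
        rwa [Function.update_of_ne hp, Function.update_self] at this
      have e2 : X' p.2 ⊆ B := by
        have := h1 p.2
        rwa [Function.update_self] at this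
      refine ⟨X', fun i => ?_, h2, fun p' hp' hne => ?_⟩
      · by_cases h5 : i = p.2
        · rw [h5]
          exact e2.trans hB
        · by_cases h4 : i = p.1
          · rw [h4]
            exact e1.trans hA
          · have := h1 i
            rwa [Function.update_of_ne h5, Function.update_of_ne h4] at this
      · rcases List.mem_cons.1 hp' with h | h
        · rw [h]
          exact ProdR_hom_mono hAB e1 e2
        · exact h3 p' h hne

/-- all ordered pairs of four sides at the same time -/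
theorem prod_ramsey (q : ℕ) :
    ∃ r : ℕ, ∀ (P : Fin 4 → Fin 4 → Fin r → Fin r → Fin r → Prop)
      (_ : ∀ i j a b c, P i j a b c → P i j b a c),
      ∃ Q : Fin 4 → Finset (Fin r), (∀ i, (Q i).card = q) ∧
        ∀ i j, i ≠ j → (∀ a ∈ Q i, ∀ b ∈ Q i, ∀ c ∈ Q j, a ≠ b → P i j a b c) ∨
          (∀ a ∈ Q i, ∀ b ∈ Q i, ∀ c ∈ Q j, a ≠ b → ¬ P i j a b c) := by
  obtain ⟨r, hr⟩ := ProdR_list (Finset.univ : Finset (Fin 4 × Fin 4)).toList q
  refine ⟨r, fun P hP => ?_⟩
  obtain ⟨Q, -, h2, h3⟩ := hr r P hP (fun _ => Finset.univ) fun i => by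
    rw [Finset.card_univ, Fintype.card_fin]
  exact ⟨Q, h2, fun i j hij => h3 (i, j) (Finset.mem_toList.2 (Finset.mem_univ _)) hij⟩

end Pool.MP7783b9
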