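import Pool.Agent.H.MP_7783b9_co.W.Link
import Pool.Agent.H.MP_7783b9_co.W.ProdR

/-!
# Among four clusters two are linked
-/

set_option autoImplicit false

open Finset

namespace Pool.MP7783b9

/-- in a relation on four points which is total on pairs some point has two successors -/
theorem two_out (D : Fin 4 → Fin 4 → Prop) (h : ∀ i j, i ≠ j → D i j ∨ D j i) :
    ∃ i j k, i ≠ j ∧ i ≠ k ∧ j ≠ k ∧ D i j ∧ D i k ∧ D j k := by
  have claim : ∃ i j k, i ≠ j ∧ i ≠ k ∧ j ≠ k ∧ D i j ∧ D i k := by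
    rcases h 0 1 (by decide) with a | a
    · rcases h 0 2 (by decide) with b | b
      · exact ⟨0, 1, 2, by decide, by decide, by decide, a, b⟩
      · rcases h 0 3 (by decide) with c | c
        · exact ⟨0, 1, 3, by decide, by decide, by decide, a, c⟩
        · rcases h 2 3 (by decide) with d | d
          · exact ⟨2, 0, 3, by decide, by decide, by decide, b, d⟩
          · exact ⟨3, 0, 2, by decide, by decide, by decide, c, d⟩
    · rcases h 1 2 (by decide) with b | b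
      · exact ⟨1, 0, 2, by decide, by decide, by decide, a, b⟩
      · rcases h 1 3 (by decide) with c | c
        · exact ⟨1, 0, 3, by decide, by decide, by decide, a, c⟩
        · rcases h 2 3 (by decide) with d | d
          · exact ⟨2, 1, 3, by decide, by decide, by decide, b, d⟩
          · exact ⟨3, 1, 2, by decide, by decide, by decide, c, d⟩
  obtain ⟨i, j, k, h1, h2, h3, h4, h5⟩ := claim
  rcases h j k h3 with h6 | h6
  · exact ⟨i, j, k, h1, h2, h3, h4, h5, h6⟩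
  · exact ⟨i, k, j, h2, h1, h3.symm, h5, h4, h6⟩

section

variable {α : Type} [DecidableEq α]

theorem Link4_e3swap (R : Finset α → Prop) (X Y Z : Finset α) : e3 R X Y Z = e3 R Y X Z := by
  rw [e3_rot R X Y Z, e3_swap R Y Z X]

theorem Link4_swap {R : Finset α → Prop} {δ θ : ℝ} {X Y Z : Finset α}
    (h : Sparse R δ θ X Y Z) : Sparse R δ θ Y X Z := by
  intro A hA B hB C hC h1 h2 h3
  have h4 := h B hB A hA C hC h2 h1 h3
  rw [Link4_e3swap R B A C] at h4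
  refine h4.trans (le_of_eq ?_)
  ring

theorem Link4_full {R : Finset α → Prop} {δ θ : ℝ} (hδ1 : δ ≤ 1) {X Y Z : Finset α} {N : ℕ}
    (hX : X.card = N) (hY : Y.card = N) (hZ : Z.card = N) (h : Sparse R δ θ X Y Z) :
    (e3 R X Y Z : ℝ) ≤ θ * (N : ℝ) ^ 3 := by
  have h0 : (0 : ℝ) ≤ (N : ℝ) := Nat.cast_nonneg N
  have h1 : δ * (N : ℝ) ≤ (N : ℝ) := by nlinarith
  have h4 := h X (Finset.Subset.refl _) Y (Finset.Subset.refl _) Z (Finset.Subset.refl _)
    (by rw [hX]; exact h1) (by rw [hY]; exact h1) (by rw [hZ]; exact h1)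
  rw [hX, hY, hZ] at h4
  refine h4.trans (le_of_eq ?_)
  ring

theorem Link4_mono {R : Finset α → Prop} {ε ε' m m' : ℝ} {C C' : Finset α}
    (h : Linked R ε m C C') (hε : ε ≤ ε') (hm : m' ≤ m) : Linked R ε' m' C C' := by
  obtain ⟨A, hA, A', hA', h1, h2, h3⟩ := h
  refine ⟨A, hA, A', hA', h1, hm.trans h2, ?_⟩
  rw [Finset.eq_empty_iff_forall_notMem] at h3 ⊢
  intro x hx
  apply h3 x
  rw [mem_dense] at hx ⊢
  refine ⟨hx.1, le_trans ?_ hx.2⟩
  exact mul_le_mul_of_nonneg_right hε (sq_nonneg _)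

theorem Link4_clus {R : Finset α → Prop} {εc : ℝ} {C : Finset α} {N : ℕ}
    (hC : C.card = N) (hd : dense R C εc = ∅) {X Y Z : Finset α} (hX : X ⊆ C) (hY : Y ⊆ C)
    (hZ : Z ⊆ C) : (e3 R X Y Z : ℝ) ≤ εc * (N : ℝ) ^ 3 := by
  classical
  have h1 : e3 R X Y Z ≤ e3 R C C C := by
    unfold e3
    exact Finset.card_le_card (Finset.filter_subset_filter _
      (Finset.product_subset_product hX (Finset.product_subset_product hY hZ)))
  have h2 : (e3 R C C C : ℝ) = ∑ x ∈ C, ((bpairs R C x).card : ℝ) := by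
    rw [e3_eq_sum]
    push_cast
    rfl
  have h3 : ∀ x ∈ C, ((bpairs R C x).card : ℝ) ≤ εc * (N : ℝ) ^ 2 := by
    intro x hx
    by_contra hcon
    push Not at hcon
    have h4 : x ∈ dense R C εc := by
      rw [mem_dense, hC]
      exact ⟨hx, hcon.le⟩
    rw [hd] at h4
    exact absurd h4 (Finset.notMem_empty x)
  have h5 : (e3 R X Y Z : ℝ) ≤ (e3 R C C C : ℝ) := by exact_mod_cast h1
  refine h5.trans ?_
  rw [h2]
  refine (Finset.sum_le_sum h3).trans (le_of_eq ?_)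
  rw [Finset.sum_const, hC, nsmul_eq_mul]
  ring

/-- two clusters whose types are sparse -/
theorem Link4_case1 {R : Finset α → Prop} {r N' q : ℕ} (V' : Fin (4 * r) → Finset α)
    (hc : ∀ m, (V' m).card = N') (hN' : 0 < N') (hq4 : 4 ≤ q)
    (hd : ∀ m m', m ≠ m' → Disjoint (V' m) (V' m')) {C : Fin 4 → Finset α}
    (hVC : ∀ i a, V' (finProdFinEquiv (i, a)) ⊆ C i) {i j : Fin 4} (hij : i ≠ j)
    {Q Q' : Finset (Fin r)} (hQ : Q.card = q) (hQ' : Q'.card = q) {θ θ0 : ℝ} (hθ : 0 < θ)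
    (hθ1 : θ ≤ 1 / 64) (hθ0 : 0 < θ0) (hθθ : 2 * θ0 = θ ^ 2) (hq : 3 / ((2 * q : ℕ) : ℝ) ≤ θ0)
    (h1 : ∀ a ∈ Q, ∀ b ∈ Q, ∀ c ∈ Q', a ≠ b → (e3 R (V' (finProdFinEquiv (i, a)))
      (V' (finProdFinEquiv (i, b))) (V' (finProdFinEquiv (j, c))) : ℝ) ≤ θ0 * (N' : ℝ) ^ 3)
    (h2 : ∀ a ∈ Q', ∀ b ∈ Q', ∀ c ∈ Q, a ≠ b → (e3 R (V' (finProdFinEquiv (j, a)))
      (V' (finProdFinEquiv (j, b))) (V' (finProdFinEquiv (i, c))) : ℝ) ≤ θ0 * (N' : ℝ) ^ 3)
    (h3 : ∀ s a b c, (e3 R (V' (finProdFinEquiv (s, a)))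
      (V' (finProdFinEquiv (s, b))) (V' (finProdFinEquiv (s, c))) : ℝ) ≤ θ0 * (N' : ℝ) ^ 3) :
    Linked R (16 * θ) (((q * N' : ℕ) : ℝ) / 2) (C i) (C j) := by
  classical
  have hinj : ∀ s : Fin 4, Function.Injective
      (fun a : Fin r => (finProdFinEquiv (s, a) : Fin (4 * r))) := by
    intro s a b hab
    exact congrArg Prod.snd (finProdFinEquiv.injective hab)
  have hne : ∀ a b : Fin r, (finProdFinEquiv (i, a) : Fin (4 * r)) ≠ finProdFinEquiv (j, b) := by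
    intro a b hab
    exact hij (congrArg Prod.fst (finProdFinEquiv.injective hab))
  obtain ⟨K1, hK1⟩ : ∃ K1 : Finset (Fin (4 * r)),
    K1 = Q.image (fun a => finProdFinEquiv (i, a)) := ⟨_, rfl⟩
  obtain ⟨K2, hK2⟩ : ∃ K2 : Finset (Fin (4 * r)),
    K2 = Q'.image (fun a => finProdFinEquiv (j, a)) := ⟨_, rfl⟩
  have c1 : K1.card = q := by rw [hK1, Finset.card_image_of_injective _ (hinj i), hQ]
  have c2 : K2.card = q := by rw [hK2, Finset.card_image_of_injective _ (hinj j), hQ']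
  have hdK : Disjoint K1 K2 := by
    rw [Finset.disjoint_left]
    intro m hm hm'
    rw [hK1, Finset.mem_image] at hm
    rw [hK2, Finset.mem_image] at hm'
    obtain ⟨a, _, rfl⟩ := hm
    obtain ⟨b, _, hb⟩ := hm'
    exact hne a b hb.symm
  have cK : (K1 ∪ K2).card = 2 * q := by
    rw [Finset.card_union_of_disjoint hdK, c1, c2]
    ring
  have hsp : ∀ m1 ∈ K1 ∪ K2, ∀ m2 ∈ K1 ∪ K2, ∀ m3 ∈ K1 ∪ K2, m1 ≠ m2 → m1 ≠ m3 → m2 ≠ m3 →
      (e3 R (V' m1) (V' m2) (V' m3) : ℝ) ≤ θ0 * (N' : ℝ) ^ 3 := by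
    intro m1 hm1 m2 hm2 m3 hm3 h12 h13 h23
    rw [Finset.mem_union, hK1, hK2, Finset.mem_image, Finset.mem_image] at hm1 hm2 hm3
    rcases hm1 with ⟨a, ha, rfl⟩ | ⟨a, ha, rfl⟩ <;> rcases hm2 with ⟨b, hb, rfl⟩ | ⟨b, hb, rfl⟩ <;>
      rcases hm3 with ⟨c, hc', rfl⟩ | ⟨c, hc', rfl⟩
    · exact h3 i a b c
    · exact h1 a ha b hb c hc' fun h => h12 (by rw [h])
    · rw [e3_swap]
      exact h1 a ha c hc' b hb fun h => h13 (by rw [h])
    · rw [e3_rot]
      exact h2 b hb c hc' a ha fun h => h23 (by rw [h])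
    · rw [e3_rot]
      exact h1 b hb c hc' a ha fun h => h23 (by rw [h])
    · rw [e3_swap]
      exact h2 a ha c hc' b hb fun h => h13 (by rw [h])
    · exact h2 a ha b hb c hc' fun h => h12 (by rw [h])
    · exact h3 j a b c
  have hu := union_sparse R V' N' hc hd (K1 ∪ K2) (2 * q) (by omega) cK θ0 hθ0.le hsp
  have hA : K1.biUnion V' ⊆ C i := by
    rw [Finset.biUnion_subset]
    intro m hm
    rw [hK1, Finset.mem_image] at hm
    obtain ⟨a, _, rfl⟩ := hm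
    exact hVC i a
  have hA' : K2.biUnion V' ⊆ C j := by
    rw [Finset.biUnion_subset]
    intro m hm
    rw [hK2, Finset.mem_image] at hm
    obtain ⟨a, _, rfl⟩ := hm
    exact hVC j a
  have cA : (K1.biUnion V').card = q * N' := by
    rw [Finset.card_biUnion fun i _ j _ hij => hd i j hij, Finset.sum_congr rfl fun i _ => hc i,
      Finset.sum_const, c1, smul_eq_mul]
  have cA' : (K2.biUnion V').card = q * N' := by
    rw [Finset.card_biUnion fun i _ j _ hij => hd i j hij, Finset.sum_congr rfl fun i _ => hc i,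
      Finset.sum_const, c2, smul_eq_mul]
  have hdA : Disjoint (K1.biUnion V') (K2.biUnion V') := by
    rw [Finset.disjoint_biUnion_left]
    intro m hm
    rw [Finset.disjoint_biUnion_right]
    intro m' hm'
    refine hd m m' fun he => ?_
    rw [he] at hm
    exact (Finset.disjoint_left.1 hdK hm) hm'
  refine linked_of_sparse R (C i) (C j) _ _ hA hA' (q * N') (Nat.mul_pos (by omega) hN') cA cA'
    hdA θ hθ hθ1 ?_
  have he : K1.biUnion V' ∪ K2.biUnion V' = (K1 ∪ K2).biUnion V' :=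
    (Finset.union_biUnion).symm
  rw [he]
  refine hu.trans ?_
  refine mul_le_mul_of_nonneg_right ?_ (pow_nonneg (Nat.cast_nonneg _) 3)
  rw [← hθθ]
  linarith only [hq]

/-- an ordered selection of elements -/
theorem Link4_sel {r q k : ℕ} (hk : k ≤ q) {Q : Finset (Fin r)} (hQ : Q.card = q) :
    ∃ f : Fin k → Fin r, Function.Injective f ∧ ∀ a, f a ∈ Q := by
  have e : Fin Q.card ≃ Q := Q.equivFin.symm
  refine ⟨fun a => (e ⟨a.1, by have := a.2; omega⟩ : Fin r), ?_, fun a => (e _).2⟩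
  intro a b hab
  have h1 := e.injective (Subtype.ext hab)
  have h2 := congrArg Fin.val h1
  exact Fin.ext h2

/-- three clusters with dense types -/
theorem Link4_case2 {R : Finset α → Prop} {r N' q : ℕ} (V' : Fin (4 * r) → Finset α)
    (hc : ∀ m, (V' m).card = N') (hN' : 0 < N') (hq4 : 4 ≤ q)
    (hd : ∀ m m', m ≠ m' → Disjoint (V' m) (V' m')) {C : Fin 4 → Finset α}
    (hVC : ∀ i a, V' (finProdFinEquiv (i, a)) ⊆ C i) {Q : Fin 4 → Finset (Fin r)}
    (hQ : ∀ i, (Q i).card = q) {θ δ : ℝ} (hθ : 0 < θ) (hθ1 : θ ≤ 1) (hδ : 0 < δ)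
    (hδθ : 7 * δ < θ ^ 7) {i j k : Fin 4} (hij : i ≠ j) (hik : i ≠ k) (hjk : j ≠ k)
    (h1 : ∀ a ∈ Q i, ∀ b ∈ Q i, ∀ c ∈ Q j, a ≠ b → Dens R δ θ (V' (finProdFinEquiv (i, a)))
      (V' (finProdFinEquiv (i, b))) (V' (finProdFinEquiv (j, c))))
    (h2 : ∀ a ∈ Q i, ∀ b ∈ Q i, ∀ c ∈ Q k, a ≠ b → Dens R δ θ (V' (finProdFinEquiv (i, a)))
      (V' (finProdFinEquiv (i, b))) (V' (finProdFinEquiv (k, c))))
    (h3 : ∀ a ∈ Q j, ∀ b ∈ Q j, ∀ c ∈ Q k, a ≠ b → Dens R δ θ (V' (finProdFinEquiv (j, a)))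
      (V' (finProdFinEquiv (j, b))) (V' (finProdFinEquiv (k, c)))) :
    BlueFano R (Finset.univ.biUnion C) := by
  classical
  obtain ⟨f, hf, hfQ⟩ := Link4_sel hq4 (hQ i)
  obtain ⟨g, hg, hgQ⟩ := Link4_sel (k := 2) (by omega) (hQ j)
  obtain ⟨l, _, hlQ⟩ := Link4_sel (k := 1) (by omega) (hQ k)
  have hinj : ∀ (s s' : Fin 4) (a b : Fin r),
      (finProdFinEquiv (s, a) : Fin (4 * r)) = finProdFinEquiv (s', b) → s = s' ∧ a = b := by
    intro s s' a b hab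
    have h := finProdFinEquiv.injective hab
    exact ⟨congrArg Prod.fst h, congrArg Prod.snd h⟩
  have hnon : ∀ m, (V' m).Nonempty := fun m => Finset.card_pos.1 (by rw [hc]; exact hN')
  have h := fano_of_types R (fun a => V' (finProdFinEquiv (i, f a)))
    (fun b => V' (finProdFinEquiv (j, g b))) (V' (finProdFinEquiv (k, l 0))) θ δ hθ hθ1 hδ hδθ
    (fun a b hab => hd _ _ fun he => hab (hf (hinj _ _ _ _ he).2))
    (hd _ _ fun he => by
      have h0 := hg (hinj _ _ _ _ he).2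
      exact absurd h0 (by decide))
    (fun a b => hd _ _ fun he => hij (hinj _ _ _ _ he).1)
    (fun a => hd _ _ fun he => hik (hinj _ _ _ _ he).1)
    (fun b => hd _ _ fun he => hjk (hinj _ _ _ _ he).1)
    (fun a => hnon _) (fun b => hnon _) (hnon _)
    (fun a b c hab => h1 _ (hfQ a) _ (hfQ b) _ (hgQ c) fun he => hab (hf he))
    (fun a b hab => h2 _ (hfQ a) _ (hfQ b) _ (hlQ 0) fun he => hab (hf he))
    (h3 _ (hgQ 0) _ (hgQ 1) _ (hlQ 0) fun he => absurd (hg he) (by decide))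
  obtain ⟨ψ, p1, p2, p3⟩ := h
  refine ⟨ψ, p1, fun x => ?_, p3⟩
  have p4 := p2 x
  rw [Finset.mem_biUnion]
  rw [Finset.mem_union, Finset.mem_union, Finset.mem_biUnion, Finset.mem_biUnion] at p4
  rcases p4 with (⟨a, _, ha⟩ | ⟨a, _, ha⟩) | ha
  · exact ⟨i, Finset.mem_univ _, hVC _ _ ha⟩
  · exact ⟨j, Finset.mem_univ _, hVC _ _ ha⟩
  · exact ⟨k, Finset.mem_univ _, hVC _ _ ha⟩

end

theorem link4 (εl : ℝ) (hεl : 0 < εl) :
    ∃ ρ : ℝ, 0 < ρ ∧ ρ ≤ 1 ∧ ∃ εc : ℝ, 0 < εc ∧ ∃ N₀ : ℕ, ∀ {α : Type} [DecidableEq α]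
      (R : Finset α → Prop) (N : ℕ) (_ : N₀ ≤ N) (C : Fin 4 → Finset α)
      (_ : ∀ i, (C i).card = N) (_ : ∀ i j, i ≠ j → Disjoint (C i) (C j))
      (_ : ∀ i, dense R (C i) εc = ∅) (_ : ¬ BlueFano R (Finset.univ.biUnion C)),
      ∃ i j, i ≠ j ∧ Linked R εl (ρ * (N : ℝ)) (C i) (C j) := by
  classical
  obtain ⟨θ, hθ, hθ1, hθ2⟩ : ∃ θ : ℝ, 0 < θ ∧ θ ≤ 1 / 64 ∧ 16 * θ ≤ εl :=
    ⟨min (εl / 16) (1 / 64), lt_min (by linarith only [hεl]) (by norm_num), min_le_right _ _, by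
      have := min_le_left (εl / 16) (1 / 64 : ℝ)
      linarith only [this]⟩
  obtain ⟨θ0, hθ0, hθ01, hθθ⟩ : ∃ θ0 : ℝ, 0 < θ0 ∧ θ0 ≤ 1 ∧ 2 * θ0 = θ ^ 2 :=
    ⟨θ ^ 2 / 2, by positivity, by nlinarith only [hθ, hθ1], by ring⟩
  obtain ⟨q, hq4, hq⟩ : ∃ q : ℕ, 4 ≤ q ∧ 3 / ((2 * q : ℕ) : ℝ) ≤ θ0 := by
    obtain ⟨q, hq⟩ := exists_nat_ge (3 / (2 * θ0))
    refine ⟨max 4 q, le_max_left _ _, ?_⟩
    have h1 : (q : ℝ) ≤ ((max 4 q : ℕ) : ℝ) := by exact_mod_cast le_max_right 4 q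
    have h2 : (4 : ℝ) ≤ ((max 4 q : ℕ) : ℝ) := by exact_mod_cast le_max_left 4 q
    push_cast at h1 h2 ⊢
    generalize max (4 : ℝ) (q : ℝ) = x at h1 h2 ⊢
    rw [div_le_iff₀ (by linarith only [h2])]
    rw [div_le_iff₀ (by linarith only [hθ0])] at hq
    nlinarith only [hq, h1, hθ0]
  obtain ⟨δ, hδ, hδ1, hδθ⟩ : ∃ δ : ℝ, 0 < δ ∧ δ ≤ 1 ∧ 7 * δ < (θ0 / 2) ^ 7 := by
    have h1 : 0 < (θ0 / 2) ^ 7 := by positivity
    have h2 : (θ0 / 2) ^ 7 ≤ 1 := pow_le_one₀ (by linarith only [hθ0]) (by linarith only [hθ01])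
    exact ⟨(θ0 / 2) ^ 7 / 8, by linarith only [h1], by linarith only [h2], by linarith only [h1]⟩
  obtain ⟨r, hr⟩ := prod_ramsey q
  have hqr : q ≤ r := by
    obtain ⟨Q, hQ, -⟩ := hr (fun _ _ _ _ _ => True) (fun _ _ _ _ _ h => h)
    have h1 := Finset.card_le_univ (Q 0)
    rwa [hQ, Fintype.card_fin] at h1
  have hr0 : 0 < r := by omega
  have hrR : (0 : ℝ) < r := by exact_mod_cast hr0
  obtain ⟨ρ1, hρ1, hρ11, hm⟩ := multi (4 * r) (Finset.univ.filter fun T =>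
    T.1 ≠ T.2.1 ∧ T.1 ≠ T.2.2 ∧ T.2.1 ≠ T.2.2) (fun T hT => (Finset.mem_filter.1 hT).2)
    θ0 hθ0 hθ01 δ hδ hδ1
  have hr1 : (1 : ℝ) ≤ r := by exact_mod_cast hr0
  refine ⟨ρ1 / (8 * r), by positivity, ?_, θ0 * (ρ1 / (2 * r)) ^ 3, by positivity, 2 * r, ?_⟩
  · rw [div_le_one (by positivity)]
    linarith only [hρ11, hr1]
  intro α _ R N hN C hC hd hden hF
  obtain ⟨N1, hN1⟩ : ∃ N1 : ℕ, N1 = N / r := ⟨_, rfl⟩
  have hN1a : r * N1 ≤ N := by rw [hN1]; exact Nat.mul_div_le N r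
  have hN1b : N ≤ 2 * r * N1 := by
    have h1 : N < r * (N1 + 1) := by rw [hN1]; exact Nat.lt_mul_div_succ N hr0
    have h2 : 1 ≤ N1 := by
      rw [hN1]
      exact (Nat.le_div_iff_mul_le hr0).2 (by omega)
    nlinarith only [h1, h2, hr0]
  have hN1p : 0 < N1 := by
    rcases Nat.eq_zero_or_pos N1 with h | h
    · rw [h] at hN1b
      omega
    · exact h
  have hV : ∀ i, ∃ V : Fin r → Finset α, (∀ a, V a ⊆ C i ∧ (V a).card = N1) ∧
      ∀ a b, a ≠ b → Disjoint (V a) (V b) := fun i =>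
    disjoint_parts (C i) r N1 (by rw [hC i]; exact hN1a)
  choose V hV1 hV2 using hV
  obtain ⟨N', hN', V', hV', hT⟩ := hm R N1
    (fun m => V (finProdFinEquiv.symm m).1 (finProdFinEquiv.symm m).2)
    (fun m => (hV1 _ _).2) hN1p
  have hc : ∀ m, (V' m).card = N' := fun m => (hV' m).2
  have hVV : ∀ i a, V' (finProdFinEquiv (i, a)) ⊆ V i a := by
    intro i a
    have h1 := (hV' (finProdFinEquiv (i, a))).1
    rwa [Equiv.symm_apply_apply] at h1
  have hVC : ∀ i a, V' (finProdFinEquiv (i, a)) ⊆ C i := fun i a =>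
    (hVV i a).trans (hV1 i a).1
  have hdd : ∀ m m', m ≠ m' → Disjoint (V' m) (V' m') := by
    intro m m' hmm
    obtain ⟨⟨i, a⟩, rfl⟩ := finProdFinEquiv.surjective m
    obtain ⟨⟨j, b⟩, rfl⟩ := finProdFinEquiv.surjective m'
    by_cases hij : i = j
    · subst hij
      have hab : a ≠ b := fun he => hmm (by rw [he])
      exact Finset.disjoint_of_subset_left (hVV i a)
        (Finset.disjoint_of_subset_right (hVV i b) (hV2 i a b hab))
    · exact Finset.disjoint_of_subset_left (hVC i a)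
        (Finset.disjoint_of_subset_right (hVC j b) (hd i j hij))
  have hN1R : (0 : ℝ) < N1 := by exact_mod_cast hN1p
  have hN'R : (0 : ℝ) < N' := lt_of_lt_of_le (mul_pos hρ1 hN1R) hN'
  have hN'p : 0 < N' := by exact_mod_cast hN'R
  have hNN : ρ1 / (2 * r) * (N : ℝ) ≤ N' := by
    have h1 : (N : ℝ) ≤ 2 * r * N1 := by exact_mod_cast hN1b
    refine le_trans ?_ hN'
    rw [div_mul_eq_mul_div, div_le_iff₀ (by positivity)]
    nlinarith only [h1, hρ1]
  have hself : ∀ s a b c, (e3 R (V' (finProdFinEquiv (s, a)))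
      (V' (finProdFinEquiv (s, b))) (V' (finProdFinEquiv (s, c))) : ℝ) ≤
        θ0 * (N' : ℝ) ^ 3 := by
    intro s a b c
    refine (Link4_clus (hC s) (hden s) (hVC s a) (hVC s b) (hVC s c)).trans ?_
    have h1 : (ρ1 / (2 * r) * (N : ℝ)) ^ 3 ≤ (N' : ℝ) ^ 3 :=
      pow_le_pow_left₀ (by positivity) hNN 3
    have h2 : θ0 * (ρ1 / (2 * r)) ^ 3 * (N : ℝ) ^ 3 = θ0 * (ρ1 / (2 * r) * (N : ℝ)) ^ 3 := by
      rw [mul_pow]
      ring
    rw [h2]
    exact mul_le_mul_of_nonneg_left h1 hθ0.le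
  obtain ⟨Q, hQ, hQ2⟩ := hr (fun i j a b c => Sparse R δ θ0 (V' (finProdFinEquiv (i, a)))
    (V' (finProdFinEquiv (i, b))) (V' (finProdFinEquiv (j, c)))) (fun i j a b c h => Link4_swap h)
  by_cases hcase : ∃ i j, i ≠ j ∧
      (∀ a ∈ Q i, ∀ b ∈ Q i, ∀ c ∈ Q j, a ≠ b → Sparse R δ θ0 (V' (finProdFinEquiv (i, a)))
        (V' (finProdFinEquiv (i, b))) (V' (finProdFinEquiv (j, c)))) ∧
      (∀ a ∈ Q j, ∀ b ∈ Q j, ∀ c ∈ Q i, a ≠ b → Sparse R δ θ0 (V' (finProdFinEquiv (j, a)))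
        (V' (finProdFinEquiv (j, b))) (V' (finProdFinEquiv (i, c))))
  · obtain ⟨i, j, hij, s1, s2⟩ := hcase
    refine ⟨i, j, hij, ?_⟩
    have hL := Link4_case1 V' hc hN'p hq4 hdd hVC hij (hQ i) (hQ j) hθ hθ1 hθ0 hθθ hq
      (fun a ha b hb c hc' hab => Link4_full hδ1 (hc _) (hc _) (hc _) (s1 a ha b hb c hc' hab))
      (fun a ha b hb c hc' hab => Link4_full hδ1 (hc _) (hc _) (hc _) (s2 a ha b hb c hc' hab))
      hself
    refine Link4_mono hL hθ2 ?_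
    push_cast
    have h1 : (4 : ℝ) ≤ q := by exact_mod_cast hq4
    have h2 : ρ1 / (8 * r) * (N : ℝ) = (ρ1 / (2 * r) * (N : ℝ)) / 4 := by
      field_simp
      ring
    rw [h2]
    nlinarith only [h1, hNN, hN'R]
  · exfalso
    have hS : ∀ i j, i ≠ j → (∀ a ∈ Q i, ∀ b ∈ Q i, ∀ c ∈ Q j, a ≠ b →
        Dens R δ (θ0 / 2) (V' (finProdFinEquiv (i, a)))
          (V' (finProdFinEquiv (i, b))) (V' (finProdFinEquiv (j, c)))) ∨
        (∀ a ∈ Q i, ∀ b ∈ Q i, ∀ c ∈ Q j, a ≠ b →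
          Sparse R δ θ0 (V' (finProdFinEquiv (i, a)))
          (V' (finProdFinEquiv (i, b))) (V' (finProdFinEquiv (j, c)))) := by
      intro i j hij
      rcases hQ2 i j hij with h1 | h1
      · exact Or.inr h1
      · left
        intro a ha b hb c hc' hab
        have hmem : ((finProdFinEquiv (i, a), finProdFinEquiv (i, b), finProdFinEquiv (j, c)) :
            Fin (4 * r) × Fin (4 * r) × Fin (4 * r)) ∈ (Finset.univ.filter fun T :
              Fin (4 * r) × Fin (4 * r) × Fin (4 * r) =>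
              T.1 ≠ T.2.1 ∧ T.1 ≠ T.2.2 ∧ T.2.1 ≠ T.2.2) := by
          rw [Finset.mem_filter]
          refine ⟨Finset.mem_univ _, ?_, ?_, ?_⟩
          · intro he
            exact hab (congrArg Prod.snd (finProdFinEquiv.injective he))
          · intro he
            exact hij (congrArg Prod.fst (finProdFinEquiv.injective he))
          · intro he
            exact hij (congrArg Prod.fst (finProdFinEquiv.injective he))
        rcases hT _ hmem with h2 | h2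
        · exact absurd h2 (h1 a ha b hb c hc' hab)
        · exact h2
    obtain ⟨i, j, k, hij, hik, hjk, d1, d2, d3⟩ := two_out
      (fun i j => i ≠ j ∧ ∀ a ∈ Q i, ∀ b ∈ Q i, ∀ c ∈ Q j, a ≠ b →
        Dens R δ (θ0 / 2) (V' (finProdFinEquiv (i, a)))
          (V' (finProdFinEquiv (i, b))) (V' (finProdFinEquiv (j, c)))) (by
      intro i j hij
      rcases hS i j hij with h1 | h1
      · exact Or.inl ⟨hij, h1⟩
      · rcases hS j i hij.symm with h2 | h2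
        · exact Or.inr ⟨hij.symm, h2⟩
        · exact absurd ⟨i, j, hij, h1, h2⟩ hcase)
    exact hF (Link4_case2 V' hc hN'p hq4 hdd hVC hQ (by linarith only [hθ0])
      (by linarith only [hθ01]) hδ hδθ hij hik hjk d1.2 d2.2 d3.2)

end Pool.MP7783b9
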