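import Pool.Agent.H.MP_7783b9_co.W.ClusEq
import Pool.Agent.H.MP_7783b9_co.W.Link4
import Pool.Agent.H.MP_7783b9_co.W.GComp

/-!
# The structure of a colouring without blue Fano plane
-/

set_option autoImplicit false

open Finset

namespace Pool.MP7783b9

/-- `𝒦` is the heaviest component of the graph of linked clusters, `q C` is a way from the fixed
cluster `C₀` to the cluster `C` -/
theorem colour_side (εl : ℝ) (hεl : 0 < εl) :
    ∃ ρ : ℝ, 0 < ρ ∧ ρ ≤ 1 ∧ ∃ εc : ℝ, 0 < εc ∧ ∀ (ε lam : ℝ), 0 < ε → ε ≤ εc → 0 < lam →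
      lam ≤ 1 / 2 → ∃ σ : ℝ, 0 < σ ∧ σ ≤ 1 ∧ ∃ p n₀ : ℕ, ∀ {α : Type} [DecidableEq α]
      (R : Finset α → Prop) (U : Finset α), n₀ ≤ U.card → ¬ BlueFano R U →
      ∃ N : ℕ, σ * (U.card : ℝ) ≤ (N : ℝ) ∧ ∃ 𝒦 : Finset (Finset α), 𝒦.card ≤ p ∧
        (∀ C ∈ 𝒦, C ⊆ U ∧ C.card = N ∧ dense R C ε = ∅) ∧
        (∀ C ∈ 𝒦, ∀ C' ∈ 𝒦, C ≠ C' → Disjoint C C') ∧
        (1 - lam) * (U.card : ℝ) ≤ 3 * ((𝒦.biUnion id).card : ℝ) ∧
        ∃ (C₀ : Finset α) (q : Finset α → ℕ → Finset α), ∀ C ∈ 𝒦, q C 0 = C₀ ∧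
          (∀ i, p ≤ i → q C i = C) ∧
          ∀ i, (q C i ⊆ U ∧ (q C i).card = N ∧ dense R (q C i) ε = ∅) ∧
            (q C i = q C (i + 1) ∨ Linked R εl (ρ * (N : ℝ)) (q C i) (q C (i + 1))) := by
  classical
  obtain ⟨ρ, hρ, hρ1, εc, hεc, N₀, hlink⟩ := link4 εl hεl
  refine ⟨ρ, hρ, hρ1, εc, hεc, ?_⟩
  intro ε lam hε hεε hlam hlam2
  obtain ⟨σ, hσ, hσ1, n₁, hcl⟩ := clusters_eq ε lam hε hlam (by linarith only [hlam2])
  refine ⟨σ, hσ, hσ1, ⌈1 / σ⌉₊, max n₁ ⌈((N₀ : ℝ) + 1) / σ⌉₊, ?_⟩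
  intro α _ R U hU hF
  have hU1 : n₁ ≤ U.card := (le_max_left _ _).trans hU
  have hU2 : ((N₀ : ℝ) + 1) / σ ≤ (U.card : ℝ) :=
    (Nat.le_ceil _).trans (by exact_mod_cast (le_max_right _ _).trans hU)
  have hU3 : (N₀ : ℝ) + 1 ≤ σ * (U.card : ℝ) := by
    rw [div_le_iff₀ hσ] at hU2
    linarith only [hU2]
  have hN₀ : (0 : ℝ) ≤ (N₀ : ℝ) := Nat.cast_nonneg _
  have hUpos : (0 : ℝ) < (U.card : ℝ) := by
    have h0 : (0 : ℝ) < σ * (U.card : ℝ) := by linarith only [hU3, hN₀]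
    exact (mul_pos_iff_of_pos_left hσ).1 h0
  obtain ⟨N, hN, 𝒞, h1, h2, h3⟩ := hcl R U hU1 hF
  refine ⟨N, hN, ?_⟩
  have hNN : N₀ ≤ N := by
    have : (N₀ : ℝ) ≤ (N : ℝ) := by linarith only [hN, hU3]
    exact_mod_cast this
  have hunion : (𝒞.biUnion id).card = 𝒞.card * N := by
    have e0 : (𝒞.biUnion id).card = ∑ C ∈ 𝒞, (id C : Finset α).card :=
      Finset.card_biUnion fun C hC C' hC' hne => h2 C hC C' hC' hne
    have e0' : ∀ C ∈ 𝒞, (id C : Finset α).card = N := fun C hC => (h1 C hC).2.1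
    rw [e0, Finset.sum_congr rfl e0', Finset.sum_const, smul_eq_mul]
  have hsub : 𝒞.biUnion id ⊆ U := by
    rw [Finset.biUnion_subset]
    exact fun C hC => (h1 C hC).1
  have hcard : 𝒞.card ≤ ⌈1 / σ⌉₊ := by
    have e1 : ((𝒞.card * N : ℕ) : ℝ) ≤ (U.card : ℝ) := by
      rw [← hunion]
      exact_mod_cast Finset.card_le_card hsub
    push_cast at e1
    have e2 : (𝒞.card : ℝ) * (σ * (U.card : ℝ)) ≤ (𝒞.card : ℝ) * (N : ℝ) :=
      mul_le_mul_of_nonneg_left hN (Nat.cast_nonneg _)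
    have e3 : (𝒞.card : ℝ) * σ * (U.card : ℝ) ≤ 1 * (U.card : ℝ) := by linarith only [e1, e2]
    have e4 : (𝒞.card : ℝ) * σ ≤ 1 := le_of_mul_le_mul_right e3 hUpos
    have e5 : (𝒞.card : ℝ) ≤ 1 / σ := by
      rw [le_div_iff₀ hσ]
      exact e4
    exact_mod_cast e5.trans (Nat.le_ceil _)
  have hbig : (1 - lam) * (U.card : ℝ) ≤ ((𝒞.biUnion id).card : ℝ) := by
    have e1 : (U \ 𝒞.biUnion id).card = U.card - (𝒞.biUnion id).card :=
      Finset.card_sdiff_of_subset hsub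
    have e2 : (𝒞.biUnion id).card ≤ U.card := Finset.card_le_card hsub
    have e3 : ((U \ 𝒞.biUnion id).card : ℝ) = (U.card : ℝ) - ((𝒞.biUnion id).card : ℝ) := by
      rw [e1, Nat.cast_sub e2]
    rw [e3] at h3
    linarith only [h3]
  have hne : Nonempty {C // C ∈ 𝒞} := by
    by_contra hcon
    have h𝒞 : 𝒞 = ∅ := by
      rw [Finset.eq_empty_iff_forall_notMem]
      exact fun C hC => hcon ⟨⟨C, hC⟩⟩
    rw [h𝒞] at hbig
    simp only [Finset.biUnion_empty, Finset.card_empty, Nat.cast_zero] at hbig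
    nlinarith only [hbig, hlam2, hUpos]
  let G : SimpleGraph {C // C ∈ 𝒞} :=
    { Adj := fun C C' => C ≠ C' ∧ Linked R εl (ρ * (N : ℝ)) C.1 C'.1
      symm := ⟨fun C C' h => ⟨h.1.symm, h.2.symm⟩⟩
      loopless := ⟨fun C h => h.1 rfl⟩ }
  have hGadj : ∀ C C', G.Adj C C' ↔ C ≠ C' ∧ Linked R εl (ρ * (N : ℝ)) C.1 C'.1 :=
    fun _ _ => Iff.rfl
  obtain ⟨v₀, K, hK, hsum⟩ := comp_third G (by
    intro f hf
    obtain ⟨i, j, hij, hl⟩ := hlink R N hNN (fun i => (f i).1) (fun i => (h1 _ (f i).2).2.1)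
      (fun i j hij => h2 _ (f i).2 _ (f j).2 fun he => hij (hf (Subtype.ext he)))
      (fun i => by
        have e1 := (h1 _ (f i).2).2.2
        rw [Finset.eq_empty_iff_forall_notMem] at e1 ⊢
        intro x hx
        apply e1 x
        rw [mem_dense] at hx ⊢
        exact ⟨hx.1, (mul_le_mul_of_nonneg_right hεε (sq_nonneg _)).trans hx.2⟩)
      (fun hB => by
        obtain ⟨ψ, p1, p2, p3⟩ := hB
        refine hF ⟨ψ, p1, fun x => ?_, p3⟩
        obtain ⟨i, -, hi⟩ := Finset.mem_biUnion.1 (p2 x)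
        exact (h1 _ (f i).2).1 hi)
    exact ⟨i, j, (hGadj _ _).2 ⟨fun he => hij (hf he), hl⟩⟩)
    (fun C => (C.1.card : ℝ)) (fun C => Nat.cast_nonneg _)
  have hKmem : ∀ C ∈ K.image Subtype.val, ∃ h : C ∈ 𝒞, (⟨C, h⟩ : {C // C ∈ 𝒞}) ∈ K := by
    intro C hC
    obtain ⟨v, hv, rfl⟩ := Finset.mem_image.1 hC
    exact ⟨v.2, hv⟩
  have hin : ∀ C ∈ K.image Subtype.val, C ∈ 𝒞 := fun C hC => (hKmem C hC).1
  refine ⟨K.image Subtype.val, ?_, fun C hC => h1 C (hin C hC), fun C hC C' hC' hne' =>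
    h2 C (hin C hC) C' (hin C' hC') hne', ?_, ?_⟩
  · refine (Finset.card_le_card (fun C hC => hin C hC)).trans hcard
  · have e1 : ∑ v : {C // C ∈ 𝒞}, ((v.1.card : ℕ) : ℝ) = ((𝒞.biUnion id).card : ℝ) := by
      have e0 : (𝒞.biUnion id).card = ∑ C ∈ 𝒞, (id C : Finset α).card :=
        Finset.card_biUnion fun C hC C' hC' hne' => h2 C hC C' hC' hne'
      rw [e0]
      push_cast
      exact Finset.sum_coe_sort 𝒞 (fun C => ((C.card : ℕ) : ℝ))
    have e2 : (((K.image Subtype.val).biUnion id).card : ℝ) = ∑ v ∈ K, ((v.1.card : ℕ) : ℝ) := by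
      have e0 : ((K.image Subtype.val).biUnion id).card =
          ∑ C ∈ K.image Subtype.val, (id C : Finset α).card :=
        Finset.card_biUnion fun C hC C' hC' hne' => h2 C (hin C hC) C' (hin C' hC') hne'
      rw [e0]
      push_cast
      rw [Finset.sum_image fun a _ b _ hab => Subtype.ext hab]
      rfl
    rw [e2]
    rw [e1] at hsum
    exact hbig.trans hsum
  · have hq : ∀ C : Finset α, ∃ q : ℕ → Finset α, C ∈ K.image Subtype.val → q 0 = v₀.1 ∧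
        (∀ i, ⌈1 / σ⌉₊ ≤ i → q i = C) ∧
          ∀ i, (q i ⊆ U ∧ (q i).card = N ∧ dense R (q i) ε = ∅) ∧
            (q i = q (i + 1) ∨ Linked R εl (ρ * (N : ℝ)) (q i) (q (i + 1))) := by
      intro C
      by_cases hC : C ∈ K.image Subtype.val
      · obtain ⟨hC𝒞, hCK⟩ := hKmem C hC
        obtain ⟨q, q0, q1, q2⟩ := path_fun G (hK _ hCK)
        refine ⟨fun i => (q i).1, fun _ => ⟨congrArg Subtype.val q0, fun i hi => ?_, fun i => ⟨h1 _ (q i).2, ?_⟩⟩⟩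
        · have e1 : Fintype.card {C // C ∈ 𝒞} ≤ i := by
            rw [Fintype.card_coe]
            exact hcard.trans hi
          show (q i).1 = C
          rw [q1 i e1]
        · rcases q2 i with e1 | e1
          · left
            show (q i).1 = (q (i + 1)).1
            rw [← e1]
          · right
            exact ((hGadj _ _).1 e1).2
      · exact ⟨fun _ => ∅, fun h => absurd h hC⟩
    choose q hq using hq
    exact ⟨v₀.1, q, fun C hC => hq C hC⟩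

end Pool.MP7783b9
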