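import Pool.Agent.H.MP_7783b9_co.W.UpperA
import Pool.Agent.H.MP_7783b9_co.Final
import Pool.Agent.H.MP_7783b9_co.N.Tight

/-!
# The asymptotic value of the Ramsey number of tightly connected hyperfinite 3-graphs
-/

set_option autoImplicit false

open Finset

namespace Pool.MP7783b9

/-- a tightly connected 3-graph is connected -/
theorem FinalA_conn {V : Type*} [DecidableEq V] (E : Finset (Finset V))
    (hne : Nonempty V) (ht : TightConn E) :
    (incidence E).Connected := by
  have hE : ∀ e (he : e ∈ E) e' (he' : e' ∈ E), (incidence E).Reachable (Sum.inr ⟨e, he⟩)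
      (Sum.inr ⟨e', he'⟩) := by
    intro e he e' he'
    have h1 := ht.2 e he e' he'
    have key : ∀ a, Relation.ReflTransGen (fun a b => a ∈ E ∧ b ∈ E ∧ 2 ≤ (a ∩ b).card) e a →
        ∀ ha : a ∈ E, (incidence E).Reachable (Sum.inr ⟨e, he⟩) (Sum.inr ⟨a, ha⟩) := by
      intro a hea
      induction hea with
      | refl => intro _; exact SimpleGraph.Reachable.refl _
      | tail _ hbc ih =>
        intro ha
        have h4 := ih hbc.1
        obtain ⟨x, hx⟩ := Finset.card_pos.1 (lt_of_lt_of_le (by norm_num) hbc.2.2)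
        obtain ⟨hx1, hx2⟩ := Finset.mem_inter.1 hx
        refine h4.trans (SimpleGraph.Reachable.trans (v := Sum.inl x) ?_ ?_)
        · exact SimpleGraph.Adj.reachable (by show x ∈ _; exact hx1)
        · exact SimpleGraph.Adj.reachable (by show x ∈ _; exact hx2)
    exact key e' h1 he'
  have hV : ∀ (v : V) e (he : e ∈ E), (incidence E).Reachable (Sum.inl v) (Sum.inr ⟨e, he⟩) := by
    intro v e he
    obtain ⟨e', he', hv⟩ := ht.1 v
    refine SimpleGraph.Reachable.trans (v := Sum.inr ⟨e', he'⟩) ?_ (hE e' he' e he)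
    exact SimpleGraph.Adj.reachable (by show v ∈ _; exact hv)
  obtain ⟨v₀⟩ := hne
  obtain ⟨e₀, he₀, -⟩ := ht.1 v₀
  rw [SimpleGraph.connected_iff]
  refine ⟨?_, ⟨Sum.inl v₀⟩⟩
  intro a b
  have key : ∀ a, (incidence E).Reachable a (Sum.inr ⟨e₀, he₀⟩) := by
    rintro (v | f)
    · exact hV v e₀ he₀
    · exact hE f.1 f.2 e₀ he₀
  exact (key a).trans (key b).symm

/-- the lower bound from the cyclic template -/
theorem FinalA_low {V : Type*} [Fintype V] [DecidableEq V] (E : Finset (Finset V))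
    (h3 : ∀ f ∈ E, f.card = 3) (hne : Nonempty V) (ht : TightConn E) (I : Finset V)
    (hmax : ∀ J : Finset V, StrongIndep E J → J.card ≤ I.card) (N : ℕ)
    (hN : N ≤ 3 * (Fintype.card V - I.card - 1)) (hlt : I.card < Fintype.card V) :
    ¬ Arrows E N := by
  intro hA
  obtain ⟨f, hf1, hf2⟩ := template_map E h3 N hA
  obtain ⟨i, hi⟩ := tight_indep E h3 hne ht f hf2
  have h1 := hmax _ hi
  have h2 := hf1 i
  have h4 := Finset.card_filter_add_card_filter_not (s := (Finset.univ : Finset V))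
    (fun v => f v = i)
  rw [Finset.card_univ] at h4
  have h5 : (Finset.univ.filter fun v => f v ≠ i).card =
      (Finset.univ.filter fun v => ¬ f v = i).card := rfl
  rw [h5] at h1
  omega

/-- the upper bound (for all hyperfinite 3-graphs) and the lower bound (if the 3-graph is tightly
connected) -/
theorem asym_hf (Δ : ℕ) (K : ℕ → ℕ) (ε : ℝ) (hε : 0 < ε) :
    ∃ n₀ : ℕ, ∀ {V : Type*} [Fintype V] [DecidableEq V] (E : Finset (Finset V))
      (_ : ∀ f ∈ E, f.card = 3) (_ : ∀ x, (edgesAt E x).card ≤ Δ)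
      (_ : Hyperfinite E K) (I : Finset V)
      (_ : StrongIndep E I) (_ : ∀ J : Finset V, StrongIndep E J → J.card ≤ I.card)
      (_ : n₀ ≤ Fintype.card V),
      (ramsey E : ℝ) ≤
        (max (2 * Fintype.card V - 1) (3 * (Fintype.card V - I.card) - 2) : ℕ) +
          ε * (Fintype.card V : ℝ) ∧
      (TightConn E →
        max (2 * Fintype.card V - 1) (3 * (Fintype.card V - I.card) - 2) ≤ ramsey E) := by
  obtain ⟨δ, hδ⟩ : ∃ δ : ℝ, δ = min ε 1 / 2 := ⟨_, rfl⟩
  have hδ0 : 0 < δ := by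
    rw [hδ]
    have : 0 < min ε 1 := lt_min hε one_pos
    linarith only [this]
  have hδε : 2 * δ ≤ ε := by
    rw [hδ]
    have := min_le_left ε 1
    linarith only [this]
  have hδ1 : δ ≤ 1 / 2 := by
    rw [hδ]
    have := min_le_right ε 1
    linarith only [this]
  obtain ⟨n₀, hn₀⟩ := upper_af Δ K δ hδ0
  obtain ⟨n₁, hn₁⟩ : ∃ n₁ : ℕ, 8 / δ ≤ n₁ := exists_nat_ge _
  rw [div_le_iff₀ hδ0] at hn₁
  refine ⟨n₀ + n₁ + 1, ?_⟩
  intro V _ _ E h3 hdeg hK I hI hmax hn
  have hne : Nonempty V := by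
    rw [← Fintype.card_pos_iff]
    omega
  obtain ⟨n, hnn⟩ : ∃ n : ℕ, n = Fintype.card V := ⟨_, rfl⟩
  have hleI : I.card ≤ Fintype.card V := Finset.card_le_univ I
  rw [← hnn] at hn hleI
  obtain ⟨M, hM⟩ : ∃ M : ℕ, M = max (2 * n - 1) (3 * (n - I.card) - 2) := ⟨_, rfl⟩
  rw [← hnn, ← hM]
  have hδn : 8 ≤ δ * n := by
    have h1 : (n₁ : ℝ) ≤ n := by exact_mod_cast (by omega : n₁ ≤ n)
    have h2 := mul_le_mul_of_nonneg_right h1 hδ0.le
    linarith only [h2, hn₁]
  have hn0 : (0 : ℝ) ≤ n := Nat.cast_nonneg n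
  -- a smaller strongly independent set
  obtain ⟨I₀, hI₀, hI₀c⟩ := Finset.exists_subset_card_eq (show min I.card (n / 3) ≤ I.card from
    min_le_left _ _)
  have hI₀s : StrongIndep E I₀ := fun e he =>
    (Finset.card_le_card (Finset.inter_subset_inter_left hI₀)).trans (hI e he)
  have hMI : 3 * (n - I₀.card) ≤ M + 3 := by
    rw [hI₀c, hM]
    omega
  have hM3 : M ≤ 3 * n := by
    rw [hM]
    omega
  obtain ⟨N, hN⟩ : ∃ N : ℕ, N = ⌊(M : ℝ) + 2 * δ * n⌋₊ := ⟨_, rfl⟩
  have hpos : 0 ≤ (M : ℝ) + 2 * δ * n := by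
    have h1 : 0 ≤ δ * (n : ℝ) := mul_nonneg hδ0.le hn0
    have h2 : (0 : ℝ) ≤ M := Nat.cast_nonneg M
    linarith only [h1, h2]
  have hNu : (N : ℝ) ≤ (M : ℝ) + 2 * δ * n := by
    rw [hN]
    exact Nat.floor_le hpos
  have hNl : (M : ℝ) + 2 * δ * n - 1 < N := by
    rw [hN]
    exact Nat.sub_one_lt_floor _
  have hle : I₀.card ≤ n := by
    rw [hI₀c]
    omega
  have hMIr : 3 * ((n : ℝ) - I₀.card) ≤ M + 3 := by
    have h1 : ((3 * (n - I₀.card) : ℕ) : ℝ) ≤ ((M + 3 : ℕ) : ℝ) := by exact_mod_cast hMI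
    push_cast [Nat.cast_sub hle] at h1
    exact h1
  have hM3r : (M : ℝ) ≤ 3 * n := by exact_mod_cast hM3
  have hA : Arrows E N := by
    apply arrows_of
    intro R
    have hyp : Hyp (Finset.univ : Finset V) E Δ := ⟨h3, fun f _ => Finset.subset_univ f, hdeg⟩
    refine hn₀ E hyp hK I₀ hI₀s ?_ (by omega) R Finset.univ ?_ ?_
    · rw [hI₀c, ← hnn]
      omega
    · rw [Finset.card_univ, Fintype.card_fin, ← hnn]
      linarith only [hNl, hMIr, hδn]
    · rw [Finset.card_univ, Fintype.card_fin, ← hnn]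
      have h1 := mul_le_mul_of_nonneg_right hδ1 hn0
      linarith only [hNu, hM3r, h1, hn0]
  constructor
  · have h1 : ramsey E ≤ N := Nat.sInf_le hA
    have h2 : (ramsey E : ℝ) ≤ N := by exact_mod_cast h1
    have h4 := mul_le_mul_of_nonneg_right hδε hn0
    linarith only [h2, hNu, h4]
  · intro ht
    have hc := FinalA_conn E hne ht
    have hlt : I.card < n := by
      obtain ⟨v⟩ := hne
      obtain ⟨e, he, -⟩ := ht.1 v
      have h1 := hI e he
      have h2 := h3 e he
      have h4 : I ⊂ Finset.univ := by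
        rw [Finset.ssubset_univ_iff]
        intro hcon
        rw [hcon, Finset.inter_univ] at h1
        omega
      have := Finset.card_lt_card h4
      rwa [Finset.card_univ, ← hnn] at this
    have hlow : ∀ m, m < M → ¬ Arrows E m := by
      intro m hm
      rcases Nat.lt_or_ge m (2 * n - 1) with h1 | h1
      · apply not_arrows_of_connected E h3 hc
        omega
      · apply FinalA_low E h3 hne ht I hmax
        · rw [hM] at hm
          omega
        · omega
    by_contra hcon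
    push Not at hcon
    exact hlow _ hcon (Nat.sInf_mem (⟨N, hA⟩ : {N | Arrows E N}.Nonempty))

end Pool.MP7783b9
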