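import Pool.Agent.H.MP_7783b9_co.W.UpperW
import Pool.Agent.H.MP_7783b9_co.Final

/-!
# Hyperfinite 3-graphs with a large strongly independent set are Fano-good
-/

set_option autoImplicit false

open Finset

namespace Pool.MP7783b9

/-- the value of the Ramsey number -/
private theorem FinalW_ramsey_eq {V : Type*} [Fintype V] [DecidableEq V] (E : Finset (Finset V))
    (n : ℕ) (h1 : Arrows E n) (h2 : ∀ m, m < n → ¬ Arrows E m) : ramsey E = n := by
  unfold ramsey
  apply le_antisymm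
  · exact Nat.sInf_le h1
  · by_contra hlt
    push Not at hlt
    have hne : {N | Arrows E N}.Nonempty := ⟨n, h1⟩
    exact h2 _ hlt (Nat.sInf_mem hne)

theorem good_hf (Δ : ℕ) (K : ℕ → ℕ) (δ : ℝ) (hδ : 0 < δ) :
    ∃ n₀ : ℕ, ∀ {V : Type*} [Fintype V] [DecidableEq V] (E : Finset (Finset V))
      (_ : ∀ f ∈ E, f.card = 3) (_ : ∀ x, (edgesAt E x).card ≤ Δ)
      (_ : (incidence E).Connected) (_ : Hyperfinite E K) (I : Finset V)
      (_ : StrongIndep E I) (_ : (1 / 3 + δ) * (Fintype.card V : ℝ) ≤ (I.card : ℝ))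
      (_ : n₀ ≤ Fintype.card V), FanoGood E := by
  obtain ⟨n₀, hn₀⟩ := upper_hf Δ K δ hδ
  refine ⟨n₀ + 1, ?_⟩
  intro V _ _ E h3 hdeg hc hK I hI hIc hn
  have hyp : Hyp (Finset.univ : Finset V) E Δ := ⟨h3, fun f _ => Finset.subset_univ f, hdeg⟩
  unfold FanoGood
  apply FinalW_ramsey_eq
  · apply arrows_of
    intro R
    apply hn₀ E hyp hK I hI hIc (by omega) R Finset.univ
    rw [Finset.card_univ, Fintype.card_fin]
    omega
  · intro m hm
    apply not_arrows_of_connected E h3 hc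
    omega

end Pool.MP7783b9
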