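import Pool.Agent.H.MP_7783b9_co.W.Greedy

/-!
# Embedding the separating vertices and the walks between clusters
-/

set_option autoImplicit false

open Finset

namespace Pool.MP7783b9

/-- The vertices with `d x < 3 p + 3` are near the second separator; a vertex `x` belongs to the
cluster `q (c x) (d x / 3)`.  The free vertices are those of `S₁` and those with
`d x < 3 p + 3`. -/
theorem join_hf {V : Type*} {α : Type} [Fintype V] [DecidableEq V] [DecidableEq α]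
    (E : Finset (Finset V)) (Δ : ℕ) (hH : Hyp Finset.univ E Δ) (R : Finset α → Prop)
    (U : Finset α) (p : ℕ) (d c : V → ℕ) (S₁ : Finset V) (hdD : ∀ x, d x ≤ 3 * p + 3)
    (hd : ∀ f ∈ E, ∀ x ∈ f, ∀ y ∈ f, d y ≤ d x + 1)
    (hc : ∀ f ∈ E, ∀ x ∈ f, ∀ y ∈ f, 0 < d x → 0 < d y → c x = c y)
    -- the clusters on the way to the cluster of the label `k`
    (q : ℕ → ℕ → Finset α) (C₀ : Finset α) (hq0 : ∀ k, q k 0 = C₀)
    (hqp : ∀ k i, p ≤ i → q k i = q k p) (N : ℕ) (ε η : ℝ) (hε : 0 < ε) (hη : 0 < η)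
    (hq : ∀ k i, q k i ⊆ U ∧ (q k i).card = N ∧ dense R (q k i) ε = ∅)
    (hqd : ∀ k k', q k p ≠ q k' p → Disjoint (q k p) (q k' p))
    -- the sparse unions between consecutive clusters
    (LA LA' : Finset α → Finset α → Finset α) (εl ηl m : ℝ) (hεl : 0 < εl) (hηl : 0 < ηl)
    (hm : m ≤ (N : ℝ))
    (hL : ∀ k i, q k i ≠ q k (i + 1) → LA (q k i) (q k (i + 1)) ⊆ q k i ∧
      LA' (q k i) (q k (i + 1)) ⊆ q k (i + 1) ∧
      (LA (q k i) (q k (i + 1))).card = (LA' (q k i) (q k (i + 1))).card ∧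
      m ≤ ((LA (q k i) (q k (i + 1))).card : ℝ) ∧
      dense R (LA (q k i) (q k (i + 1)) ∪ LA' (q k i) (q k (i + 1))) εl = ∅)
    -- the reserved set
    (Z : Finset α) (ζ : ℝ) (hζ : 0 < ζ) (hZ1 : ∀ k i, ζ * (N : ℝ) / 2 ≤ ((Z ∩ q k i).card : ℝ))
    (hZ2 : ∀ k i, q k i ≠ q k (i + 1) →
      ζ * ((LA (q k i) (q k (i + 1))).card : ℝ) / 2 ≤
        ((Z ∩ LA (q k i) (q k (i + 1))).card : ℝ) ∧
      ζ * ((LA' (q k i) (q k (i + 1))).card : ℝ) / 2 ≤
        ((Z ∩ LA' (q k i) (q k (i + 1))).card : ℝ))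
    -- bounds for the number of forbidden points
    (β βl : ℝ) (hβ0 : 0 ≤ β) (hβ1 : ε / η * (N : ℝ) ≤ β) (hβ2 : η * (N : ℝ) ≤ β)
    (hβl : εl / ηl ≤ βl) (hβl2 : ηl ≤ βl) (hβl3 : 24 * (Δ : ℝ) * βl ≤ ζ)
    (hnum : ((Finset.univ.filter fun x => d x < 3 * p + 3).card : ℝ) + 3 * Δ * β < ζ * m / 4)
    -- the free parts of the clusters
    (Fr : Finset α → Finset α) (hFr1 : ∀ k, Fr (q k p) ⊆ q k p)
    (hFr2 : ∀ k, Disjoint (Fr (q k p)) Z)
    (hFr3 : ∀ k, ((S₁.filter fun x => d x = 3 * p + 3 ∧ q (c x) p = q k p).card : ℝ) +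
      3 * Δ * β < ((Fr (q k p)).card : ℝ))
    -- the embedding of the other vertices
    (φ₀ : V → α) (hinj : Set.InjOn φ₀ {x | x ∉ S₁ ∧ d x = 3 * p + 3})
    (hφ1 : ∀ f ∈ E, (∃ x ∈ f, x ∈ S₁ ∨ d x < 3 * p + 3) → ∀ y ∈ f, y ∉ S₁ →
      d y = 3 * p + 3 → φ₀ y ∈ q (c y) p)
    (hφ2 : ∀ f ∈ E, (∃ x ∈ f, x ∈ S₁ ∨ d x < 3 * p + 3) → ∀ y ∈ f, y ∉ S₁ →
      d y = 3 * p + 3 → ∀ y' ∈ f, y' ∉ S₁ → d y' = 3 * p + 3 → y ≠ y' →
      ((cod R (q (c y) p) (φ₀ y) (φ₀ y')).card : ℝ) < η * (N : ℝ))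
    (hφ3 : ∀ y, y ∉ S₁ → d y = 3 * p + 3 → φ₀ y ∉ Z ∧ ∀ k, φ₀ y ∉ Fr (q k p)) :
    ∃ φ : V → α, Function.Injective φ ∧ (∀ x, x ∉ S₁ → d x = 3 * p + 3 → φ x = φ₀ x) ∧
      (∀ x, x ∈ S₁ ∨ d x < 3 * p + 3 → φ x ∈ U) ∧
      ∀ f ∈ E, (∃ x ∈ f, x ∈ S₁ ∨ d x < 3 * p + 3) → R (f.image φ) := by
  classical
  set S : Finset V := Finset.univ.filter fun x => x ∈ S₁ ∨ d x < 3 * p + 3 with hS
  have memS : ∀ x, x ∈ S ↔ x ∈ S₁ ∨ d x < 3 * p + 3 := by
    intro x
    rw [hS, Finset.mem_filter]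
    exact ⟨fun h => h.2, fun h => ⟨Finset.mem_univ x, h⟩⟩
  have hβl0 : 0 < βl := lt_of_lt_of_le hηl hβl2
  let T : V → Finset α := fun x =>
    if d x = 3 * p + 3 then Fr (q (c x) p)
    else if d x % 3 = 2 ∧ q (c x) (d x / 3) ≠ q (c x) (d x / 3 + 1) then
      Z ∩ LA (q (c x) (d x / 3)) (q (c x) (d x / 3 + 1))
    else if d x % 3 = 0 ∧ 0 < d x ∧ q (c x) (d x / 3 - 1) ≠ q (c x) (d x / 3 - 1 + 1) then
      Z ∩ LA' (q (c x) (d x / 3 - 1)) (q (c x) (d x / 3 - 1 + 1))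
    else Z ∩ q (c x) (d x / 3)
  let b : V → ℝ := fun x =>
    if d x = 3 * p + 3 then β
    else if d x % 3 = 2 ∧ q (c x) (d x / 3) ≠ q (c x) (d x / 3 + 1) then
      β + 2 * βl * ((LA (q (c x) (d x / 3)) (q (c x) (d x / 3 + 1))).card : ℝ)
    else if d x % 3 = 0 ∧ 0 < d x ∧ q (c x) (d x / 3 - 1) ≠ q (c x) (d x / 3 - 1 + 1) then
      β + 2 * βl * ((LA' (q (c x) (d x / 3 - 1)) (q (c x) (d x / 3 - 1 + 1))).card : ℝ)
    else β
  have hcase : ∀ x, (d x = 3 * p + 3 ∧ T x = Fr (q (c x) p) ∧ b x = β) ∨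
      (d x ≠ 3 * p + 3 ∧ (d x % 3 = 2 ∧ q (c x) (d x / 3) ≠ q (c x) (d x / 3 + 1)) ∧
        T x = Z ∩ LA (q (c x) (d x / 3)) (q (c x) (d x / 3 + 1)) ∧
        b x = β + 2 * βl * ((LA (q (c x) (d x / 3)) (q (c x) (d x / 3 + 1))).card : ℝ)) ∨
      (d x ≠ 3 * p + 3 ∧
        (d x % 3 = 0 ∧ 0 < d x ∧ q (c x) (d x / 3 - 1) ≠ q (c x) (d x / 3 - 1 + 1)) ∧
        T x = Z ∩ LA' (q (c x) (d x / 3 - 1)) (q (c x) (d x / 3 - 1 + 1)) ∧
        b x = β + 2 * βl *
          ((LA' (q (c x) (d x / 3 - 1)) (q (c x) (d x / 3 - 1 + 1))).card : ℝ)) ∨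
      (d x ≠ 3 * p + 3 ∧ ¬(d x % 3 = 2 ∧ q (c x) (d x / 3) ≠ q (c x) (d x / 3 + 1)) ∧
        ¬(d x % 3 = 0 ∧ 0 < d x ∧ q (c x) (d x / 3 - 1) ≠ q (c x) (d x / 3 - 1 + 1)) ∧
        T x = Z ∩ q (c x) (d x / 3) ∧ b x = β) := by
    intro x
    by_cases h1 : d x = 3 * p + 3
    · exact Or.inl ⟨h1, if_pos h1, if_pos h1⟩
    by_cases h2 : d x % 3 = 2 ∧ q (c x) (d x / 3) ≠ q (c x) (d x / 3 + 1)
    · exact Or.inr (Or.inl ⟨h1, h2, (if_neg h1).trans (if_pos h2),
        (if_neg h1).trans (if_pos h2)⟩)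
    by_cases h3 : d x % 3 = 0 ∧ 0 < d x ∧ q (c x) (d x / 3 - 1) ≠ q (c x) (d x / 3 - 1 + 1)
    · exact Or.inr (Or.inr (Or.inl ⟨h1, h3, (if_neg h1).trans ((if_neg h2).trans (if_pos h3)),
        (if_neg h1).trans ((if_neg h2).trans (if_pos h3))⟩))
    · exact Or.inr (Or.inr (Or.inr ⟨h1, h2, h3,
        (if_neg h1).trans ((if_neg h2).trans (if_neg h3)),
        (if_neg h1).trans ((if_neg h2).trans (if_neg h3))⟩))
  clear_value T b
  -- the top cluster
  have htop : ∀ x, d x = 3 * p + 3 → q (c x) (d x / 3) = q (c x) p := by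
    intro x hx
    exact hqp _ _ (by omega)
  have hTq : ∀ x, T x ⊆ q (c x) (d x / 3) := by
    intro x
    rcases hcase x with ⟨h1, h2, _⟩ | ⟨h1, h2, h3, _⟩ | ⟨h1, h2, h3, _⟩ | ⟨h1, _, _, h3, _⟩
    · rw [h2, htop x h1]
      exact hFr1 (c x)
    · rw [h3]
      exact Finset.inter_subset_right.trans (hL _ _ h2.2).1
    · rw [h3]
      have h4 := (hL _ _ h2.2.2).2.1
      have h5 : d x / 3 - 1 + 1 = d x / 3 := by
        have := h2.1
        have := h2.2.1
        omega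
      rw [h5] at h4 ⊢
      exact Finset.inter_subset_right.trans h4
    · rw [h3]
      exact Finset.inter_subset_right
  have hbβ : ∀ x, β ≤ b x := by
    intro x
    rcases hcase x with ⟨_, _, h2⟩ | ⟨_, _, _, h2⟩ | ⟨_, _, _, h2⟩ | ⟨_, _, _, _, h2⟩
    · exact h2.ge
    · rw [h2]
      have : 0 ≤ 2 * βl * ((LA (q (c x) (d x / 3)) (q (c x) (d x / 3 + 1))).card : ℝ) :=
        mul_nonneg (mul_nonneg (by norm_num) hβl0.le) (Nat.cast_nonneg _)
      linarith only [this]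
    · rw [h2]
      have : 0 ≤ 2 * βl *
          ((LA' (q (c x) (d x / 3 - 1)) (q (c x) (d x / 3 - 1 + 1))).card : ℝ) :=
        mul_nonneg (mul_nonneg (by norm_num) hβl0.le) (Nat.cast_nonneg _)
      linarith only [this]
    · exact h2.ge
  have hTZ : ∀ x, d x ≠ 3 * p + 3 → T x ⊆ Z := by
    intro x hx
    rcases hcase x with ⟨h1, _, _⟩ | ⟨_, _, h3, _⟩ | ⟨_, _, h3, _⟩ | ⟨_, _, _, h3, _⟩
    · exact absurd h1 hx
    · rw [h3]
      exact Finset.inter_subset_left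
    · rw [h3]
      exact Finset.inter_subset_left
    · rw [h3]
      exact Finset.inter_subset_left
  have hTF : ∀ x, d x = 3 * p + 3 → T x = Fr (q (c x) p) ∧ b x = β := by
    intro x hx
    rcases hcase x with ⟨_, h2, h3⟩ | ⟨h1, _⟩ | ⟨h1, _⟩ | ⟨h1, _⟩
    · exact ⟨h2, h3⟩
    · exact absurd hx h1
    · exact absurd hx h1
    · exact absurd hx h1
  have notS : ∀ x, x ∉ S → x ∉ S₁ ∧ d x = 3 * p + 3 := by
    intro x hx
    rw [memS] at hx
    push Not at hx
    exact ⟨hx.1, le_antisymm (hdD x) hx.2⟩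
  have hφ : ∀ x ∉ S, ∀ s ∈ S, φ₀ x ∉ T s := by
    intro x hx s _ hxs
    obtain ⟨h1, h2⟩ := notS x hx
    obtain ⟨h3, h4⟩ := hφ3 x h1 h2
    by_cases h5 : d s = 3 * p + 3
    · rw [(hTF s h5).1] at hxs
      exact h4 _ hxs
    · exact h3 (hTZ s h5 hxs)
  have hf : ∀ f ∈ E, (f ∩ S).Nonempty → ∃ (W : Finset α) (ε η : ℝ), 0 < ε ∧ 0 < η ∧
      dense R W ε = ∅ ∧
      (∀ s ∈ f, s ∈ S → T s ⊆ W ∧ ε / η * (W.card : ℝ) ≤ b s ∧ η * (W.card : ℝ) ≤ b s) ∧
      (∀ y ∈ f, y ∉ S → φ₀ y ∈ W) ∧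
      (∀ y ∈ f, y ∉ S → ∀ y' ∈ f, y' ∉ S → y ≠ y' →
        ((cod R W (φ₀ y) (φ₀ y')).card : ℝ) < η * (W.card : ℝ)) := by
    intro f hfE hne
    have hex : ∃ x ∈ f, x ∈ S₁ ∨ d x < 3 * p + 3 := by
      obtain ⟨x, hx⟩ := hne
      rw [Finset.mem_inter] at hx
      exact ⟨x, hx.1, (memS x).1 hx.2⟩
    by_cases hcr : ∃ x ∈ f, ∃ y ∈ f, d x % 3 = 2 ∧ d y = d x + 1 ∧
        q (c x) (d x / 3) ≠ q (c x) (d x / 3 + 1)
    · -- the crossing case
      obtain ⟨x, hx, y, hy, hm2, hy1, hneq⟩ := hcr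
      have hip : d x / 3 < p := by
        by_contra hcon
        push Not at hcon
        apply hneq
        rw [hqp _ _ hcon, hqp _ _ (le_trans hcon (Nat.le_succ _))]
      obtain ⟨l1, l2, l3, l4, l5⟩ := hL _ _ hneq
      set A := LA (q (c x) (d x / 3)) (q (c x) (d x / 3 + 1)) with hA
      set A' := LA' (q (c x) (d x / 3)) (q (c x) (d x / 3 + 1)) with hA'
      have hlev : ∀ z ∈ f, (d z = d x ∨ d z = d x + 1) ∧ c z = c x := by
        intro z hz
        have h1 := hd f hfE x hx z hz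
        have h2 := hd f hfE z hz y hy
        refine ⟨by omega, hc f hfE z hz x hx (by omega) (by omega)⟩
      have hspec : ∀ z ∈ f, d z < 3 * p + 3 := by
        intro z hz
        have := (hlev z hz).1
        omega
      have hWc : ((A ∪ A').card : ℝ) ≤ 2 * (A.card : ℝ) := by
        have h1 : (A ∪ A').card ≤ A.card + A'.card := Finset.card_union_le _ _
        rw [← l3] at h1
        have h2 : ((A ∪ A').card : ℝ) ≤ ((A.card + A.card : ℕ) : ℝ) := by exact_mod_cast h1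
        push_cast at h2
        linarith only [h2]
      have hW0 : (0 : ℝ) ≤ ((A ∪ A').card : ℝ) := Nat.cast_nonneg _
      have hb1 : εl / ηl * ((A ∪ A').card : ℝ) ≤ β + 2 * βl * (A.card : ℝ) := by
        have h1 : εl / ηl * ((A ∪ A').card : ℝ) ≤ βl * ((A ∪ A').card : ℝ) :=
          mul_le_mul_of_nonneg_right hβl hW0
        have h2 : βl * ((A ∪ A').card : ℝ) ≤ βl * (2 * (A.card : ℝ)) :=
          mul_le_mul_of_nonneg_left hWc hβl0.le
        linarith only [h1, h2, hβ0]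
      have hb2 : ηl * ((A ∪ A').card : ℝ) ≤ β + 2 * βl * (A.card : ℝ) := by
        have h1 : ηl * ((A ∪ A').card : ℝ) ≤ βl * ((A ∪ A').card : ℝ) :=
          mul_le_mul_of_nonneg_right hβl2 hW0
        have h2 : βl * ((A ∪ A').card : ℝ) ≤ βl * (2 * (A.card : ℝ)) :=
          mul_le_mul_of_nonneg_left hWc hβl0.le
        linarith only [h1, h2, hβ0]
      refine ⟨A ∪ A', εl, ηl, hεl, hηl, l5, ?_, ?_, ?_⟩
      · intro z hz _
        obtain ⟨hz1, hz2⟩ := hlev z hz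
        have hz3 := hspec z hz
        rcases hz1 with hz1 | hz1
        · rcases hcase z with ⟨h1, _⟩ | ⟨_, _, h3, h4⟩ | ⟨_, h2, _⟩ | ⟨_, h2, _⟩
          · omega
          · rw [hz2, hz1] at h3 h4
            rw [h3, h4]
            exact ⟨Finset.inter_subset_right.trans Finset.subset_union_left, hb1, hb2⟩
          · have := h2.1
            omega
          · exfalso
            apply h2
            rw [hz2, hz1]
            exact ⟨hm2, hneq⟩
        · have e1 : d z / 3 - 1 = d x / 3 := by omega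
          rcases hcase z with ⟨h1, _⟩ | ⟨_, h2, _⟩ | ⟨_, _, h3, h4⟩ | ⟨_, _, h2, _⟩
          · omega
          · have := h2.1
            omega
          · rw [hz2, e1] at h3 h4
            rw [h3, h4, ← hA', ← l3]
            exact ⟨Finset.inter_subset_right.trans Finset.subset_union_right, hb1, hb2⟩
          · exfalso
            apply h2
            rw [hz2, e1]
            exact ⟨by omega, by omega, hneq⟩
      · intro z hz hzS
        exact absurd ((memS z).2 (Or.inr (hspec z hz))) hzS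
      · intro z hz hzS
        exact absurd ((memS z).2 (Or.inr (hspec z hz))) hzS
    · -- all vertices in one cluster
      have hex' := hex
      obtain ⟨x₀, hx₀, _⟩ := hex'
      have hsame : ∀ z ∈ f, q (c z) (d z / 3) = q (c x₀) (d x₀ / 3) := by
        intro z hz
        have h1 := hd f hfE x₀ hx₀ z hz
        have h2 := hd f hfE z hz x₀ hx₀
        by_cases hpos : 0 < d z ∧ 0 < d x₀
        · have hcz := hc f hfE z hz x₀ hx₀ hpos.1 hpos.2
          by_cases he : d z / 3 = d x₀ / 3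
          · rw [hcz, he]
          · have h3 : (d z = d x₀ + 1 ∧ d x₀ % 3 = 2) ∨ (d x₀ = d z + 1 ∧ d z % 3 = 2) := by
              omega
            rcases h3 with ⟨h3, h4⟩ | ⟨h3, h4⟩
            · by_contra hcon
              apply hcr
              refine ⟨x₀, hx₀, z, hz, h4, h3, ?_⟩
              intro h5
              apply hcon
              have h6 : d z / 3 = d x₀ / 3 + 1 := by omega
              rw [hcz, h6]
              exact h5.symm
            · by_contra hcon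
              apply hcr
              refine ⟨z, hz, x₀, hx₀, h4, h3, ?_⟩
              intro h5
              apply hcon
              have h6 : d x₀ / 3 = d z / 3 + 1 := by omega
              rw [h5, hcz, h6]
        · have h3 : d z / 3 = 0 ∧ d x₀ / 3 = 0 := by omega
          rw [h3.1, h3.2, hq0, hq0]
      obtain ⟨g1, g2, g3⟩ := hq (c x₀) (d x₀ / 3)
      have hWtop : ∀ y ∈ f, y ∉ S → q (c y) p = q (c x₀) (d x₀ / 3) := by
        intro y hy hyS
        rw [← htop y (notS y hyS).2]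
        exact hsame y hy
      refine ⟨q (c x₀) (d x₀ / 3), ε, η, hε, hη, g3, ?_, ?_, ?_⟩
      · intro z hz _
        rw [g2]
        refine ⟨?_, hβ1.trans (hbβ z), hβ2.trans (hbβ z)⟩
        rw [← hsame z hz]
        exact hTq z
      · intro y hy hyS
        rw [← hWtop y hy hyS]
        exact hφ1 f hfE hex y hy (notS y hyS).1 (notS y hyS).2
      · intro y hy hyS y' hy' hyS' hyy
        rw [g2, ← hWtop y hy hyS]
        exact hφ2 f hfE hex y hy (notS y hyS).1 (notS y hyS).2 y' hy' (notS y' hyS').1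
          (notS y' hyS').2 hyy
  have hinj' : Set.InjOn φ₀ {x | x ∉ S} := by
    refine hinj.mono ?_
    intro x hx
    exact notS x hx
  have hN0 : (0 : ℝ) ≤ (N : ℝ) := Nat.cast_nonneg _
  have hΔ0 : (0 : ℝ) ≤ (Δ : ℝ) := Nat.cast_nonneg _
  have hT : ∀ s ∈ S, ((S.filter fun s' => ¬ Disjoint (T s) (T s')).card : ℝ) + 3 * Δ * b s
      < ((T s).card : ℝ) := by
    intro s hs
    by_cases h1 : d s = 3 * p + 3
    · obtain ⟨h2, h3⟩ := hTF s h1
      have hsub : (S.filter fun s' => ¬ Disjoint (T s) (T s')) ⊆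
          S₁.filter fun x => d x = 3 * p + 3 ∧ q (c x) p = q (c s) p := by
        intro s' hs'
        rw [Finset.mem_filter] at hs' ⊢
        obtain ⟨hs1, hs2⟩ := hs'
        have h4 : d s' = 3 * p + 3 := by
          by_contra hcon
          apply hs2
          rw [h2]
          exact Finset.disjoint_of_subset_right (hTZ s' hcon) (hFr2 (c s))
        have h5 : s' ∈ S₁ := by
          rcases (memS s').1 hs1 with h | h
          · exact h
          · omega
        refine ⟨h5, h4, ?_⟩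
        by_contra hcon
        apply hs2
        rw [h2, (hTF s' h4).1]
        exact Finset.disjoint_of_subset_left (hFr1 (c s))
          (Finset.disjoint_of_subset_right (hFr1 (c s')) (hqd _ _ (fun h => hcon h.symm)))
      have hcard : ((S.filter fun s' => ¬ Disjoint (T s) (T s')).card : ℝ) ≤
          ((S₁.filter fun x => d x = 3 * p + 3 ∧ q (c x) p = q (c s) p).card : ℝ) := by
        exact_mod_cast Finset.card_le_card hsub
      have h4 := hFr3 (c s)
      rw [h2] at hcard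
      rw [h2, h3]
      linarith only [hcard, h4]
    · have hsub : (S.filter fun s' => ¬ Disjoint (T s) (T s')) ⊆
          Finset.univ.filter fun x => d x < 3 * p + 3 := by
        intro s' hs'
        rw [Finset.mem_filter] at hs' ⊢
        refine ⟨Finset.mem_univ _, ?_⟩
        by_contra hcon
        have h4 : d s' = 3 * p + 3 := by
          have := hdD s'
          omega
        apply hs'.2
        rw [(hTF s' h4).1]
        exact (Finset.disjoint_of_subset_right (hTZ s h1) (hFr2 (c s'))).symm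
      have hcard : ((S.filter fun s' => ¬ Disjoint (T s) (T s')).card : ℝ) ≤
          ((Finset.univ.filter fun x => d x < 3 * p + 3).card : ℝ) := by
        exact_mod_cast Finset.card_le_card hsub
      rcases hcase s with ⟨h2, _⟩ | ⟨_, h2, h3, h4⟩ | ⟨_, h2, h3, h4⟩ | ⟨_, _, _, h3, h4⟩
      · exact absurd h2 h1
      · obtain ⟨l1, l2, l3, l4, l5⟩ := hL _ _ h2.2
        have hz := (hZ2 _ _ h2.2).1
        rw [h3] at hcard
        rw [h3, h4]
        set A := LA (q (c s) (d s / 3)) (q (c s) (d s / 3 + 1)) with hA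
        have hA0 : (0 : ℝ) ≤ (A.card : ℝ) := Nat.cast_nonneg _
        have k1 : 24 * (Δ : ℝ) * βl * (A.card : ℝ) ≤ ζ * (A.card : ℝ) :=
          mul_le_mul_of_nonneg_right hβl3 hA0
        have k2 : ζ * m ≤ ζ * (A.card : ℝ) := mul_le_mul_of_nonneg_left l4 hζ.le
        have k3 : 3 * (Δ : ℝ) * (β + 2 * βl * (A.card : ℝ)) =
            3 * (Δ : ℝ) * β + (24 * (Δ : ℝ) * βl * (A.card : ℝ)) / 4 := by ring
        rw [k3]
        linarith only [k1, k2, hz, hnum, hcard]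
      · obtain ⟨l1, l2, l3, l4, l5⟩ := hL _ _ h2.2.2
        have hz := (hZ2 _ _ h2.2.2).2
        rw [h3] at hcard
        rw [h3, h4]
        rw [l3] at l4
        set A := LA' (q (c s) (d s / 3 - 1)) (q (c s) (d s / 3 - 1 + 1)) with hA
        have hA0 : (0 : ℝ) ≤ (A.card : ℝ) := Nat.cast_nonneg _
        have k1 : 24 * (Δ : ℝ) * βl * (A.card : ℝ) ≤ ζ * (A.card : ℝ) :=
          mul_le_mul_of_nonneg_right hβl3 hA0
        have k2 : ζ * m ≤ ζ * (A.card : ℝ) := mul_le_mul_of_nonneg_left l4 hζ.le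
        have k3 : 3 * (Δ : ℝ) * (β + 2 * βl * (A.card : ℝ)) =
            3 * (Δ : ℝ) * β + (24 * (Δ : ℝ) * βl * (A.card : ℝ)) / 4 := by ring
        rw [k3]
        linarith only [k1, k2, hz, hnum, hcard]
      · have hz := hZ1 (c s) (d s / 3)
        rw [h3] at hcard
        rw [h3, h4]
        have k2 : ζ * m ≤ ζ * (N : ℝ) := mul_le_mul_of_nonneg_left hm hζ.le
        have k3 : 0 ≤ ζ * (N : ℝ) := mul_nonneg hζ.le hN0
        linarith only [k2, k3, hz, hnum, hcard]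
  obtain ⟨φ, p1, p2, p3, p4⟩ := greedy_sep E Δ hH.three hH.deg R S T φ₀ b
    (fun s => hβ0.trans (hbβ s)) hφ hf hinj' hT
  refine ⟨φ, p3, ?_, ?_, ?_⟩
  · intro x hx hx'
    apply p1
    rw [memS]
    rintro (h | h)
    · exact hx h
    · omega
  · intro x hx
    exact (hq _ _).1 (hTq x (p2 x ((memS x).2 hx)))
  · rintro f hfE ⟨x, hx, hx'⟩
    exact p4 f hfE ⟨x, Finset.mem_inter.2 ⟨hx, (memS x).2 hx'⟩⟩

end Pool.MP7783b9
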