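import Pool.Agent.H.MP_7783b9_co.B.Far

/-!
# The distance from a small set
-/

set_option autoImplicit false

open Finset

namespace Pool.MP7783b9

private def Levels_B {V : Type*} [DecidableEq V] (E : Finset (Finset V)) (S : Finset V) :
    ℕ → Finset V
  | 0 => S
  | j + 1 => (Levels_B E S j).biUnion (nbc E)

private theorem Levels_self {V : Type*} [DecidableEq V] (E : Finset (Finset V)) (x : V) :
    x ∈ nbc E x := Finset.mem_insert_self _ _

private theorem Levels_step {V : Type*} [DecidableEq V] (E : Finset (Finset V)) (S : Finset V)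
    {j : ℕ} {x y : V} (hx : x ∈ Levels_B E S j) (hy : y ∈ nbc E x) : y ∈ Levels_B E S (j + 1) := by
  rw [Levels_B, Finset.mem_biUnion]
  exact ⟨x, hx, hy⟩

private theorem Levels_mono {V : Type*} [DecidableEq V] (E : Finset (Finset V)) (S : Finset V)
    {i j : ℕ} (h : i ≤ j) : Levels_B E S i ⊆ Levels_B E S j := by
  induction j, h using Nat.le_induction with
  | base => exact Finset.Subset.refl _
  | succ j _ ih => exact fun x hx => Levels_step E S (ih hx) (Levels_self E x)

private theorem Levels_card {V : Type*} [DecidableEq V] {T : Finset V} {E : Finset (Finset V)}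
    {Δ : ℕ} (hH : Hyp T E Δ) (S : Finset V) (j : ℕ) :
    (Levels_B E S j).card ≤ S.card * (2 * Δ + 1) ^ j := by
  induction j with
  | zero => rw [pow_zero, mul_one, Levels_B]
  | succ j ih =>
    rw [Levels_B]
    calc _ ≤ (Levels_B E S j).card * (2 * Δ + 1) :=
          Finset.card_biUnion_le_card_mul _ _ _ fun y _ => nbc_card hH y
      _ ≤ S.card * (2 * Δ + 1) ^ j * (2 * Δ + 1) := Nat.mul_le_mul_right _ ih
      _ = S.card * (2 * Δ + 1) ^ (j + 1) := by rw [pow_succ, mul_assoc]

theorem levels {V : Type*} [Fintype V] [DecidableEq V] (E : Finset (Finset V)) (Δ : ℕ)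
    (hH : Hyp Finset.univ E Δ) (S : Finset V) (D : ℕ) :
    ∃ d : V → ℕ, (∀ x, d x ≤ D) ∧ (∀ x, 0 < D → (d x = 0 ↔ x ∈ S)) ∧
      (∀ f ∈ E, ∀ x ∈ f, ∀ y ∈ f, d y ≤ d x + 1) ∧
      (Finset.univ.filter fun x => d x < D).card ≤ S.card * (2 * Δ + 1) ^ D := by
  classical
  obtain ⟨d, hd1, hd2, hd3⟩ : ∃ d : V → ℕ, (∀ x, d x ≤ D) ∧
      (∀ x j, x ∈ Levels_B E S j → d x ≤ j) ∧ ∀ x, d x < D → x ∈ Levels_B E S (d x) := by
    refine ⟨fun x => if h : ∃ j, j < D ∧ x ∈ Levels_B E S j then Nat.find h else D,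
      fun x => ?_, fun x j hj => ?_, fun x hx => ?_⟩
    · by_cases h : ∃ j, j < D ∧ x ∈ Levels_B E S j
      · simp only [dif_pos h]
        exact (Nat.find_spec h).1.le
      · simp only [dif_neg h]
        exact le_rfl
    · by_cases h : ∃ j, j < D ∧ x ∈ Levels_B E S j
      · simp only [dif_pos h]
        by_cases hjD : j < D
        · exact Nat.find_min' h ⟨hjD, hj⟩
        · exact (Nat.find_spec h).1.le.trans (not_lt.1 hjD)
      · simp only [dif_neg h]
        by_contra hc
        exact h ⟨j, not_le.1 hc, hj⟩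
    · by_cases h : ∃ j, j < D ∧ x ∈ Levels_B E S j
      · simp only [dif_pos h] at hx ⊢
        exact (Nat.find_spec h).2
      · simp only [dif_neg h] at hx
        exact absurd hx (lt_irrefl _)
  refine ⟨d, hd1, fun x hD => ⟨fun h => ?_, fun h => ?_⟩, fun f hf x hx y hy => ?_, ?_⟩
  · have h1 := hd3 x (by omega)
    rwa [h] at h1
  · exact Nat.le_zero.1 (hd2 x 0 h)
  · by_cases h : d x < D
    · refine hd2 y _ (Levels_step E S (hd3 x h) ?_)
      unfold nbc edgesAt
      rw [Finset.mem_insert, Finset.mem_biUnion]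
      exact Or.inr ⟨f, Finset.mem_filter.2 ⟨hf, hx⟩, hy⟩
    · have := hd1 y
      omega
  · refine le_trans (Finset.card_le_card ?_) (Levels_card hH S D)
    intro x hx
    rw [Finset.mem_filter] at hx
    exact Levels_mono E S (hd1 x) (hd3 x hx.2)

end Pool.MP7783b9
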