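import Pool.Agent.H.MP_7783b9_co.R.Multi
import Pool.Agent.H.MP_7783b9_co.R.FanoC
import Pool.Agent.H.MP_7783b9_co.R.Parts
import Pool.Agent.H.MP_7783b9_co.W.SubSp

/-!
# Linked clusters
-/

set_option autoImplicit false

open Finset

namespace Pool.MP7783b9

/-- `C` and `C'` contain subsets of equal size at least `m` whose union is sparse -/
def Linked {α : Type} [DecidableEq α] (R : Finset α → Prop) (ε m : ℝ) (C C' : Finset α) : Prop :=
  ∃ A ⊆ C, ∃ A' ⊆ C', A.card = A'.card ∧ m ≤ (A.card : ℝ) ∧ dense R (A ∪ A') ε = ∅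

theorem Linked.symm {α : Type} [DecidableEq α] {R : Finset α → Prop} {ε m : ℝ}
    {C C' : Finset α} (h : Linked R ε m C C') : Linked R ε m C' C := by
  obtain ⟨A, hA, A', hA', he, hm, hd⟩ := h
  exact ⟨A', hA', A, hA, he.symm, by rw [← he]; exact hm, by rw [Finset.union_comm]; exact hd⟩

/-- a sparse union of parts gives linked clusters -/
theorem linked_of_sparse {α : Type} [DecidableEq α] (R : Finset α → Prop) (C C' : Finset α)
    (A A' : Finset α) (hA : A ⊆ C) (hA' : A' ⊆ C') (M : ℕ) (hM : 0 < M) (hAc : A.card = M)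
    (hAc' : A'.card = M) (hd : Disjoint A A') (θ : ℝ) (hθ : 0 < θ) (hθ1 : θ ≤ 1 / 64)
    (h : (e3 R (A ∪ A') (A ∪ A') (A ∪ A') : ℝ) ≤ θ ^ 2 * ((A ∪ A').card : ℝ) ^ 3) :
    Linked R (16 * θ) ((M : ℝ) / 2) C C' := by
  classical
  have hW : (A ∪ A').card = 2 * M := by
    rw [Finset.card_union_of_disjoint hd, hAc, hAc']
    ring
  have hMr : (0 : ℝ) < M := by exact_mod_cast hM
  have h1 := dense_card R (A ∪ A') (θ ^ 2) θ hθ h
  rw [hW] at h1
  push_cast at h1
  have h2 : ((dense R (A ∪ A') θ).card : ℝ) ≤ 2 * θ * M := by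
    have h3 : θ * ((dense R (A ∪ A') θ).card : ℝ) ≤ θ * (2 * θ * M) := by
      refine h1.trans (le_of_eq ?_)
      ring
    exact le_of_mul_le_mul_left h3 hθ
  set D := dense R (A ∪ A') θ with hD
  have h3 : (D.card : ℝ) ≤ M / 32 := by nlinarith only [h2, hθ1, hMr]
  have h3' : D.card ≤ M := by
    have : (D.card : ℝ) ≤ M := by linarith only [h3, hMr]
    exact_mod_cast this
  have c1 : M - D.card ≤ (A \ D).card := by
    have := Finset.le_card_sdiff D A
    rw [hAc] at this
    exact this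
  have c2 : M - D.card ≤ (A' \ D).card := by
    have := Finset.le_card_sdiff D A'
    rw [hAc'] at this
    exact this
  obtain ⟨B, hB, hBc⟩ := Finset.exists_subset_card_eq c1
  obtain ⟨B', hB', hBc'⟩ := Finset.exists_subset_card_eq c2
  have hm : ((M - D.card : ℕ) : ℝ) = (M : ℝ) - D.card := by rw [Nat.cast_sub h3']
  have hm2 : (M : ℝ) / 2 ≤ ((M - D.card : ℕ) : ℝ) := by
    rw [hm]
    linarith only [h3, hMr]
  have hBA : B ⊆ A := hB.trans Finset.sdiff_subset
  have hBA' : B' ⊆ A' := hB'.trans Finset.sdiff_subset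
  refine ⟨B, hBA.trans hA, B', hBA'.trans hA', hBc.trans hBc'.symm, by rw [hBc]; exact hm2, ?_⟩
  have hdB : Disjoint B B' := Finset.disjoint_of_subset_left hBA
    (Finset.disjoint_of_subset_right hBA' hd)
  have hcB : (B ∪ B').card = 2 * (M - D.card) := by
    rw [Finset.card_union_of_disjoint hdB, hBc, hBc']
    ring
  refine Finset.eq_empty_of_forall_notMem fun x hx => ?_
  obtain ⟨hx1, hx2⟩ := mem_dense.1 hx
  have hxW : x ∈ A ∪ A' := Finset.union_subset_union hBA hBA' hx1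
  have hxD : x ∉ D := by
    rcases Finset.mem_union.1 hx1 with h4 | h4
    · exact (Finset.mem_sdiff.1 (hB h4)).2
    · exact (Finset.mem_sdiff.1 (hB' h4)).2
  have h4 : ((bpairs R (A ∪ A') x).card : ℝ) < θ * ((A ∪ A').card : ℝ) ^ 2 := by
    by_contra hc
    exact hxD (mem_dense.2 ⟨hxW, not_lt.1 hc⟩)
  have h5 : ((bpairs R (B ∪ B') x).card : ℝ) ≤ ((bpairs R (A ∪ A') x).card : ℝ) := by
    exact_mod_cast bpairs_mono R (Finset.union_subset_union hBA hBA') x
  rw [hW] at h4
  rw [hcB] at hx2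
  push_cast at h4
  rw [Nat.cast_mul] at hx2
  push_cast at hx2
  set u : ℝ := ((M - D.card : ℕ) : ℝ) with hu
  have h6 : (M : ℝ) ^ 2 ≤ (2 * u) ^ 2 := by
    refine pow_le_pow_left₀ hMr.le ?_ 2
    linarith only [hm2]
  have h7 : 16 * θ * (M : ℝ) ^ 2 ≤ 16 * θ * (2 * u) ^ 2 :=
    mul_le_mul_of_nonneg_left h6 (by linarith only [hθ])
  have h8 : 0 < θ * (M : ℝ) ^ 2 := mul_pos hθ (pow_pos hMr 2)
  have h9 : θ * (2 * (M : ℝ)) ^ 2 = 4 * (θ * (M : ℝ) ^ 2) := by ring
  linarith only [hx2, h4, h5, h7, h8, h9]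

theorem Link_rot {α : Type} [DecidableEq α] {R : Finset α → Prop} {δ θ : ℝ} {X Y Z : Finset α}
    (h : Dens R δ θ X Y Z) : Dens R δ θ Y Z X := by
  intro A hA B hB C hC h1 h2 h3
  have h4 := h C hC A hA B hB h3 h1 h2
  rw [e3_rot] at h4
  refine le_trans (le_of_eq ?_) h4
  ring

theorem Link_swap {α : Type} [DecidableEq α] {R : Finset α → Prop} {δ θ : ℝ} {X Y Z : Finset α}
    (h : Dens R δ θ X Y Z) : Dens R δ θ X Z Y := by
  intro A hA B hB C hC h1 h2 h3
  have h4 := h A hA C hC B hB h1 h3 h2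
  rw [e3_swap] at h4
  refine le_trans (le_of_eq ?_) h4
  ring

theorem Link_perm {ι : Type} [DecidableEq ι] (S : ι → ι → ι → Prop)
    (hr : ∀ a b c, S a b c → S b c a) (hs : ∀ a b c, S a b c → S a c b) {a b c i j k : ι}
    (h : ({i, j, k} : Finset ι) = {a, b, c}) (hij : i ≠ j) (hik : i ≠ k) (hjk : j ≠ k)
    (hS : S a b c) : S i j k := by
  have hi : i ∈ ({a, b, c} : Finset ι) := by rw [← h]; simp
  have hj : j ∈ ({a, b, c} : Finset ι) := by rw [← h]; simp
  have hk : k ∈ ({a, b, c} : Finset ι) := by rw [← h]; simp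
  simp only [Finset.mem_insert, Finset.mem_singleton] at hi hj hk
  clear h
  rcases hi with rfl | rfl | rfl
  · rcases hj with rfl | rfl | rfl
    · exact absurd rfl hij
    · rcases hk with rfl | rfl | rfl
      · exact absurd rfl hik
      · exact absurd rfl hjk
      · exact hS
    · rcases hk with rfl | rfl | rfl
      · exact absurd rfl hik
      · exact hs _ _ _ hS
      · exact absurd rfl hjk
  · rcases hj with rfl | rfl | rfl
    · rcases hk with rfl | rfl | rfl
      · exact absurd rfl hjk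
      · exact absurd rfl hik
      · exact hs _ _ _ (hr _ _ _ hS)
    · exact absurd rfl hij
    · rcases hk with rfl | rfl | rfl
      · exact hr _ _ _ hS
      · exact absurd rfl hik
      · exact absurd rfl hjk
  · rcases hj with rfl | rfl | rfl
    · rcases hk with rfl | rfl | rfl
      · exact absurd rfl hjk
      · exact hr _ _ _ (hr _ _ _ hS)
      · exact absurd rfl hik
    · rcases hk with rfl | rfl | rfl
      · exact hs _ _ _ (hr _ _ _ (hr _ _ _ hS))
      · exact absurd rfl hjk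
      · exact absurd rfl hik
    · exact absurd rfl hij

/-- Types `i i j`, `i i k`, `j j k` everywhere dense give a blue Fano plane: four parts of the
first kind, two parts of the second kind, one part of the third kind. -/
theorem fano_of_types {α : Type} [DecidableEq α] (R : Finset α → Prop)
    (X : Fin 4 → Finset α) (Y : Fin 2 → Finset α) (Z : Finset α) (θ δ : ℝ) (hθ : 0 < θ)
    (hθ1 : θ ≤ 1) (hδ : 0 < δ) (hδθ : 7 * δ < θ ^ 7)
    (hX : ∀ a b, a ≠ b → Disjoint (X a) (X b)) (hY : Disjoint (Y 0) (Y 1))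
    (hXY : ∀ a b, Disjoint (X a) (Y b)) (hXZ : ∀ a, Disjoint (X a) Z)
    (hYZ : ∀ b, Disjoint (Y b) Z) (hXn : ∀ a, (X a).Nonempty) (hYn : ∀ b, (Y b).Nonempty)
    (hZn : Z.Nonempty) (h1 : ∀ a b c, a ≠ b → Dens R δ θ (X a) (X b) (Y c))
    (h2 : ∀ a b, a ≠ b → Dens R δ θ (X a) (X b) Z)
    (h3 : Dens R δ θ (Y 0) (Y 1) Z) :
    BlueFano R ((Finset.univ.biUnion X ∪ Finset.univ.biUnion Y) ∪ Z) := by
  classical
  have hr : ∀ {A B C : Finset α}, Dens R δ θ A B C → Dens R δ θ B C A := fun h => Link_rot h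
  have hs : ∀ {A B C : Finset α}, Dens R δ θ A B C → Dens R δ θ A C B := fun h => Link_swap h
  let V : Fin 7 → Finset α := ![Y 0, Y 1, X 0, Z, X 1, X 2, X 3]
  have v0 : V 0 = Y 0 := rfl
  have v1 : V 1 = Y 1 := rfl
  have v2 : V 2 = X 0 := rfl
  have v3 : V 3 = Z := rfl
  have v4 : V 4 = X 1 := rfl
  have v5 : V 5 = X 2 := rfl
  have v6 : V 6 = X 3 := rfl
  have hall : ∀ (P : Fin 7 → Prop), P 0 → P 1 → P 2 → P 3 → P 4 → P 5 → P 6 → ∀ i, P i := by
    intro P h0 h1 h2 h3 h4 h5 h6 i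
    fin_cases i
    · exact h0
    · exact h1
    · exact h2
    · exact h3
    · exact h4
    · exact h5
    · exact h6
  have x01 := hX 0 1 (by decide)
  have x02 := hX 0 2 (by decide)
  have x03 := hX 0 3 (by decide)
  have x12 := hX 1 2 (by decide)
  have x13 := hX 1 3 (by decide)
  have x23 := hX 2 3 (by decide)
  have hV : ∀ i j, i < j → Disjoint (V i) (V j) := by
    refine hall _ (hall _ ?_ ?_ ?_ ?_ ?_ ?_ ?_) (hall _ ?_ ?_ ?_ ?_ ?_ ?_ ?_)
      (hall _ ?_ ?_ ?_ ?_ ?_ ?_ ?_) (hall _ ?_ ?_ ?_ ?_ ?_ ?_ ?_) (hall _ ?_ ?_ ?_ ?_ ?_ ?_ ?_)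
      (hall _ ?_ ?_ ?_ ?_ ?_ ?_ ?_) (hall _ ?_ ?_ ?_ ?_ ?_ ?_ ?_) <;> intro hlt
    all_goals first
      | exact absurd hlt (by decide)
      | (simp only [v0, v1, v2, v3, v4, v5, v6]
         first
           | exact hY
           | exact x01
           | exact x02
           | exact x03
           | exact x12
           | exact x13
           | exact x23
           | exact (hXY _ _).symm
           | exact hXY _ _
           | exact hXZ _
           | exact (hXZ _).symm
           | exact hYZ _)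
  have hV' : ∀ i j, i ≠ j → Disjoint (V i) (V j) := by
    intro i j hij
    rcases lt_or_gt_of_ne hij with h | h
    · exact hV i j h
    · exact (hV j i h).symm
  have hne : ∀ i, (V i).Nonempty :=
    hall _ (hYn 0) (hYn 1) (hXn 0) hZn (hXn 1) (hXn 2) (hXn 3)
  have hsub : ∀ i, V i ⊆ (Finset.univ.biUnion X ∪ Finset.univ.biUnion Y) ∪ Z := by
    have sx : ∀ a, X a ⊆ (Finset.univ.biUnion X ∪ Finset.univ.biUnion Y) ∪ Z := fun a =>
      (Finset.subset_biUnion_of_mem X (Finset.mem_univ a)).trans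
        (Finset.subset_union_left.trans Finset.subset_union_left)
    have sy : ∀ a, Y a ⊆ (Finset.univ.biUnion X ∪ Finset.univ.biUnion Y) ∪ Z := fun a =>
      (Finset.subset_biUnion_of_mem Y (Finset.mem_univ a)).trans
        (Finset.subset_union_right.trans Finset.subset_union_left)
    exact hall _ (sy 0) (sy 1) (sx 0) Finset.subset_union_right (sx 1) (sx 2) (sx 3)
  obtain ⟨ψ, hψ, hmem, hf⟩ := fano_count R V hV' hne θ δ hθ hθ1 hδ hδθ (by
    intro i j k hij hik hjk hf
    have key : ∀ a b c : Fin 7, ({i, j, k} : Finset (Fin 7)) = {a, b, c} →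
        Dens R δ θ (V a) (V b) (V c) → Dens R δ θ (V i) (V j) (V k) := fun a b c h hS =>
      Link_perm (fun a b c => Dens R δ θ (V a) (V b) (V c)) (fun _ _ _ => hr) (fun _ _ _ => hs)
        h hij hik hjk hS
    simp only [fano, Finset.mem_insert, Finset.mem_singleton] at hf
    rcases hf with hf | hf | hf | hf | hf | hf | hf
    · exact key _ _ _ hf h3
    · exact key _ _ _ hf (hr (hr (h1 0 1 1 (by decide))))
    · exact key _ _ _ hf (hs (h2 0 2 (by decide)))
    · exact key _ _ _ hf (hr (hr (h2 1 3 (by decide))))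
    · exact key _ _ _ hf (h1 1 2 0 (by decide))
    · exact key _ _ _ hf (h1 2 3 1 (by decide))
    · exact key _ _ _ hf (hs (h1 3 0 0 (by decide))))
  refine ⟨ψ, hψ, fun i => ?_, hf⟩
  obtain ⟨l, -, hl⟩ := Finset.mem_biUnion.1 (hmem i)
  exact hsub l hl

end Pool.MP7783b9
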