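import Mathlib

/-!
# A small set which meets all members of a finite family in the right proportion
-/

set_option autoImplicit false

open Finset

namespace Pool.MP7783b9

theorem reserve {α : Type*} [DecidableEq α] (U : Finset α) (𝒜 : Finset (Finset α)) (ζ : ℝ)
    (hζ : 0 ≤ ζ) (hζ1 : ζ ≤ 1) :
    ∃ Z ⊆ U, (Z.card : ℝ) ≤ ζ * (U.card : ℝ) ∧
      ∀ A ∈ 𝒜, A ⊆ U → ζ * (A.card : ℝ) - 2 ^ 𝒜.card ≤ ((Z ∩ A).card : ℝ) := by
  classical
  set f : α → Finset (Finset α) := fun x => 𝒜.filter (fun A => x ∈ A) with hf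
  have hfm : ∀ x, f x ∈ 𝒜.powerset := fun x => mem_powerset.2 (filter_subset _ _)
  have h1 : ∀ T : Finset (Finset α), ∃ Z ⊆ U.filter (fun x => f x = T),
      Z.card = ⌊ζ * ((U.filter (fun x => f x = T)).card : ℝ)⌋₊ := by
    intro T
    apply exists_subset_card_eq
    apply Nat.floor_le_of_le
    exact mul_le_of_le_one_left (Nat.cast_nonneg _) hζ1
  choose Z hZs hZc using h1
  have hZle : ∀ T, ((Z T).card : ℝ) ≤ ζ * ((U.filter (fun x => f x = T)).card : ℝ) := by
    intro T
    rw [hZc T]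
    exact Nat.floor_le (by positivity)
  have hZge : ∀ T, ζ * ((U.filter (fun x => f x = T)).card : ℝ) - 1 ≤ ((Z T).card : ℝ) := by
    intro T
    rw [hZc T]
    exact (Nat.sub_one_lt_floor _).le
  refine ⟨𝒜.powerset.biUnion Z, ?_, ?_, ?_⟩
  · intro x hx
    obtain ⟨T, -, hxT⟩ := mem_biUnion.1 hx
    exact (mem_filter.1 (hZs T hxT)).1
  · have h2 : ((𝒜.powerset.biUnion Z).card : ℝ) ≤ ∑ T ∈ 𝒜.powerset, ((Z T).card : ℝ) := by
      exact_mod_cast card_biUnion_le
    have h3 : (U.card : ℝ) = ∑ T ∈ 𝒜.powerset, ((U.filter (fun x => f x = T)).card : ℝ) := by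
      exact_mod_cast card_eq_sum_card_fiberwise (s := U) (t := 𝒜.powerset) (f := f)
        (fun x _ => hfm x)
    rw [h3, mul_sum]
    exact h2.trans (sum_le_sum fun T _ => hZle T)
  · intro A hA hAU
    have h3 : (A.card : ℝ) = ∑ T ∈ 𝒜.powerset, ((A.filter (fun x => f x = T)).card : ℝ) := by
      exact_mod_cast card_eq_sum_card_fiberwise (s := A) (t := 𝒜.powerset) (f := f)
        (fun x _ => hfm x)
    have h4 : ((𝒜.powerset.biUnion Z ∩ A).card : ℝ) =
        ∑ T ∈ 𝒜.powerset, (((𝒜.powerset.biUnion Z ∩ A).filter (fun x => f x = T)).card : ℝ) := by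
      exact_mod_cast card_eq_sum_card_fiberwise (s := 𝒜.powerset.biUnion Z ∩ A)
        (t := 𝒜.powerset) (f := f) (fun x _ => hfm x)
    have h5 : ((2 : ℝ) ^ 𝒜.card) = ∑ T ∈ 𝒜.powerset, (1 : ℝ) := by
      rw [sum_const, card_powerset, nsmul_eq_mul, mul_one]
      push_cast
      rfl
    rw [h3, h4, h5, mul_sum, ← sum_sub_distrib]
    apply sum_le_sum
    intro T hT
    by_cases hAT : A ∈ T
    · have h6 : Z T ⊆ (𝒜.powerset.biUnion Z ∩ A).filter (fun x => f x = T) := by
        intro x hx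
        have h7 := (mem_filter.1 (hZs T hx)).2
        refine mem_filter.2 ⟨mem_inter.2 ⟨mem_biUnion.2 ⟨T, hT, hx⟩, ?_⟩, h7⟩
        rw [← h7] at hAT
        exact (mem_filter.1 hAT).2
      have h8 : A.filter (fun x => f x = T) ⊆ U.filter (fun x => f x = T) :=
        filter_subset_filter _ hAU
      have h9 : ((Z T).card : ℝ) ≤
          (((𝒜.powerset.biUnion Z ∩ A).filter (fun x => f x = T)).card : ℝ) := by
        exact_mod_cast card_le_card h6
      have h10 : ((A.filter (fun x => f x = T)).card : ℝ) ≤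
          ((U.filter (fun x => f x = T)).card : ℝ) := by
        exact_mod_cast card_le_card h8
      have h11 := mul_le_mul_of_nonneg_left h10 hζ
      linarith only [h9, h11, hZge T]
    · have h6 : A.filter (fun x => f x = T) = ∅ := by
        rw [filter_eq_empty_iff]
        intro x hx he
        apply hAT
        rw [← he]
        exact mem_filter.2 ⟨hA, hx⟩
      rw [h6, card_empty, Nat.cast_zero, mul_zero]
      have : (0 : ℝ) ≤ (((𝒜.powerset.biUnion Z ∩ A).filter (fun x => f x = T)).card : ℝ) :=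
        Nat.cast_nonneg _
      linarith only [this]

end Pool.MP7783b9
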